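import Pool.Agent.Helper656.CapIter

open MeasureTheory SchwartzMap
open scoped ENNReal NNReal FourierTransform SchwartzMap RealInnerProductSpace

namespace Pool.Agent.TH969.BC

open Pool.Agent.Helper656.Cap

open Classical in
/-- the iteration of Helper656, with a bound for the sides of the cubes used -/
theorem exists_weights_size (n : ℕ) (d p : ℝ) (hd : 0 < d) (hp : 0 < p) (hp1 : p ≤ 1) (G : ℝ → ℝ)
    (hG0 : ∀ s, 0 ≤ G s) (hG : ∀ s t, 0 ≤ s → s ≤ t → G t ≤ G s)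
    (hGs : Summable fun i : ℕ => G (2 ^ i) * ((2 : ℝ) ^ i) ^ d) :
    ∃ δ₀ : ℝ, 0 < δ₀ ∧ ∀ (μ : ℕ) (ε : ℝ), 0 ≤ ε → ε * ((2 : ℝ) ^ μ) ^ d ≤ δ₀ →
      ∀ w : Cube n → E n → ℝ, (∀ Q, ∀ y ∈ Cube.set Q, 1 ≤ w Q y) →
      (∀ Q y, -(ε * G (‖y - Cube.center Q‖ / (2 ^ μ * Cube.side Q))) ≤ w Q y) →
      ∀ T₀ : Finset (Cube n), ∃ (T : Finset (ℕ × Cube n)) (lam : ℕ × Cube n → ℝ),
        (∀ i ∈ T, 0 ≤ lam i) ∧
        (∀ Q ∈ T₀, ∀ y ∈ Cube.set Q, 1 ≤ ∑ i ∈ T, lam i * w i.2 y) ∧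
        ∑ i ∈ T, lam i ^ p * Cube.side i.2 ^ d ≤ 18 * ∑ Q ∈ T₀, Cube.side Q ^ d ∧
        ∀ i ∈ T, Cube.side i.2 ^ d ≤ 8 * ∑ Q ∈ T₀, Cube.side Q ^ d := by
  obtain ⟨C, hC, hstep⟩ := step_lemma n d hd G hG0 hG hGs
  refine ⟨1 / (4 * C), by positivity, ?_⟩
  intro μ ε hε hεM w hw1 hw2 T₀
  have step : ∀ (P : {P : Finset (Cube n) × (Cube n → ℝ) // ∀ Q ∈ P.1, 0 ≤ P.2 Q})
      (τ : {t : ℝ // 0 < t}),
      ∃ P' : {P : Finset (Cube n) × (Cube n → ℝ) // ∀ Q ∈ P.1, 0 ≤ P.2 Q},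
        (∀ R ∈ P'.1.1, τ.1 ≤ P'.1.2 R) ∧
        (∀ R ∈ P'.1.1, ∃ Q ∈ P.1.1, Cube.side Q ≤ Cube.side R) ∧
        (∑ R ∈ P'.1.1, P'.1.2 R * Cube.side R ^ d ≤
          1 / 4 * ∑ Q ∈ P.1.1, P.1.2 Q * Cube.side Q ^ d) ∧
        ∀ y : E n, ∑ Q ∈ P.1.1, P.1.2 Q * (ε * G (‖y - Cube.center Q‖ / (2 ^ μ * Cube.side Q))) ≤
          2 * τ.1 + ∑ R ∈ P'.1.1, if y ∈ Cube.set R then P'.1.2 R else 0 := by
    rintro ⟨⟨T, a⟩, hP⟩ ⟨τ, hτ⟩
    simp only at hP
    obtain ⟨T', a', h1, h2, h3, h4⟩ := hstep μ ε hε T a hP τ hτ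
    refine ⟨⟨(T', a'), fun R hR => hτ.le.trans (h1 R hR)⟩, h1, h2, ?_, h4⟩
    refine h3.trans (mul_le_mul_of_nonneg_right ?_ ?_)
    · calc C * (ε * ((2 : ℝ) ^ μ) ^ d) ≤ C * (1 / (4 * C)) := mul_le_mul_of_nonneg_left hεM hC.le
        _ = 1 / 4 := by field_simp
    · exact Finset.sum_nonneg fun Q hQ => mul_nonneg (hP Q hQ) (Real.rpow_nonneg (side_pos Q).le _)
  choose F hF1 hF2 hF3 hF4 using step
  let τ : ℕ → {t : ℝ // 0 < t} := fun k => ⟨(1 / 2) ^ (k + 4), by positivity⟩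
  let P : ℕ → {P : Finset (Cube n) × (Cube n → ℝ) // ∀ Q ∈ P.1, 0 ≤ P.2 Q} := fun k =>
    Nat.rec ⟨(T₀, fun _ => 2), fun _ _ => zero_le_two⟩ (fun k P => F P (τ k)) k
  have hP1 : ∀ k, P (k + 1) = F (P k) (τ k) := fun k => rfl
  set A : ℕ → Finset (Cube n) := fun k => (P k).1.1 with hA
  set a : ℕ → Cube n → ℝ := fun k => (P k).1.2 with ha
  have hA0 : A 0 = T₀ := rfl
  have ha0 : ∀ Q, a 0 Q = 2 := fun _ => rfl
  have hnn : ∀ k, ∀ Q ∈ A k, 0 ≤ a k Q := fun k => (P k).2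
  set S0 := ∑ Q ∈ T₀, Cube.side Q ^ d with hS0
  have hS0nn : 0 ≤ S0 := Finset.sum_nonneg fun Q _ => Real.rpow_nonneg (side_pos Q).le _
  have hS : ∀ k, ∑ Q ∈ A k, a k Q * Cube.side Q ^ d ≤ (1 / 4) ^ k * (2 * S0) := by
    intro k
    induction k with
    | zero =>
      rw [pow_zero, one_mul, hS0, Finset.mul_sum]
      exact le_rfl
    | succ k ih =>
      have h1 := hF3 (P k) (τ k)
      rw [← hP1] at h1
      calc _ ≤ 1 / 4 * ∑ Q ∈ A k, a k Q * Cube.side Q ^ d := h1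
        _ ≤ 1 / 4 * ((1 / 4) ^ k * (2 * S0)) := by linarith
        _ = _ := by rw [pow_succ]; ring
  have hside : ∀ k, ∀ R ∈ A k, ∃ Q ∈ T₀, Cube.side Q ≤ Cube.side R := by
    intro k
    induction k with
    | zero => intro R hR; exact ⟨R, hR, le_rfl⟩
    | succ k ih =>
      intro R hR
      obtain ⟨Q, hQ, hQR⟩ := hF2 (P k) (τ k) R hR
      obtain ⟨Q', hQ', hQQ'⟩ := ih Q hQ
      exact ⟨Q', hQ', hQQ'.trans hQR⟩
  have hlow : ∀ k, ∀ R ∈ A (k + 1), (1 / 2 : ℝ) ^ (k + 4) ≤ a (k + 1) R := fun k R hR =>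
    hF1 (P k) (τ k) R hR
  -- the pointwise bound
  have hW : ∀ k (y : E n), (∑ Q ∈ A k, if y ∈ Cube.set Q then a k Q else 0) -
      2 * (1 / 2) ^ (k + 4) - (∑ Q ∈ A (k + 1), if y ∈ Cube.set Q then a (k + 1) Q else 0) ≤
      ∑ Q ∈ A k, a k Q * w Q y := by
    intro k y
    have h1 := hF4 (P k) (τ k) y
    have h2 : (∑ Q ∈ A k, if y ∈ Cube.set Q then a k Q else 0) -
        ∑ Q ∈ A k, a k Q * (ε * G (‖y - Cube.center Q‖ / (2 ^ μ * Cube.side Q))) ≤
        ∑ Q ∈ A k, a k Q * w Q y := by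
      rw [← Finset.sum_sub_distrib]
      refine Finset.sum_le_sum fun Q hQ => ?_
      have h3 := hnn k Q hQ
      have h4 : 0 ≤ ε * G (‖y - Cube.center Q‖ / (2 ^ μ * Cube.side Q)) :=
        mul_nonneg hε (hG0 _)
      split_ifs with hy
      · have h5 := hw1 Q y hy
        nlinarith
      · have h5 := hw2 Q y
        nlinarith
    have h1' : ∑ Q ∈ A k, a k Q * (ε * G (‖y - Cube.center Q‖ / (2 ^ μ * Cube.side Q))) ≤
        2 * (1 / 2) ^ (k + 4) + ∑ R ∈ A (k + 1), if y ∈ Cube.set R then a (k + 1) R else 0 := h1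
    linarith
  have htel : ∀ m (y : E n), (∑ Q ∈ A 0, if y ∈ Cube.set Q then a 0 Q else 0) -
      (1 / 4 - 1 / 4 * (1 / 2) ^ m) - (∑ Q ∈ A m, if y ∈ Cube.set Q then a m Q else 0) ≤
      ∑ k ∈ Finset.range m, ∑ Q ∈ A k, a k Q * w Q y := by
    intro m y
    induction m with
    | zero => simp
    | succ m ih =>
      rw [Finset.sum_range_succ]
      have h1 := hW m y
      have h2 : (2 : ℝ) * (1 / 2) ^ (m + 4) = 1 / 8 * (1 / 2) ^ m := by rw [pow_add]; ring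
      have h3 : (1 / 4 : ℝ) * (1 / 2) ^ (m + 1) = 1 / 8 * (1 / 2) ^ m := by rw [pow_succ]; ring
      rw [h2] at h1
      rw [h3]
      linarith
  -- the families become empty
  obtain ⟨m, hm⟩ : ∃ m, A m = ∅ := by
    rcases T₀.eq_empty_or_nonempty with hT | hT
    · exact ⟨0, by rw [hA0, hT]⟩
    · obtain ⟨Q₁, hQ₁, hmin⟩ := T₀.exists_min_image Cube.side hT
      set ℓ := Cube.side Q₁ ^ d with hℓ
      have hℓ0 : 0 < ℓ := Real.rpow_pos_of_pos (side_pos Q₁) _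
      obtain ⟨m, hm⟩ := exists_pow_lt_of_lt_one (show 0 < ℓ / (8 * S0 + 1) by positivity)
        (show (1 / 2 : ℝ) < 1 by norm_num)
      refine ⟨m + 1, ?_⟩
      by_contra hne
      obtain ⟨R, hR⟩ := Finset.nonempty_iff_ne_empty.2 hne
      obtain ⟨Q, hQ, hQR⟩ := hside (m + 1) R hR
      have h1 : ℓ ≤ Cube.side R ^ d :=
        Real.rpow_le_rpow (side_pos Q₁).le ((hmin Q hQ).trans hQR) hd.le
      have h2 := hlow m R hR
      have h3 : (1 / 2 : ℝ) ^ (m + 4) * ℓ ≤ a (m + 1) R * Cube.side R ^ d :=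
        mul_le_mul h2 h1 hℓ0.le (hnn (m + 1) R hR)
      have h4 : a (m + 1) R * Cube.side R ^ d ≤
          ∑ Q ∈ A (m + 1), a (m + 1) Q * Cube.side Q ^ d :=
        Finset.single_le_sum (f := fun Q => a (m + 1) Q * Cube.side Q ^ d)
          (fun Q hQ => mul_nonneg (hnn (m + 1) Q hQ) (Real.rpow_nonneg (side_pos Q).le _)) hR
      have h5 := hS (m + 1)
      have h6 : (1 / 2 : ℝ) ^ (m + 4) = 1 / 16 * (1 / 2) ^ m := by rw [pow_add]; ring
      have h7 : (1 / 4 : ℝ) ^ (m + 1) = 1 / 4 * ((1 / 2) ^ m * (1 / 2) ^ m) := by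
        rw [pow_succ, ← mul_pow]; norm_num; ring
      rw [h6] at h3
      rw [h7] at h5
      set x := (1 / 2 : ℝ) ^ m with hx
      have hx0 : 0 < x := by positivity
      have h8 : 1 / 16 * x * ℓ ≤ 1 / 4 * (x * x) * (2 * S0) := by linarith
      have h9 : ℓ ≤ 8 * x * S0 := by
        have h10 : x * ℓ ≤ x * (8 * x * S0) := by nlinarith
        exact le_of_mul_le_mul_left h10 hx0
      rw [lt_div_iff₀ (by positivity)] at hm
      nlinarith
  -- the result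
  set T : Finset (ℕ × Cube n) :=
    ((Finset.range m) ×ˢ ((Finset.range m).biUnion A)).filter (fun q => q.2 ∈ A q.1) with hT
  have hTmem : ∀ q : ℕ × Cube n, q ∈ T ↔ q.1 ∈ Finset.range m ∧ q.2 ∈ A q.1 := by
    intro q
    rw [hT, Finset.mem_filter, Finset.mem_product, Finset.mem_biUnion]
    constructor
    · rintro ⟨⟨h1, -⟩, h2⟩; exact ⟨h1, h2⟩
    · rintro ⟨h1, h2⟩; exact ⟨⟨h1, q.1, h1, h2⟩, h2⟩
  refine ⟨T, fun q => a q.1 q.2, ?_, ?_, ?_, ?_⟩
  · intro q hq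
    exact hnn q.1 q.2 ((hTmem q).1 hq).2
  · intro Q hQ y hy
    rw [Finset.sum_finset_product T (Finset.range m) A hTmem]
    have h1 := htel m y
    have h2 : (2 : ℝ) ≤ ∑ Q ∈ A 0, if y ∈ Cube.set Q then a 0 Q else 0 := by
      have h3 := Finset.single_le_sum (s := A 0)
        (f := fun Q => if y ∈ Cube.set Q then a 0 Q else 0) (fun R hR => by
          split_ifs
          · exact hnn 0 R hR
          · exact le_rfl) (show Q ∈ A 0 from hQ)
      simp only [hy, if_true, ha0] at h3 ⊢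
      exact h3
    rw [hm, Finset.sum_empty] at h1
    have h4 : (0 : ℝ) < (1 / 2) ^ m := by positivity
    linarith
  · rw [Finset.sum_finset_product T (Finset.range m) A hTmem]
    simp only
    have hc0 : ∑ Q ∈ A 0, a 0 Q ^ p * Cube.side Q ^ d ≤ 2 * S0 := by
      rw [hS0, Finset.mul_sum]
      refine Finset.sum_le_sum fun Q _ => ?_
      rw [ha0]
      refine mul_le_mul_of_nonneg_right ?_ (Real.rpow_nonneg (side_pos Q).le _)
      calc (2 : ℝ) ^ p ≤ 2 ^ (1 : ℝ) := Real.rpow_le_rpow_of_exponent_le (by norm_num) hp1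
        _ = 2 := Real.rpow_one 2
    have hc1 : ∀ k, ∑ Q ∈ A (k + 1), a (k + 1) Q ^ p * Cube.side Q ^ d ≤
        8 * (1 / 2) ^ k * S0 := by
      intro k
      have h1 : ∑ Q ∈ A (k + 1), a (k + 1) Q ^ p * Cube.side Q ^ d ≤
          ((1 / 2 : ℝ) ^ (k + 4))⁻¹ * ∑ Q ∈ A (k + 1), a (k + 1) Q * Cube.side Q ^ d := by
        rw [Finset.mul_sum]
        refine Finset.sum_le_sum fun Q hQ => ?_
        have h2 := rpow_le_div (p := p) (show (0 : ℝ) < (1 / 2) ^ (k + 4) by positivity)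
          (pow_le_one₀ (by norm_num) (by norm_num)) (hlow k Q hQ) hp hp1
        have h3 : 0 ≤ Cube.side Q ^ d := Real.rpow_nonneg (side_pos Q).le _
        calc a (k + 1) Q ^ p * Cube.side Q ^ d
            ≤ a (k + 1) Q * ((1 / 2 : ℝ) ^ (k + 4))⁻¹ * Cube.side Q ^ d :=
              mul_le_mul_of_nonneg_right h2 h3
          _ = _ := by ring
      refine h1.trans ?_
      have h4 := hS (k + 1)
      have h5 : (0 : ℝ) < ((1 / 2 : ℝ) ^ (k + 4))⁻¹ := by positivity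
      calc _ ≤ ((1 / 2 : ℝ) ^ (k + 4))⁻¹ * ((1 / 4) ^ (k + 1) * (2 * S0)) :=
            mul_le_mul_of_nonneg_left h4 h5.le
        _ = 8 * (1 / 2) ^ k * S0 := by
            have h6 : (1 / 4 : ℝ) ^ (k + 1) = 1 / 4 * ((1 / 2) ^ k * (1 / 2) ^ k) := by
              rw [pow_succ, ← mul_pow]; norm_num; ring
            have h7 : (1 / 2 : ℝ) ^ (k + 4) = 1 / 16 * (1 / 2) ^ k := by rw [pow_add]; ring
            have h8 : (0 : ℝ) < (1 / 2) ^ k := by positivity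
            rw [h6, h7]
            field_simp
            ring
    have htot : ∀ m, ∑ k ∈ Finset.range (m + 1), ∑ Q ∈ A k, a k Q ^ p * Cube.side Q ^ d ≤
        (18 - 16 * (1 / 2) ^ m) * S0 := by
      intro m
      induction m with
      | zero =>
        simp only [zero_add, Finset.sum_range_one, pow_zero]
        linarith
      | succ m ih =>
        rw [Finset.sum_range_succ]
        have h1 := hc1 m
        have h2 : (1 / 2 : ℝ) ^ (m + 1) = 1 / 2 * (1 / 2) ^ m := by rw [pow_succ]; ring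
        rw [h2]
        nlinarith
    rcases Nat.eq_zero_or_pos m with h0 | h0
    · rw [h0, Finset.range_zero, Finset.sum_empty]
      positivity
    · obtain ⟨m', rfl⟩ : ∃ m', m = m' + 1 := ⟨m - 1, by omega⟩
      refine (htot m').trans ?_
      have h1 : (0 : ℝ) < (1 / 2) ^ m' := by positivity
      nlinarith

  · rintro ⟨k, R⟩ hq
    have hR : R ∈ A k := ((hTmem _).1 hq).2
    simp only
    rcases k with _ | k
    · have h1 : Cube.side R ^ d ≤ S0 :=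
        Finset.single_le_sum (f := fun Q => Cube.side Q ^ d)
          (fun Q _ => Real.rpow_nonneg (side_pos Q).le _) hR
      linarith
    · have h2 := hlow k R hR
      have h0 : 0 ≤ Cube.side R ^ d := Real.rpow_nonneg (side_pos R).le _
      have h3 : (1 / 2 : ℝ) ^ (k + 4) * Cube.side R ^ d ≤ a (k + 1) R * Cube.side R ^ d :=
        mul_le_mul_of_nonneg_right h2 h0
      have h4 : a (k + 1) R * Cube.side R ^ d ≤
          ∑ Q ∈ A (k + 1), a (k + 1) Q * Cube.side Q ^ d :=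
        Finset.single_le_sum (f := fun Q => a (k + 1) Q * Cube.side Q ^ d)
          (fun Q hQ => mul_nonneg (hnn (k + 1) Q hQ) (Real.rpow_nonneg (side_pos Q).le _)) hR
      have h5 := hS (k + 1)
      have h6 : (1 / 2 : ℝ) ^ (k + 4) = 1 / 16 * (1 / 2) ^ k := by rw [pow_add]; ring
      have h7 : (1 / 4 : ℝ) ^ (k + 1) = 1 / 4 * ((1 / 2) ^ k * (1 / 2) ^ k) := by
        rw [pow_succ, ← mul_pow]; norm_num; ring
      rw [h6] at h3
      rw [h7] at h5
      set x := (1 / 2 : ℝ) ^ k with hx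
      have hx0 : 0 < x := by positivity
      have hx1 : x ≤ 1 := pow_le_one₀ (by norm_num) (by norm_num)
      have h8 : 1 / 16 * x * Cube.side R ^ d ≤ 1 / 4 * (x * x) * (2 * S0) := by linarith
      have h9 : Cube.side R ^ d ≤ 8 * x * S0 := by
        have h10 : x * Cube.side R ^ d ≤ x * (8 * x * S0) := by nlinarith
        exact le_of_mul_le_mul_left h10 hx0
      nlinarith

end Pool.Agent.TH969.BC
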