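import Pool.Agent.TH969.BC.Block
import Pool.Agent.TH969.BC.Weights

open MeasureTheory SchwartzMap
open scoped ENNReal NNReal FourierTransform SchwartzMap RealInnerProductSpace

namespace Pool.Agent.TH969.BC

open Pool.Agent.Helper656.Cap

variable {n : ℕ}

/-- For compact sets of vanishing `d`-dimensional content there are finite combinations with
nonnegative coefficients of translates and small dilates of one fixed Schwartz function (with
Fourier transform supported in an annulus) which are at least one on `K` and of small cost. -/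
theorem exists_approx (hn : 1 ≤ n) (d p : ℝ) (hd : 0 < d) (hdn : d < n) (hp : 0 < p)
    (hp1 : p ≤ 1) :
    ∃ (w : 𝓢(E n, ℂ)) (R δ : ℝ), 0 < δ ∧ 0 < R ∧ (∀ ξ, ‖ξ‖ ≤ δ → 𝓕 w ξ = 0) ∧
      (∀ ξ, R ≤ ‖ξ‖ → 𝓕 w ξ = 0) ∧ (∀ y, (w y).im = 0) ∧
      ∀ K : Set (E n), IsCompact K → hausdorffContent d K = 0 → ∀ ε : ℝ, 0 < ε →
        ∃ (T : Finset (ℕ × Cube n)) (lam : ℕ × Cube n → ℝ), (∀ i ∈ T, 0 ≤ lam i) ∧
          (∀ i ∈ T, Cube.side i.2 ≤ 1) ∧
          (∀ y ∈ K, 1 ≤ ∑ i ∈ T, lam i * (w ((Cube.side i.2)⁻¹ • (y - Cube.center i.2))).re) ∧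
          ∑ i ∈ T, lam i ^ p * Cube.side i.2 ^ d ≤ ε := by
  obtain ⟨L, hLd⟩ := exists_nat_gt d
  obtain ⟨A, M₀, hA, hM₀, hblock⟩ := exists_block_freq (n := n) hn L
  obtain ⟨δ₀, hδ₀, hW⟩ := exists_weights_size n d p hd hp hp1 (fun s => 1 / (1 + |s|) ^ L)
    (fun s => by positivity)
    (fun s t hs hst => by
      rw [abs_of_nonneg hs, abs_of_nonneg (hs.trans hst)]
      gcongr) (summable_profile hLd)
  obtain ⟨μ, hμ1, hμ2⟩ : ∃ μ : ℕ, M₀ ≤ 2 ^ μ ∧ A / (2 ^ μ) ^ n * ((2 : ℝ) ^ μ) ^ d ≤ δ₀ := by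
    have h1 : Filter.Tendsto (fun μ : ℕ => (2 : ℝ) ^ μ) Filter.atTop Filter.atTop :=
      tendsto_pow_atTop_atTop_of_one_lt one_lt_two
    have h2 : Filter.Tendsto (fun μ : ℕ => A * ((2 : ℝ) ^ μ) ^ (-(n - d))) Filter.atTop
        (nhds (A * 0)) :=
      ((tendsto_rpow_neg_atTop (by linarith)).comp h1).const_mul A
    rw [mul_zero] at h2
    obtain ⟨μ, h3, h4⟩ := ((h1.eventually_ge_atTop M₀).and (h2.eventually_le_const hδ₀)).exists
    refine ⟨μ, h3, le_trans (le_of_eq ?_) h4⟩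
    have h5 : (0 : ℝ) < 2 ^ μ := by positivity
    rw [div_mul_eq_mul_div, mul_div_assoc, ← Real.rpow_natCast _ n, ← Real.rpow_sub h5]
    congr 2
    ring
  obtain ⟨w, ω, hwω, hω1, hω2, hwc, hw0⟩ := hblock (2 ^ μ) hμ1
  obtain ⟨R, hR⟩ := hwc.isCompact.isBounded.subset_closedBall (0 : E n)
  have hM : (0 : ℝ) < 2 ^ μ := by positivity
  have hre : ∀ y, (w y).re = ω y := fun y => by rw [hwω, Complex.ofReal_re]
  refine ⟨w, max R 0 + 1, ((2 : ℝ) ^ μ)⁻¹, by positivity, by positivity, hw0, ?_, ?_, ?_⟩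
  · intro ξ hξ
    by_contra hne
    have h1 := hR (subset_tsupport _ hne)
    rw [Metric.mem_closedBall, dist_zero_right] at h1
    have := le_max_left R 0
    linarith
  · intro y
    rw [hwω, Complex.ofReal_im]
  intro K hK hK0 ε hε
  obtain ⟨Cc, hCc⟩ := exists_cubes (n := n) d hd
  set ε' : ℝ := min (ε / 18) (1 / 8) with hε'
  have hε'0 : 0 < ε' := by positivity
  obtain ⟨T₀, Ω, hΩ, hKΩ, hcov, hcost⟩ := hCc K hK (ENNReal.ofReal (ε' / (Cc + 1))) (by
    rw [hK0, ENNReal.ofReal_pos]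
    positivity)
  have hcost' : ∑ Q ∈ T₀, Cube.side Q ^ d ≤ ε' := by
    have h1 : (Cc : ℝ≥0∞) * ENNReal.ofReal (ε' / (Cc + 1)) ≤ ENNReal.ofReal ε' := by
      rw [← ENNReal.ofReal_coe_nnreal, ← ENNReal.ofReal_mul (NNReal.coe_nonneg Cc)]
      apply ENNReal.ofReal_le_ofReal
      rw [mul_div_assoc', div_le_iff₀ (by positivity)]
      nlinarith [NNReal.coe_nonneg Cc]
    exact (ENNReal.ofReal_le_ofReal_iff hε'0.le).1 (hcost.trans h1)
  obtain ⟨T, lam, hlam, hge, hsum, hsize⟩ := hW μ (A / (2 ^ μ) ^ n) (by positivity) hμ2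
    (fun Q y => ω ((Cube.side Q)⁻¹ • (y - Cube.center Q)))
    (by
      intro Q y hy
      apply hω1
      have h1 := Cube.norm_sub_center_le Q y hy
      rw [norm_smul, norm_inv, Real.norm_of_nonneg (side_pos Q).le, inv_mul_le_iff₀ (side_pos Q)]
      rwa [mul_comm])
    (by
      intro Q y
      refine le_trans (le_of_eq ?_) (hω2 _)
      rw [norm_smul, norm_inv, Real.norm_of_nonneg (side_pos Q).le]
      have h1 : ‖y - Cube.center Q‖ / (2 ^ μ * Cube.side Q) =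
        (Cube.side Q)⁻¹ * ‖y - Cube.center Q‖ / 2 ^ μ := by
        have := (side_pos Q).ne'
        field_simp
      have h2 : 0 ≤ (Cube.side Q)⁻¹ * ‖y - Cube.center Q‖ / 2 ^ μ := by
        have := side_pos Q
        positivity
      rw [h1, abs_of_nonneg h2, mul_one_div]) T₀
  refine ⟨T, lam, hlam, ?_, ?_, ?_⟩
  · intro i hi
    have h1 := hsize i hi
    have h2 : Cube.side i.2 ^ d ≤ 1 := by
      refine h1.trans ?_
      have := min_le_right (ε / 18) (1 / 8 : ℝ)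
      linarith
    by_contra hcon
    exact absurd h2 (not_le.2 (Real.one_lt_rpow (not_le.1 hcon) hd))
  · intro y hy
    obtain ⟨Q, hQ, hyQ⟩ := hcov y (hKΩ hy)
    have h1 := hge Q hQ y hyQ
    simp only [hre]
    exact h1
  · have := min_le_left (ε / 18) (1 / 8 : ℝ)
    calc _ ≤ 18 * ∑ Q ∈ T₀, Cube.side Q ^ d := hsum
      _ ≤ 18 * (ε / 18) := by linarith
      _ = ε := by ring

end Pool.Agent.TH969.BC
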