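import Pool.Agent.TH969.BC.BesovLower

open MeasureTheory SchwartzMap
open scoped ENNReal NNReal FourierTransform SchwartzMap RealInnerProductSpace

namespace Pool.Agent.TH969.BC

open Pool.Agent.Helper656.Cap

variable {n : ℕ}

/-- the mollified `p`-th power of a block at scale `s` -/
noncomputable def mol (p s m : ℝ) (g : 𝓢(E n, ℂ)) (x : E n) : ℝ≥0∞ :=
  ∫⁻ z, ENNReal.ofReal (‖g z‖ ^ p * (s⁻¹ ^ n * (1 + ‖x - z‖ / s) ^ (-m)))

theorem mol_comparable (p s m : ℝ) (hs : 0 < s) (hm : 0 < m) (g : 𝓢(E n, ℂ)) (x y : E n)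
    (D : ℝ) (hD : 0 ≤ D) (h : ‖x - y‖ ≤ D * s) :
    mol p s m g x ≤ ENNReal.ofReal ((1 + D) ^ m) * mol p s m g y := by
  unfold mol
  rw [← lintegral_const_mul' _ _ ENNReal.ofReal_ne_top]
  refine lintegral_mono fun z => ?_
  rw [← ENNReal.ofReal_mul (by positivity)]
  apply ENNReal.ofReal_le_ofReal
  have h1 : 1 + ‖y - z‖ / s ≤ (1 + D) * (1 + ‖x - z‖ / s) := by
    have h2 : ‖y - z‖ ≤ ‖y - x‖ + ‖x - z‖ := norm_sub_le_norm_sub_add_norm_sub _ _ _
    rw [norm_sub_rev y x] at h2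
    have h3 : ‖y - z‖ / s ≤ D + ‖x - z‖ / s := by
      rw [div_le_iff₀ hs, add_mul, div_mul_cancel₀ _ hs.ne']
      linarith
    have h4 : 0 ≤ ‖x - z‖ / s := by positivity
    nlinarith
  have h5 : (1 + ‖x - z‖ / s) ^ (-m) ≤ (1 + D) ^ m * (1 + ‖y - z‖ / s) ^ (-m) := by
    rw [Real.rpow_neg (by positivity), Real.rpow_neg (by positivity), ← div_eq_mul_inv,
      inv_eq_one_div, div_le_div_iff₀ (by positivity) (by positivity), one_mul,
      ← Real.mul_rpow (by positivity) (by positivity)]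
    exact Real.rpow_le_rpow (by positivity) h1 hm.le
  calc ‖g z‖ ^ p * (s⁻¹ ^ n * (1 + ‖x - z‖ / s) ^ (-m)) ≤
      ‖g z‖ ^ p * (s⁻¹ ^ n * ((1 + D) ^ m * (1 + ‖y - z‖ / s) ^ (-m))) := by gcongr
    _ = _ := by ring

theorem lintegral_mol (p s m : ℝ) (hs : 0 < s) (hp : 0 < p) (g : 𝓢(E n, ℂ)) :
    ∫⁻ x, mol p s m g x =
      (∫⁻ z : E n, ENNReal.ofReal ((1 + ‖z‖) ^ (-m))) * ∫⁻ z, ‖g z‖ₑ ^ p := by
  unfold mol
  rw [lintegral_lintegral_swap (by
    apply Measurable.aemeasurable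
    apply ENNReal.measurable_ofReal.comp
    have hg := g.continuous
    have h1 : Measurable fun q : E n × E n => ‖g q.2‖ ^ p :=
      ((hg.comp continuous_snd).norm.measurable).pow_const _
    have h2 : Measurable fun q : E n × E n => (1 + ‖q.1 - q.2‖ / s) ^ (-m) := by
      apply Measurable.pow_const
      fun_prop
    exact h1.mul (h2.const_mul _))]
  have h1 : ∀ z : E n, ∫⁻ x : E n, ENNReal.ofReal (‖g z‖ ^ p *
      (s⁻¹ ^ n * (1 + ‖x - z‖ / s) ^ (-m))) =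
      ‖g z‖ₑ ^ p * ∫⁻ z : E n, ENNReal.ofReal ((1 + ‖z‖) ^ (-m)) := by
    intro z
    have h2 : ∀ x : E n, ENNReal.ofReal (‖g z‖ ^ p * (s⁻¹ ^ n * (1 + ‖x - z‖ / s) ^ (-m))) =
        (‖g z‖ₑ ^ p * ENNReal.ofReal (s⁻¹ ^ n)) *
          (fun v : E n => ENNReal.ofReal ((1 + ‖v‖) ^ (-m))) (s⁻¹ • (x - z)) := by
      intro x
      simp only
      rw [norm_smul, Real.norm_of_nonneg (by positivity), inv_mul_eq_div, ← ofReal_norm,
        ENNReal.ofReal_rpow_of_nonneg (norm_nonneg _) hp.le, ← ENNReal.ofReal_mul (by positivity),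
        ← ENNReal.ofReal_mul (by positivity), mul_assoc]
    rw [lintegral_congr h2, lintegral_const_mul' _ _ (by
      refine ENNReal.mul_ne_top ?_ ENNReal.ofReal_ne_top
      exact ENNReal.rpow_ne_top_of_nonneg hp.le enorm_ne_top),
      lintegral_scale z hs (fun v : E n => ENNReal.ofReal ((1 + ‖v‖) ^ (-m))), mul_assoc,
      ← mul_assoc (ENNReal.ofReal (s⁻¹ ^ n)), ← ENNReal.ofReal_mul (by positivity), ← mul_pow,
      inv_mul_cancel₀ hs.ne', one_pow, ENNReal.ofReal_one, one_mul]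
  rw [lintegral_congr h1, lintegral_mul_const _ (by
    exact (g.continuous.enorm.measurable).pow_const _), mul_comm]

theorem mol_le (p s m : ℝ) (hs : 0 < s) (hm : 0 < m) (hp : 0 < p) (g : 𝓢(E n, ℂ)) (x : E n) :
    mol p s m g x ≤ ENNReal.ofReal (s⁻¹ ^ n) * ∫⁻ z, ‖g z‖ₑ ^ p := by
  unfold mol
  rw [← lintegral_const_mul' _ _ ENNReal.ofReal_ne_top]
  refine lintegral_mono fun z => ?_
  rw [← ofReal_norm, ENNReal.ofReal_rpow_of_nonneg (norm_nonneg _) hp.le,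
    ← ENNReal.ofReal_mul (by positivity)]
  apply ENNReal.ofReal_le_ofReal
  have h1 : (1 + ‖x - z‖ / s) ^ (-m) ≤ 1 := by
    apply Real.rpow_le_one_of_one_le_of_nonpos
    · have : 0 ≤ ‖x - z‖ / s := by positivity
      linarith
    · linarith
  calc ‖g z‖ ^ p * (s⁻¹ ^ n * (1 + ‖x - z‖ / s) ^ (-m)) ≤ ‖g z‖ ^ p * (s⁻¹ ^ n * 1) := by
        gcongr
    _ = _ := by ring

/-- the pointwise estimate behind the lower bounds of the Besov capacity -/
theorem one_le_tsum_mol (φ : 𝓢(E n, ℂ)) (hφ : IsGenerator φ) (p : ℝ) (hp : 0 < p) (hp1 : p ≤ 1) :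
    ∃ C : ℝ, 0 < C ∧ ∀ (u : 𝓢(E n, ℂ)) (x : E n), 1 ≤ ‖u x‖ₑ →
      1 ≤ ENNReal.ofReal C * ∑' j : ℕ, mol p ((2 : ℝ)⁻¹ ^ j) (n + 1) (lpS φ u j) x := by
  set Ψ : 𝓢(E n, ℂ) := 𝓕⁻ (scS (1 / 2) (by norm_num) φ) with hΨ
  obtain ⟨C, hC, h⟩ := peetre (n := n) p hp hp1 (n + 1) (by positivity) Ψ (fun ξ hξ => by
    rw [hΨ, FourierTransform.fourier_fourierInv_eq, scS_apply]
    apply hφ.one
    rw [norm_smul, Real.norm_of_nonneg (by norm_num)]
    linarith)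
  refine ⟨C, hC, fun u x hx => ?_⟩
  have h1 : (1 : ℝ≥0∞) ≤ (∑' j, ‖lpBlock φ u j x‖ₑ) ^ p := by
    rw [← ENNReal.one_rpow p]
    gcongr
    exact hx.trans (enorm_le_tsum_lpBlock φ u hφ x)
  calc (1 : ℝ≥0∞) ≤ (∑' j, ‖lpBlock φ u j x‖ₑ) ^ p := h1
    _ ≤ ∑' j, ‖lpBlock φ u j x‖ₑ ^ p := rpow_tsum_le hp hp1 _
    _ ≤ ∑' j, ENNReal.ofReal C * mol p ((2 : ℝ)⁻¹ ^ j) (n + 1) (lpS φ u j) x := by
        refine ENNReal.tsum_le_tsum fun j => ?_
        have h2 := h ((2 : ℝ)⁻¹ ^ j) (by positivity) (lpS φ u j) (fun ξ hξ => by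
          rw [fourier_lpS, dyad_zero φ hφ j ξ hξ, zero_mul]) x
        rw [coe_lpS, ← ENNReal.ofReal_rpow_of_nonneg (norm_nonneg _) hp.le, ofReal_norm] at h2
        rw [← coe_lpS] at h2 ⊢
        exact h2
    _ = _ := ENNReal.tsum_mul_left

/-- Hausdorff content is controlled by the Besov capacity -/
theorem content_le_besovPow (hn : 1 ≤ n) (α p : ℝ) (hp : 0 < p) (hp1 : p ≤ 1)
    (hαp : α * p < n) (φ : 𝓢(E n, ℂ)) (hφ : IsGenerator φ) :
    ∃ C : ℝ≥0, ∀ (u : 𝓢(E n, ℂ)) (K : Set (E n)), (∀ x ∈ K, 1 ≤ ‖u x‖ₑ) →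
      hausdorffContent (n - α * p) K ≤ C * besovPow φ α p u := by
  obtain ⟨C₁, hC₁, h⟩ := one_le_tsum_mol φ hφ p hp hp1
  set m : ℝ := (n : ℝ) + 1 with hm
  have hm0 : 0 < m := by positivity
  set D : ℝ := (1 + Real.sqrt n) ^ m with hD
  have hD0 : 0 < D := by positivity
  set W : ℝ≥0∞ := ∫⁻ z : E n, ENNReal.ofReal ((1 + ‖z‖) ^ (-m)) with hW
  have hWfin : W ≠ ⊤ := by
    refine (finite_integral_one_add_norm ?_).ne
    rw [finrank_euclideanSpace_fin, hm]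
    linarith
  set C₄ : ℝ≥0 := Real.toNNReal (C₁ * D) with hC₄
  have hC₄0 : 0 < C₄ := by
    rw [hC₄, Real.toNNReal_pos]
    positivity
  set C₅ : ℝ≥0∞ := ENNReal.ofReal (Real.sqrt n ^ ((n : ℝ) - α * p)) *
    (C₄ * (ENNReal.ofReal D * W)) with hC₅
  have hC₅fin : C₅ ≠ ⊤ := by
    refine ENNReal.mul_ne_top ENNReal.ofReal_ne_top (ENNReal.mul_ne_top ENNReal.coe_ne_top ?_)
    exact ENNReal.mul_ne_top ENNReal.ofReal_ne_top hWfin
  refine ⟨C₅.toNNReal, fun u K hK => ?_⟩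
  rw [ENNReal.coe_toNNReal hC₅fin]
  have hsd : ∀ j, sd 1 j = (2 : ℝ)⁻¹ ^ j := by
    intro j
    unfold sd
    rw [inv_pow, one_div]
  set b : ℕ → E n → ℝ≥0∞ := fun j x => ENNReal.ofReal ((2 : ℝ) ^ (j * (α * p))) *
    mol p ((2 : ℝ)⁻¹ ^ j) m (lpS φ u j) (corner (sd 1 j) (cidx (sd 1 j) x)) with hb
  have hbc : ∀ j x y, cidx (sd 1 j) x = cidx (sd 1 j) y → b j x = b j y := by
    intro j x y hxy
    simp only [hb]
    rw [hxy]
  have hdist : ∀ j (x : E n), ‖x - corner (sd 1 j) (cidx (sd 1 j) x)‖ ≤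
      Real.sqrt n * (2 : ℝ)⁻¹ ^ j := by
    intro j x
    have h1 := dist_lt_of_cidx_eq hn (sd_pos one_pos j) (x := x)
      (y := corner (sd 1 j) (cidx (sd 1 j) x)) (cidx_corner (sd_pos one_pos j) _).symm
    rw [dist_eq_norm, hsd] at h1
    rw [hsd]
    exact h1.le
  have hmain := content_of_levels hn (a' := α * p) (d := n - α * p) (by linarith) (by ring)
    (L := 1) one_pos b hbc (fun x => ∑' j, b j x) (fun x => le_rfl) K C₄ hC₄0 (by
      intro x hx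
      refine (h u x (hK x hx)).trans ?_
      have h2 : ∀ j, mol p ((2 : ℝ)⁻¹ ^ j) m (lpS φ u j) x ≤
          ENNReal.ofReal D * (ENNReal.ofReal (sd 1 j ^ (α * p)) * b j x) := by
        intro j
        refine (mol_comparable p _ m (by positivity) hm0 _ x
          (corner (sd 1 j) (cidx (sd 1 j) x)) (Real.sqrt n) (by positivity) (hdist j x)).trans ?_
        refine mul_le_mul_right (le_of_eq ?_) _
        simp only [hb]
        rw [← mul_assoc, ← ENNReal.ofReal_mul (by rw [hsd]; positivity), hsd]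
        have h3 : ((2 : ℝ)⁻¹ ^ j) ^ (α * p) * (2 : ℝ) ^ (j * (α * p)) = 1 := by
          rw [inv_pow, Real.inv_rpow (by positivity), ← Real.rpow_natCast, ← Real.rpow_mul
            (by norm_num)]
          exact inv_mul_cancel₀ (by positivity)
        rw [h3, ENNReal.ofReal_one, one_mul, ← hsd]
      calc _ ≤ ENNReal.ofReal C₁ * ∑' j, ENNReal.ofReal D *
            (ENNReal.ofReal (sd 1 j ^ (α * p)) * b j x) :=
            mul_le_mul_right (ENNReal.tsum_le_tsum h2) _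
        _ = _ := by
            rw [ENNReal.tsum_mul_left, ← mul_assoc, ← ENNReal.ofReal_mul hC₁.le]
            rfl)
  refine hmain.trans ?_
  rw [hC₅]
  have hGint : ∫⁻ x, ∑' j, b j x ≤ ENNReal.ofReal D * W * besovPow φ α p u := by
    rw [lintegral_tsum fun j => (measurable_of_cell (sd_pos one_pos j) (hbc j)).aemeasurable]
    unfold besovPow
    rw [← ENNReal.tsum_mul_left]
    refine ENNReal.tsum_le_tsum fun j => ?_
    simp only [hb]
    rw [lintegral_const_mul' _ _ ENNReal.ofReal_ne_top]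
    have h2 : ∫⁻ x, mol p ((2 : ℝ)⁻¹ ^ j) m (lpS φ u j) (corner (sd 1 j) (cidx (sd 1 j) x)) ≤
        ENNReal.ofReal D * (W * ∫⁻ x, ‖lpBlock φ u j x‖ₑ ^ p) := by
      calc _ ≤ ∫⁻ x, ENNReal.ofReal D * mol p ((2 : ℝ)⁻¹ ^ j) m (lpS φ u j) x := by
            refine lintegral_mono fun x => ?_
            refine mol_comparable p _ m (by positivity) hm0 _ _ x (Real.sqrt n) (by positivity) ?_
            rw [norm_sub_rev]
            exact hdist j x
        _ = _ := by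
            rw [lintegral_const_mul' _ _ ENNReal.ofReal_ne_top,
              lintegral_mol p _ m (by positivity) hp, ← coe_lpS]
    calc _ ≤ ENNReal.ofReal ((2 : ℝ) ^ (j * (α * p))) *
          (ENNReal.ofReal D * (W * ∫⁻ x, ‖lpBlock φ u j x‖ₑ ^ p)) := mul_le_mul_right h2 _
      _ = _ := by ring
  calc _ ≤ ENNReal.ofReal (Real.sqrt n ^ ((n : ℝ) - α * p)) *
        (C₄ * (ENNReal.ofReal D * W * besovPow φ α p u)) := by gcongr
    _ = _ := by ring

/-- for `α p ≥ n` points have positive Besov capacity -/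
theorem one_le_besovPow (α p : ℝ) (hp : 0 < p) (hp1 : p ≤ 1)
    (hαp : (n : ℝ) ≤ α * p) (φ : 𝓢(E n, ℂ)) (hφ : IsGenerator φ) :
    ∃ C : ℝ≥0, ∀ (u : 𝓢(E n, ℂ)) (x : E n), 1 ≤ ‖u x‖ₑ → 1 ≤ C * besovPow φ α p u := by
  obtain ⟨C₁, hC₁, h⟩ := one_le_tsum_mol φ hφ p hp hp1
  refine ⟨Real.toNNReal C₁, fun u x hx => ?_⟩
  refine (h u x hx).trans ?_
  refine mul_le_mul_right ?_ _
  unfold besovPow
  refine ENNReal.tsum_le_tsum fun j => ?_
  refine (mol_le p _ _ (by positivity) (by positivity) hp _ x).trans ?_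
  rw [← coe_lpS]
  gcongr
  rw [inv_pow (2 : ℝ) j, inv_inv, ← Real.rpow_natCast, ← Real.rpow_natCast,
    ← Real.rpow_mul (by norm_num)]
  apply Real.rpow_le_rpow_of_exponent_le (by norm_num)
  gcongr

end Pool.Agent.TH969.BC
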