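import Pool.Agent.TH969.BC.BesovUpper

open MeasureTheory SchwartzMap
open scoped ENNReal NNReal FourierTransform SchwartzMap RealInnerProductSpace

namespace Pool.Agent.TH969.BC

open Pool.Agent.Helper656.Cap

variable {n : ℕ}

theorem besovCap_eq_zero (hn : 1 ≤ n) (α p : ℝ) (hα : 0 < α) (hp : 0 < p) (hp1 : p ≤ 1)
    (hαp : α * p < n) (φ : 𝓢(E n, ℂ)) (hφ : IsGenerator φ) (K : Set (E n)) (hK : IsCompact K)
    (hK0 : hausdorffContent (n - α * p) K = 0) : besovCap φ α p K = 0 := by
  have hαp0 : 0 < α * p := mul_pos hα hp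
  obtain ⟨w, R, δ, hδ, hR0, hw0, hwR, hwim, happ⟩ := exists_approx (n := n) hn (n - α * p) p
    (by linarith) (by linarith) hp hp1
  obtain ⟨C', g, hg, hgs⟩ := exists_lp_family φ w hφ R δ hδ hR0 hw0 hwR p hp (α * p) hαp0
  refine le_antisymm (ENNReal.le_of_forall_pos_le_add fun ε hε _ => ?_) zero_le
  rw [zero_add]
  obtain ⟨T, lam, hlam, hside, hge, hsum⟩ := happ K hK hK0 (ε / (C' + 1)) (by positivity)
  set uS : 𝓢(E n, ℂ) := comb T (fun i => lam i * Cube.side i.2 ^ n) w with huS
  have huval : ∀ y, uS y = ((∑ i ∈ T, lam i *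
      (w ((Cube.side i.2)⁻¹ • (y - Cube.center i.2))).re : ℝ) : ℂ) := by
    intro y
    rw [huS, comb_apply]
    push_cast
    refine Finset.sum_congr rfl fun i _ => ?_
    rw [dil_apply]
    have h1 : ((Cube.side i.2 : ℝ) : ℂ) ≠ 0 := by exact_mod_cast (side_pos i.2).ne'
    have h2 : ((Cube.side i.2 : ℝ) : ℂ) ^ n * (((Cube.side i.2)⁻¹ : ℝ) : ℂ) ^ n = 1 := by
      rw [← mul_pow, Complex.ofReal_inv, mul_inv_cancel₀ h1, one_pow]
    have h3 : w ((Cube.side i.2)⁻¹ • (y - Cube.center i.2)) =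
        (((w ((Cube.side i.2)⁻¹ • (y - Cube.center i.2))).re : ℝ) : ℂ) := by
      apply Complex.ext
      · simp
      · simp [hwim]
    rw [h3]
    calc _ = ((lam i : ℝ) : ℂ) * (((Cube.side i.2 : ℝ) : ℂ) ^ n *
          (((Cube.side i.2)⁻¹ : ℝ) : ℂ) ^ n) *
          (((w ((Cube.side i.2)⁻¹ • (y - Cube.center i.2))).re : ℝ) : ℂ) := by
          push_cast
          ring
      _ = _ := by rw [h2, mul_one]; simp
  have hcompet : (∀ x, (uS x).im = 0) ∧ ∀ x ∈ K, 1 ≤ (uS x).re := by
    refine ⟨fun x => ?_, fun x hx => ?_⟩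
    · rw [huval x, Complex.ofReal_im]
    · rw [huval x, Complex.ofReal_re]
      exact hge x hx
  have hblock : ∀ j : ℕ, ∫⁻ x, ‖lpBlock φ uS j x‖ₑ ^ p ≤
      ∑ i ∈ T, ENNReal.ofReal (lam i ^ p * Cube.side i.2 ^ n) *
        ∫⁻ z, ‖g (Cube.side i.2) j z‖ₑ ^ p := by
    intro j
    have h1 : ∀ x, ‖lpBlock φ uS j x‖ₑ ^ p ≤ ∑ i ∈ T,
        ENNReal.ofReal ((lam i * Cube.side i.2 ^ n) ^ p) *
          ‖dil (Cube.center i.2) (Cube.side i.2) (side_pos i.2) (g (Cube.side i.2) j) x‖ₑ ^ p := by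
      intro x
      rw [huS, comb_congr_fourier T _ w φ j (fun i => g (Cube.side i.2) j)
        (fun i _ ζ => hg (Cube.side i.2) j ζ) x]
      calc _ ≤ (∑ i ∈ T, ‖((lam i * Cube.side i.2 ^ n : ℝ) : ℂ) *
            dil (Cube.center i.2) (Cube.side i.2) (side_pos i.2) (g (Cube.side i.2) j) x‖ₑ) ^ p := by
            gcongr
            exact enorm_sum_le _ _
        _ ≤ ∑ i ∈ T, ‖((lam i * Cube.side i.2 ^ n : ℝ) : ℂ) *
            dil (Cube.center i.2) (Cube.side i.2) (side_pos i.2) (g (Cube.side i.2) j) x‖ₑ ^ p :=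
            rpow_sum_le_sum_rpow' _ _ hp hp1
        _ = _ := by
            refine Finset.sum_congr rfl fun i hi => ?_
            have h2 := hlam i hi
            have h3 := side_pos i.2
            rw [enorm_mul, ENNReal.mul_rpow_of_nonneg _ _ hp.le, ← ofReal_norm
              (((lam i * Cube.side i.2 ^ n : ℝ)) : ℂ), Complex.norm_real,
              Real.norm_of_nonneg (by positivity), ENNReal.ofReal_rpow_of_nonneg
                (by positivity) hp.le]
    refine (lintegral_mono h1).trans ?_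
    rw [lintegral_finsetSum' _ (fun i _ => by
      apply Measurable.aemeasurable
      apply Measurable.const_mul
      exact ((SchwartzMap.continuous _).enorm.measurable).pow_const _)]
    refine Finset.sum_le_sum fun i hi => ?_
    have h2 := hlam i hi
    have h3 := side_pos i.2
    rw [lintegral_const_mul' _ _ ENNReal.ofReal_ne_top, lintegral_dil_rpow _ _ _ hp, ← mul_assoc,
      ← ENNReal.ofReal_mul (by positivity)]
    refine mul_le_mul_left (ENNReal.ofReal_le_ofReal (le_of_eq ?_)) _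
    have h4 : Cube.side i.2 ^ n * ((Cube.side i.2)⁻¹) ^ n = 1 := by
      rw [← mul_pow, mul_inv_cancel₀ h3.ne', one_pow]
    calc (lam i * Cube.side i.2 ^ n) ^ p * ((((Cube.side i.2)⁻¹) ^ n) ^ p * Cube.side i.2 ^ n) =
          ((lam i * Cube.side i.2 ^ n) ^ p * (((Cube.side i.2)⁻¹) ^ n) ^ p) *
            Cube.side i.2 ^ n := by ring
      _ = _ := by
          rw [← Real.mul_rpow (by positivity) (by positivity), mul_assoc, h4, mul_one]
  have hfin : besovPow φ α p uS ≤
      C' * ENNReal.ofReal (∑ i ∈ T, lam i ^ p * Cube.side i.2 ^ ((n : ℝ) - α * p)) := by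
    unfold besovPow
    calc _ ≤ ∑' j : ℕ, ∑ i ∈ T, ENNReal.ofReal (lam i ^ p * Cube.side i.2 ^ n) *
          (ENNReal.ofReal ((2 : ℝ) ^ (j * (α * p))) *
            ∫⁻ z, ‖g (Cube.side i.2) j z‖ₑ ^ p) := by
          refine ENNReal.tsum_le_tsum fun j => ?_
          refine (mul_le_mul_right (hblock j) _).trans (le_of_eq ?_)
          rw [Finset.mul_sum]
          refine Finset.sum_congr rfl fun i _ => ?_
          ring
      _ = ∑ i ∈ T, ENNReal.ofReal (lam i ^ p * Cube.side i.2 ^ n) *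
          ∑' j : ℕ, (ENNReal.ofReal ((2 : ℝ) ^ (j * (α * p))) *
            ∫⁻ z, ‖g (Cube.side i.2) j z‖ₑ ^ p) := by
          rw [Summable.tsum_finsetSum (fun i _ => ENNReal.summable)]
          refine Finset.sum_congr rfl fun i _ => ?_
          rw [ENNReal.tsum_mul_left]
      _ ≤ ∑ i ∈ T, ENNReal.ofReal (lam i ^ p * Cube.side i.2 ^ n) *
          (C' * ENNReal.ofReal (Cube.side i.2 ^ (-(α * p)))) := by
          refine Finset.sum_le_sum fun i hi => ?_
          exact mul_le_mul_right (hgs (Cube.side i.2) (side_pos i.2) (hside i hi)) _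
      _ = ∑ i ∈ T, C' * ENNReal.ofReal (lam i ^ p * Cube.side i.2 ^ ((n : ℝ) - α * p)) := by
          refine Finset.sum_congr rfl fun i hi => ?_
          have h2 := hlam i hi
          have h3 := side_pos i.2
          rw [← mul_assoc, mul_comm _ (C' : ℝ≥0∞), mul_assoc, ← ENNReal.ofReal_mul (by positivity)]
          congr 2
          rw [sub_eq_add_neg, Real.rpow_add h3, Real.rpow_natCast]
          ring
      _ = _ := by
          rw [← Finset.mul_sum, ENNReal.ofReal_sum_of_nonneg]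
          intro i hi
          have h2 := hlam i hi
          have h3 := side_pos i.2
          positivity
  calc besovCap φ α p K ≤ besovPow φ α p uS := iInf₂_le uS hcompet
    _ ≤ C' * ENNReal.ofReal (∑ i ∈ T, lam i ^ p * Cube.side i.2 ^ ((n : ℝ) - α * p)) := hfin
    _ ≤ C' * ENNReal.ofReal (ε / (C' + 1)) := by
        gcongr
    _ = ENNReal.ofReal (C' * (ε / (C' + 1))) := by
        rw [ENNReal.ofReal_mul (NNReal.coe_nonneg C'), ENNReal.ofReal_coe_nnreal]
    _ ≤ ENNReal.ofReal ε := by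
        apply ENNReal.ofReal_le_ofReal
        rw [mul_div_assoc', div_le_iff₀ (by positivity)]
        nlinarith [NNReal.coe_nonneg C', NNReal.coe_nonneg ε]
    _ = ε := ENNReal.ofReal_coe_nnreal

end Pool.Agent.TH969.BC
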