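import Pool.Agent.TH969.BC.BesselChain
import Pool.Agent.Helper656.CapChain

open MeasureTheory SchwartzMap
open scoped ENNReal NNReal FourierTransform SchwartzMap RealInnerProductSpace

namespace Pool.Agent.TH969.BC

open Pool.Agent.Helper656.Cap

variable {n : ℕ}

theorem content_le_hardyPowLoc (hn : 1 ≤ n) (α p : ℝ) (hα : 0 < α) (hp : 0 < p) (hp1 : p ≤ 1)
    (hαp : α * p < n) (N : ℕ) : ∃ C : ℝ≥0, ∀ (f : 𝓢'(E n, ℂ)) (u : E n → ℝ) (K : Set (E n)),
      IsSmoothPotential α f u → (∀ x ∈ K, 1 ≤ u x) →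
      hausdorffContent (n - α * p) K ≤ C * hardyPowLoc N p f := by
  obtain ⟨C₁, hC₁⟩ := bessel_chain (n := n) α hα N
  obtain ⟨C, hC⟩ := content_le_of_chain n hn α p hα hp hp1 hαp C₁
  refine ⟨C, fun f u K hu hK => ?_⟩
  refine hC (grandMaxLoc N f) (measurable_grandMaxLoc N f) K fun x hx => ?_
  obtain ⟨t₀, ht₀, h⟩ := hC₁ f u hu x (hK x hx)
  refine ⟨t₀, ht₀, fun t ht htt => ?_⟩
  obtain ⟨L, -, h1⟩ := h t ht htt
  refine h1.trans ?_
  gcongr
  exact ENNReal.sum_le_tsum _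

theorem annulus_bound (hn : 1 ≤ n) (M : E n → ℝ≥0∞) (p : ℝ) (hp : 0 < p) (x : E n) {s : ℝ}
    (hs : 0 < s) :
    ENNReal.ofReal (s ^ n) * (⨅ y ∈ Metric.ball x s, M y) ^ p *
      (volume (Metric.ball (0 : E n) 1) * (1 / 2)) ≤
      ∫⁻ y in Metric.ball x s \ Metric.ball x (s / 2), M y ^ p := by
  set v := volume (Metric.ball (0 : E n) 1) with hv
  have hvol : ∀ r : ℝ, 0 < r → volume (Metric.ball x r) = ENNReal.ofReal (r ^ n) * v := by
    intro r hr
    rw [Measure.addHaar_ball_of_pos _ _ hr, finrank_euclideanSpace_fin]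
  have hvfin : v ≠ ⊤ := measure_ball_lt_top.ne
  have hA : ENNReal.ofReal (s ^ n) * (v * (1 / 2)) ≤
      volume (Metric.ball x s \ Metric.ball x (s / 2)) := by
    rw [measure_sdiff (Metric.ball_subset_ball (by linarith))
      Metric.isOpen_ball.measurableSet.nullMeasurableSet measure_ball_lt_top.ne,
      hvol s hs, hvol (s / 2) (by positivity)]
    refine ENNReal.le_sub_of_add_le_right (ENNReal.mul_ne_top ENNReal.ofReal_ne_top hvfin) ?_
    have h1 : ENNReal.ofReal ((s / 2) ^ n) ≤ ENNReal.ofReal (s ^ n) * (1 / 2) := by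
      rw [one_div, ← ENNReal.ofReal_ofNat, ← ENNReal.ofReal_inv_of_pos (by norm_num),
        ← ENNReal.ofReal_mul (by positivity)]
      apply ENNReal.ofReal_le_ofReal
      rw [div_pow, div_eq_mul_inv]
      gcongr
      calc (2 : ℝ) = 2 ^ 1 := (pow_one 2).symm
        _ ≤ 2 ^ n := pow_le_pow_right₀ (by norm_num) hn
    calc ENNReal.ofReal (s ^ n) * (v * (1 / 2)) + ENNReal.ofReal ((s / 2) ^ n) * v ≤
          ENNReal.ofReal (s ^ n) * (v * (1 / 2)) + ENNReal.ofReal (s ^ n) * (1 / 2) * v := by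
          gcongr
      _ = ENNReal.ofReal (s ^ n) * v * (1 / 2 + 1 / 2) := by ring
      _ = _ := by rw [ENNReal.add_halves, mul_one]
  calc _ = (⨅ y ∈ Metric.ball x s, M y) ^ p * (ENNReal.ofReal (s ^ n) * (v * (1 / 2))) := by ring
    _ ≤ (⨅ y ∈ Metric.ball x s, M y) ^ p *
        volume (Metric.ball x s \ Metric.ball x (s / 2)) := by gcongr
    _ = ∫⁻ _ in Metric.ball x s \ Metric.ball x (s / 2),
        (⨅ y ∈ Metric.ball x s, M y) ^ p := by rw [setLIntegral_const]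
    _ ≤ _ := by
        refine setLIntegral_mono' (Metric.isOpen_ball.measurableSet.diff
          Metric.isOpen_ball.measurableSet) fun y hy => ?_
        gcongr
        exact iInf₂_le y hy.1

theorem one_le_hardyPowLoc (hn : 1 ≤ n) (α p : ℝ) (hα : 0 < α) (hp : 0 < p) (hp1 : p ≤ 1)
    (hαp : (n : ℝ) ≤ α * p) (N : ℕ) : ∃ C : ℝ≥0, ∀ (f : 𝓢'(E n, ℂ)) (u : E n → ℝ) (x : E n),
      IsSmoothPotential α f u → 1 ≤ u x → 1 ≤ C * hardyPowLoc N p f := by
  obtain ⟨C₁, hC₁⟩ := bessel_chain (n := n) α hα N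
  set v := volume (Metric.ball (0 : E n) 1) with hv
  have hvfin : v ≠ ⊤ := measure_ball_lt_top.ne
  have hv0 : v ≠ 0 := (Metric.measure_ball_pos volume (0 : E n) one_pos).ne'
  set c : ℝ≥0∞ := v * (1 / 2) with hc
  have hcfin : c ≠ ⊤ := ENNReal.mul_ne_top hvfin (by simp)
  have hc0 : c ≠ 0 := mul_ne_zero hv0 (by simp)
  refine ⟨((C₁ : ℝ≥0∞) ^ p * c⁻¹).toNNReal, fun f u x hu hx => ?_⟩
  rw [ENNReal.coe_toNNReal (ENNReal.mul_ne_top (ENNReal.rpow_ne_top_of_nonneg hp.le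
    ENNReal.coe_ne_top) (ENNReal.inv_ne_top.2 hc0))]
  obtain ⟨t₀, ht₀, h⟩ := hC₁ f u hu x hx
  obtain ⟨K, hK1, h1⟩ := h (t₀ / 2) (by positivity) (by linarith)
  set t := t₀ / 2 with ht
  have ht0 : 0 < t := by positivity
  have hs : ∀ k : ℕ, 0 < t * 2 ^ k := fun k => by positivity
  have hs1 : ∀ k ≤ K, t * 2 ^ k ≤ 1 := by
    intro k hk
    refine le_trans ?_ hK1
    gcongr
    norm_num
  set M := grandMaxLoc N f with hM
  set A : ℕ → Set (E n) := fun k => Metric.ball x (t * 2 ^ k) \ Metric.ball x (t * 2 ^ k / 2)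
    with hA
  have hAm : ∀ k, MeasurableSet (A k) := fun k =>
    Metric.isOpen_ball.measurableSet.diff Metric.isOpen_ball.measurableSet
  have hdisj : Pairwise fun i j => Disjoint (A i) (A j) := by
    have key : ∀ i j : ℕ, i < j → Disjoint (A i) (A j) := by
      intro i j hij
      refine Set.disjoint_left.2 fun y hyi hyj => hyj.2 ?_
      refine Metric.ball_subset_ball ?_ hyi.1
      have h3 : (2 : ℝ) ^ i * 2 ≤ 2 ^ j := by
        rw [← pow_succ]
        exact pow_le_pow_right₀ (by norm_num) hij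
      nlinarith
    intro i j hij
    rcases lt_or_gt_of_ne hij with h | h
    · exact key i j h
    · exact (key j i h).symm
  have h2 : (1 : ℝ≥0∞) ≤ C₁ ^ p * ∑ k ∈ Finset.range (K + 1),
      ENNReal.ofReal ((t * 2 ^ k) ^ n) * (⨅ y ∈ Metric.ball x (t * 2 ^ k), M y) ^ p := by
    calc (1 : ℝ≥0∞) = 1 ^ p := (ENNReal.one_rpow p).symm
      _ ≤ (C₁ * ∑ k ∈ Finset.range (K + 1), ENNReal.ofReal ((t * 2 ^ k) ^ α) *
          ⨅ y ∈ Metric.ball x (t * 2 ^ k), M y) ^ p := by gcongr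
      _ = C₁ ^ p * (∑ k ∈ Finset.range (K + 1), ENNReal.ofReal ((t * 2 ^ k) ^ α) *
          ⨅ y ∈ Metric.ball x (t * 2 ^ k), M y) ^ p := ENNReal.mul_rpow_of_nonneg _ _ hp.le
      _ ≤ C₁ ^ p * ∑ k ∈ Finset.range (K + 1), (ENNReal.ofReal ((t * 2 ^ k) ^ α) *
          ⨅ y ∈ Metric.ball x (t * 2 ^ k), M y) ^ p := by
          gcongr
          exact rpow_sum_le_sum_rpow' _ _ hp hp1
      _ ≤ _ := by
          gcongr with k hk
          rw [ENNReal.mul_rpow_of_nonneg _ _ hp.le,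
            ENNReal.ofReal_rpow_of_nonneg (by have := hs k; positivity) hp.le]
          gcongr
          rw [← Real.rpow_mul (hs k).le]
          have h4 := Real.rpow_le_rpow_of_exponent_ge (hs k)
            (hs1 k (Nat.lt_succ_iff.1 (Finset.mem_range.1 hk))) hαp
          rwa [Real.rpow_natCast] at h4
  have h3 : (∑ k ∈ Finset.range (K + 1),
      ENNReal.ofReal ((t * 2 ^ k) ^ n) * (⨅ y ∈ Metric.ball x (t * 2 ^ k), M y) ^ p) * c ≤
      hardyPowLoc N p f := by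
    rw [Finset.sum_mul]
    calc _ ≤ ∑ k ∈ Finset.range (K + 1), ∫⁻ y in A k, M y ^ p :=
          Finset.sum_le_sum fun k _ => annulus_bound hn M p hp x (hs k)
      _ = ∫⁻ y in ⋃ k ∈ Finset.range (K + 1), A k, M y ^ p :=
          (lintegral_biUnion_finset (fun i _ j _ hij => hdisj hij) (fun k _ => hAm k) _).symm
      _ ≤ ∫⁻ y, M y ^ p := setLIntegral_le_lintegral _ _
      _ = _ := rfl
  set S := ∑ k ∈ Finset.range (K + 1),
      ENNReal.ofReal ((t * 2 ^ k) ^ n) * (⨅ y ∈ Metric.ball x (t * 2 ^ k), M y) ^ p with hS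
  calc (1 : ℝ≥0∞) ≤ C₁ ^ p * S := h2
    _ = C₁ ^ p * c⁻¹ * (S * c) := by
        rw [mul_assoc, mul_comm S c, ← mul_assoc c⁻¹, ENNReal.inv_mul_cancel hc0 hcfin, one_mul]
    _ ≤ _ := by gcongr

end Pool.Agent.TH969.BC
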