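import Pool.Agent.TH969.BC.BesovClass2
import Pool.Agent.TH969.BC.BesovLower2
import Pool.Agent.TH969.BC.BesovUpper2
import Pool.Agent.TH969.BC.BesselFinal

open MeasureTheory SchwartzMap
open scoped ENNReal NNReal FourierTransform SchwartzMap RealInnerProductSpace

namespace Pool.Agent.TH969.BC

open Pool.Agent.Helper656.Cap

variable {n : ℕ}

theorem lpS_sub (φ u v : 𝓢(E n, ℂ)) (j : ℕ) : lpS φ (u - v) j = lpS φ u j - lpS φ v j := by
  have hinj : ∀ v w : 𝓢(E n, ℂ), (∀ ξ, 𝓕 v ξ = 𝓕 w ξ) → v = w := by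
    intro v w hvw
    have h1 : (𝓕 v : 𝓢(E n, ℂ)) = 𝓕 w := by
      ext ξ
      exact hvw ξ
    have h2 := congrArg (fun v : 𝓢(E n, ℂ) => 𝓕⁻ v) h1
    simpa only [FourierTransform.fourierInv_fourier_eq] using h2
  have hsub : ∀ f g : 𝓢(E n, ℂ), 𝓕 (f - g) = 𝓕 f - 𝓕 g := fun f g =>
    map_sub (FourierTransform.fourierCLM ℂ 𝓢(E n, ℂ)) f g
  apply hinj
  intro ξ
  rw [fourier_lpS, hsub, hsub, sub_apply, sub_apply, fourier_lpS, fourier_lpS]
  ring

theorem besovPow_sub (φ : 𝓢(E n, ℂ)) (α p : ℝ) (hp : 0 < p) (hp1 : p ≤ 1) (u v : 𝓢(E n, ℂ)) :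
    besovPow φ α p (u - v) ≤ besovPow φ α p u + besovPow φ α p v := by
  unfold besovPow
  rw [← ENNReal.tsum_add]
  refine ENNReal.tsum_le_tsum fun j => ?_
  rw [← mul_add, ← coe_lpS, ← coe_lpS, ← coe_lpS, lpS_sub]
  refine mul_le_mul_right ?_ _
  rw [← lintegral_add_left (((lpS φ u j).continuous.enorm.measurable).pow_const _)]
  refine lintegral_mono fun x => ?_
  rw [sub_apply]
  calc ‖lpS φ u j x - lpS φ v j x‖ₑ ^ p ≤ (‖lpS φ u j x‖ₑ + ‖lpS φ v j x‖ₑ) ^ p := by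
        gcongr
        exact enorm_sub_le
    _ ≤ _ := ENNReal.rpow_add_le_add_rpow _ _ hp.le hp1

theorem besovCapOn_eq_zero (D : Set 𝓢(E n, ℂ)) (hD : ∀ u : 𝓢(E n, ℂ), HasCompactSupport u → u ∈ D)
    (φ : 𝓢(E n, ℂ)) (hφ : IsGenerator φ) (α p : ℝ) (hp : 0 < p) (hp1 : p ≤ 1) (K : Set (E n))
    (hK : IsCompact K) (h : besovCap φ α p K = 0) : besovCapOn D φ α p K = 0 := by
  obtain ⟨N, C, hC⟩ := besovPow_le_PN φ hφ α p hp
  refine le_antisymm (ENNReal.le_of_forall_pos_le_add fun ε hε _ => ?_) zero_le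
  rw [zero_add]
  have hε2 : (0 : ℝ≥0∞) < (ε / 2 : ℝ≥0) := by
    rw [ENNReal.coe_pos]
    positivity
  rw [← h] at hε2
  unfold besovCap at hε2
  rw [iInf_lt_iff] at hε2
  obtain ⟨u, hε2⟩ := hε2
  rw [iInf_lt_iff] at hε2
  obtain ⟨⟨hre, hge⟩, hlt⟩ := hε2
  obtain ⟨N', C', hC'0, hC'⟩ : ∃ (N' : ℕ) (C' : ℝ), 0 ≤ C' ∧ ∀ (δ : ℝ) (hδ : 0 < δ), δ ≤ 1 →
      PN N (u - mulS (scS δ hδ bmp) u) ≤ C' * δ := by
    choose Dk hDk0 hDk using seminorm_cut u
    refine ⟨0, ∑ i ∈ Finset.range (N + 1) ×ˢ Finset.range (N + 1), Dk i.1 i.2,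
      Finset.sum_nonneg fun i _ => hDk0 _ _, fun δ hδ hδ1 => ?_⟩
    unfold PN
    rw [Finset.sum_mul]
    exact Finset.sum_le_sum fun i _ => hDk i.1 i.2 δ hδ hδ1
  obtain ⟨B, hB⟩ := hK.isBounded.subset_closedBall (0 : E n)
  -- choice of the cut off
  have hlim : Filter.Tendsto (fun δ : ℝ => (C : ℝ≥0∞) * ENNReal.ofReal ((C' * δ) ^ p))
      (nhdsWithin 0 (Set.Ioi 0)) (nhds ((C : ℝ≥0∞) * ENNReal.ofReal ((C' * 0) ^ p))) := by
    refine Filter.Tendsto.mono_left ?_ nhdsWithin_le_nhds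
    refine ENNReal.Tendsto.const_mul ?_ (Or.inr ENNReal.coe_ne_top)
    refine ENNReal.tendsto_ofReal ?_
    have h1 : Continuous fun δ : ℝ => (C' * δ) ^ p :=
      (continuous_const.mul continuous_id).rpow_const fun _ => Or.inr hp.le
    exact h1.tendsto 0
  rw [mul_zero, Real.zero_rpow hp.ne', ENNReal.ofReal_zero, mul_zero] at hlim
  have hε3 : (0 : ℝ≥0∞) < (ε / 2 : ℝ≥0) := by
    rw [ENNReal.coe_pos]
    positivity
  have hev := hlim.eventually_lt_const hε3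
  have hev2 : ∀ᶠ δ in nhdsWithin (0 : ℝ) (Set.Ioi 0), δ < min 1 (1 / (|B| + 1)) := by
    refine Filter.Eventually.filter_mono nhdsWithin_le_nhds ?_
    exact (continuous_id.tendsto (0 : ℝ)).eventually_lt_const (by positivity)
  have hev3 : ∀ᶠ δ in nhdsWithin (0 : ℝ) (Set.Ioi 0), 0 < δ := eventually_mem_nhdsWithin
  obtain ⟨δ, ⟨h1, h2⟩, hδ⟩ := ((hev.and hev2).and hev3).exists
  have hδ1 : δ ≤ 1 := (h2.trans_le (min_le_left _ _)).le
  have hδB : δ * |B| ≤ 1 := by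
    have h3 := h2.trans_le (min_le_right _ _)
    rw [lt_div_iff₀ (by positivity)] at h3
    nlinarith [abs_nonneg B]
  set w : 𝓢(E n, ℂ) := mulS (scS δ hδ bmp) u with hw
  have hwval : ∀ x, w x = ((beta (δ * ‖x‖) : ℝ) : ℂ) * u x := by
    intro x
    rw [hw, mulS_apply, scS_apply, bmp_apply, norm_smul, Real.norm_of_nonneg hδ.le]
  have hwD : w ∈ D := by
    apply hD
    refine HasCompactSupport.intro (isCompact_closedBall (0 : E n) (2 / δ)) fun y hy => ?_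
    rw [Metric.mem_closedBall, dist_zero_right, not_le, div_lt_iff₀ hδ] at hy
    rw [hwval, beta_eq_zero (by nlinarith)]
    simp
  have hwc : w ∈ D ∧ (∀ x, (w x).im = 0) ∧ ∀ x ∈ K, 1 ≤ (w x).re := by
    refine ⟨hwD, fun x => ?_, fun x hx => ?_⟩
    · rw [hwval, Complex.im_ofReal_mul, hre, mul_zero]
    · have h3 := hB hx
      rw [Metric.mem_closedBall, dist_zero_right] at h3
      rw [hwval, beta_eq_one]
      · simpa using hge x hx
      · rw [abs_of_nonneg (by positivity)]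
        calc δ * ‖x‖ ≤ δ * |B| := by
              gcongr
              exact h3.trans (le_abs_self B)
          _ ≤ 1 := hδB
  have hfin : besovPow φ α p w ≤ besovPow φ α p u + besovPow φ α p (u - w) := by
    have h3 : w = u - (u - w) := by abel
    conv_lhs => rw [h3]
    exact besovPow_sub φ α p hp hp1 u (u - w)
  calc besovCapOn D φ α p K ≤ besovPow φ α p w := iInf₂_le w hwc
    _ ≤ besovPow φ α p u + besovPow φ α p (u - w) := hfin
    _ ≤ (ε / 2 : ℝ≥0) + (ε / 2 : ℝ≥0) := by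
        gcongr
        refine (hC (u - w)).trans ?_
        refine le_trans ?_ h1.le
        gcongr
        · exact PN_nonneg _ _
        · exact hC' δ hδ hδ1
    _ = ε := by
        rw [← ENNReal.coe_add]
        simp

end Pool.Agent.TH969.BC
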