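import Pool.Agent.TH969.BC.BesselUpper

open MeasureTheory SchwartzMap
open scoped ENNReal NNReal FourierTransform SchwartzMap RealInnerProductSpace

namespace Pool.Agent.TH969.BC

open Pool.Agent.Helper656.Cap

variable {n : ℕ}

/-- a cut off equal to one on the unit ball around `x` -/
noncomputable def cutS (x : E n) : 𝓢(E n, ℂ) := (bmp : 𝓢(E n, ℂ)).compSubConstCLM ℂ x

theorem cutS_apply (x y : E n) : cutS x y = ((beta ‖y - x‖ : ℝ) : ℂ) := by
  rw [cutS, compSubConstCLM_apply, bmp_apply]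

theorem cutS_one (x y : E n) (h : ‖y - x‖ ≤ 1) : cutS x y = 1 := by
  rw [cutS_apply, beta_eq_one (by rwa [abs_of_nonneg (norm_nonneg _)]), Complex.ofReal_one]

theorem hasCompactSupport_cutS (x : E n) : HasCompactSupport (cutS x) := by
  refine HasCompactSupport.intro (isCompact_closedBall x 2) fun y hy => ?_
  rw [Metric.mem_closedBall, dist_eq_norm, not_le] at hy
  rw [cutS_apply, beta_eq_zero (by nlinarith), Complex.ofReal_zero]

theorem norm_iteratedFDeriv_one_sub (χ : 𝓢(E n, ℂ)) (i : ℕ) (y : E n) :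
    ‖iteratedFDeriv ℝ i (fun y => 1 - χ y) y‖ ≤ 1 + SchwartzMap.seminorm ℝ 0 i χ := by
  have h1 : ‖iteratedFDeriv ℝ i χ y‖ ≤ SchwartzMap.seminorm ℝ 0 i χ := by
    have := le_seminorm ℝ 0 i χ y
    rwa [pow_zero, one_mul] at this
  have h2 : ‖iteratedFDeriv ℝ i (fun _ : E n => (1 : ℂ)) y‖ ≤ 1 := by
    rcases eq_or_ne i 0 with rfl | hi
    · rw [norm_iteratedFDeriv_zero]
      simp
    · rw [iteratedFDeriv_const_of_ne hi]
      simp
  have h3 : iteratedFDeriv ℝ i (fun y => 1 - χ y) y =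
      iteratedFDeriv ℝ i (fun _ : E n => (1 : ℂ)) y - iteratedFDeriv ℝ i χ y := by
    have := iteratedFDeriv_sub_apply (𝕜 := ℝ) (i := i) (f := fun _ : E n => (1 : ℂ))
      (g := (χ : E n → ℂ)) (x := y) contDiffAt_const ((χ.smooth i).contDiffAt)
    exact this
  rw [h3]
  exact (norm_sub_le _ _).trans (by linarith)

/-- the part of `ψ((· - x)/t) t^{-n}` away from `x` -/
noncomputable def farPart (x : E n) (t : ℝ) (ht : 0 < t) (ψ : 𝓢(E n, ℂ)) : 𝓢(E n, ℂ) :=
  dil x t ht ψ - SchwartzMap.pairing (ContinuousLinearMap.mul ℂ ℂ) (cutS x) (dil x t ht ψ)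

theorem farPart_apply (x : E n) (t : ℝ) (ht : 0 < t) (ψ : 𝓢(E n, ℂ)) (y : E n) :
    farPart x t ht ψ y = (1 - cutS x y) * dil x t ht ψ y := by
  rw [farPart, sub_apply, SchwartzMap.pairing_apply_apply]
  simp
  ring

theorem seminorm_farPart (x : E n) (ψ : 𝓢(E n, ℂ)) (k l : ℕ) : ∃ C : ℝ, 0 ≤ C ∧
    ∀ (t : ℝ) (ht : 0 < t), t ≤ 1 → SchwartzMap.seminorm ℝ k l (farPart x t ht ψ) ≤ C * t := by
  set N : ℕ := k + n + l + 1 with hN
  obtain ⟨C1, hC1, hA⟩ := exists_adaptedC (n := n) N ψ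
  set C : ℝ := ∑ i ∈ Finset.range (l + 1), (l.choose i : ℝ) *
    (1 + SchwartzMap.seminorm ℝ 0 i (cutS x)) * ((1 + ‖x‖) ^ k * C1) with hC
  have hC0 : 0 ≤ C := Finset.sum_nonneg fun i _ => by positivity
  refine ⟨C, hC0, fun t ht ht1 => ?_⟩
  refine SchwartzMap.seminorm_le_bound ℝ k l _ (by positivity) fun y => ?_
  have hfun : (farPart x t ht ψ : E n → ℂ) = fun y => (1 - cutS x y) * dil x t ht ψ y :=
    funext (farPart_apply x t ht ψ)
  rcases lt_or_ge ‖y - x‖ 1 with hy | hy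
  · have h1 : (farPart x t ht ψ : E n → ℂ) =ᶠ[nhds y] fun _ => 0 := by
      have h2 : ∀ᶠ z in nhds y, z ∈ Metric.ball x 1 :=
        Metric.isOpen_ball.mem_nhds (by rwa [Metric.mem_ball, dist_eq_norm])
      filter_upwards [h2] with z hz
      rw [Metric.mem_ball, dist_eq_norm] at hz
      rw [farPart_apply, cutS_one x z hz.le, sub_self, zero_mul]
    have h3 : iteratedFDeriv ℝ l (farPart x t ht ψ) y = 0 := by
      have h4 := (h1.iteratedFDeriv ℝ l).eq_of_nhds
      rw [h4]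
      simp
    rw [h3, norm_zero, mul_zero]
    positivity
  · rw [hfun]
    have h1 := norm_iteratedFDeriv_mul_le (𝕜 := ℝ) (N := l) (n := l) (f := fun y => 1 - cutS x y)
      (g := (dil x t ht ψ : E n → ℂ))
      (contDiff_const.sub ((cutS x).smooth l)) ((dil x t ht ψ).smooth l) y le_rfl
    have hyy : ‖y‖ ≤ (1 + ‖x‖) * ‖y - x‖ := by
      have h2 : ‖y‖ ≤ ‖y - x‖ + ‖x‖ := by
        calc ‖y‖ = ‖(y - x) + x‖ := by congr 1; abel
          _ ≤ _ := norm_add_le _ _
      nlinarith [norm_nonneg x]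
    have hterm : ∀ j ≤ l, ‖y‖ ^ k * ‖iteratedFDeriv ℝ j (dil x t ht ψ) y‖ ≤
        (1 + ‖x‖) ^ k * C1 * t := by
      intro j hj
      have h2 := (hA.dil x ht) N le_rfl j (by omega) y
      set D := ‖iteratedFDeriv ℝ j (dil x t ht ψ) y‖ with hD
      have hD0 : 0 ≤ D := norm_nonneg _
      have h3 : ‖y - x‖ ^ N * D ≤ C1 * t := by
        have h4 : (‖y - x‖ / t) ^ N * (t ^ (n + j) * D) = ‖y - x‖ ^ N * D / t ^ (N - (n + j)) := by
          rw [div_pow]
          have h5 : t ^ N = t ^ (N - (n + j)) * t ^ (n + j) := by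
            rw [← pow_add]
            congr 1
            omega
          rw [h5]
          field_simp
        rw [h4, div_le_iff₀ (by positivity)] at h2
        refine h2.trans ?_
        gcongr
        calc t ^ (N - (n + j)) ≤ t ^ 1 := pow_le_pow_of_le_one ht.le ht1 (by omega)
          _ = t := pow_one t
      calc ‖y‖ ^ k * D ≤ ((1 + ‖x‖) * ‖y - x‖) ^ k * D := by gcongr
        _ = (1 + ‖x‖) ^ k * (‖y - x‖ ^ k * D) := by rw [mul_pow]; ring
        _ ≤ (1 + ‖x‖) ^ k * (‖y - x‖ ^ N * D) := by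
            have h5 : ‖y - x‖ ^ k ≤ ‖y - x‖ ^ N := pow_le_pow_right₀ hy (by omega)
            gcongr
        _ ≤ (1 + ‖x‖) ^ k * (C1 * t) := by gcongr
        _ = _ := by ring
    calc ‖y‖ ^ k * ‖iteratedFDeriv ℝ l (fun y => (1 - cutS x y) * dil x t ht ψ y) y‖
        ≤ ‖y‖ ^ k * ∑ i ∈ Finset.range (l + 1), (l.choose i : ℝ) *
            ‖iteratedFDeriv ℝ i (fun y => 1 - cutS x y) y‖ *
            ‖iteratedFDeriv ℝ (l - i) (dil x t ht ψ) y‖ := by gcongr
      _ = ∑ i ∈ Finset.range (l + 1), (l.choose i : ℝ) *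
            ‖iteratedFDeriv ℝ i (fun y => 1 - cutS x y) y‖ *
            (‖y‖ ^ k * ‖iteratedFDeriv ℝ (l - i) (dil x t ht ψ) y‖) := by
          rw [Finset.mul_sum]
          refine Finset.sum_congr rfl fun i _ => ?_
          ring
      _ ≤ ∑ i ∈ Finset.range (l + 1), (l.choose i : ℝ) *
            (1 + SchwartzMap.seminorm ℝ 0 i (cutS x)) * ((1 + ‖x‖) ^ k * C1 * t) := by
          refine Finset.sum_le_sum fun i _ => ?_
          have h6 := norm_iteratedFDeriv_one_sub (cutS x) i y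
          have h7 := hterm (l - i) (Nat.sub_le _ _)
          gcongr
      _ = C * t := by
          rw [hC, Finset.sum_mul]
          refine Finset.sum_congr rfl fun i _ => ?_
          ring

/-- tempered distributions are bounded by finitely many seminorms -/
theorem dist_bound (U : 𝓢'(E n, ℂ)) : ∃ (s : Finset (ℕ × ℕ)) (C : ℝ), 0 ≤ C ∧
    ∀ f : 𝓢(E n, ℂ), ‖U f‖ ≤ C * ∑ i ∈ s, SchwartzMap.seminorm ℝ i.1 i.2 f := by
  have hU : Continuous (fun f : 𝓢(E n, ℂ) => U f) := map_continuous U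
  set q : Seminorm ℝ 𝓢(E n, ℂ) := (normSeminorm ℝ ℂ).comp
    ({ toFun := fun f => U f
       map_add' := fun f g => map_add U f g
       map_smul' := fun c f => by
        simp only [RingHom.id_apply]
        have h1 : c • f = ((c : ℂ)) • f := by
          ext y
          simp
        rw [h1, map_smul]
        simp } : 𝓢(E n, ℂ) →ₗ[ℝ] ℂ) with hq
  have hqc : Continuous q := by
    exact hU.norm
  obtain ⟨s, C, hC, h⟩ := Seminorm.bound_of_continuous (schwartz_withSeminorms ℝ (E n) ℂ) _ hqc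
  refine ⟨s, C, C.2, fun f => ?_⟩
  have h1 := h f
  refine le_trans h1 ?_
  have h2 : s.sup (schwartzSeminormFamily ℝ (E n) ℂ) ≤
      ∑ i ∈ s, schwartzSeminormFamily ℝ (E n) ℂ i := Seminorm.finset_sup_le_sum _ _
  have h3 := h2 f
  rw [_root_.smul_apply]
  have h4 : (∑ i ∈ s, schwartzSeminormFamily ℝ (E n) ℂ i) f =
      ∑ i ∈ s, SchwartzMap.seminorm ℝ i.1 i.2 f := by
    rw [_root_.sum_apply]
    rfl
  rw [h4] at h3
  exact mul_le_mul_of_nonneg_left h3 C.2

theorem integral_fourier_bmp : ∫ z : E n, (𝓕 (bmp : 𝓢(E n, ℂ))) z = 1 := by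
  have h1 : 𝓕⁻ (𝓕 (bmp : 𝓢(E n, ℂ))) (0 : E n) = 1 := by
    rw [FourierTransform.fourierInv_fourier_eq, bmp_apply, norm_zero, beta_eq_one (by simp)]
    simp
  rw [SchwartzMap.fourierInv_coe, Real.fourierInv_eq'] at h1
  simpa using h1

/-- a tempered distribution which is a continuous function near `x` -/
theorem local_limit (U : 𝓢'(E n, ℂ)) (u : E n → ℝ) (hu : Continuous u)
    (hU : ∀ φ : 𝓢(E n, ℂ), HasCompactSupport φ → U φ = ∫ x, ((u x : ℝ) : ℂ) * φ x) (x : E n)
    (hx : 1 ≤ u x) : ∃ t₀ : ℝ, 0 < t₀ ∧ ∀ (t : ℝ) (ht : 0 < t), t < t₀ →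
      1 / 2 ≤ ‖U (dil x t ht (𝓕 (bmp : 𝓢(E n, ℂ))))‖ := by
  set ψ : 𝓢(E n, ℂ) := 𝓕 (bmp : 𝓢(E n, ℂ)) with hψ
  -- the far part
  obtain ⟨C, hC0, hfar⟩ : ∃ C : ℝ, 0 ≤ C ∧ ∀ (t : ℝ) (ht : 0 < t), t ≤ 1 →
      ‖U (farPart x t ht ψ)‖ ≤ C * t := by
    obtain ⟨s, C, hC, hb⟩ := dist_bound U
    choose D hD0 hD using seminorm_farPart x ψ
    refine ⟨C * ∑ i ∈ s, D i.1 i.2, mul_nonneg hC (Finset.sum_nonneg fun i _ => hD0 _ _),
      fun t ht ht1 => ?_⟩
    refine (hb _).trans ?_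
    rw [mul_assoc, Finset.sum_mul]
    gcongr with i hi
    exact hD i.1 i.2 t ht ht1
  -- the near part
  set v : E n → ℂ := fun y => ((u y : ℝ) : ℂ) * cutS x y with hv
  have hvc : Continuous v := by
    have := (cutS x).continuous
    fun_prop
  obtain ⟨B, hB⟩ : ∃ B : ℝ, ∀ y, ‖v y‖ ≤ B := by
    have hcs : HasCompactSupport v := (hasCompactSupport_cutS x).mul_left
    exact hcs.exists_bound_of_continuous hvc
  have hnear : Filter.Tendsto (fun t : ℝ => ∫ z, v (x + t • z) * ψ z) (nhdsWithin 0 (Set.Ioi 0))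
      (nhds (v x * 1)) := by
    have h1 : v x * 1 = ∫ z, v x * ψ z := by
      rw [integral_const_mul, integral_fourier_bmp]
    rw [h1]
    refine tendsto_integral_filter_of_dominated_convergence (fun z => B * ‖ψ z‖)
      (Filter.Eventually.of_forall fun t => ?_) (Filter.Eventually.of_forall fun t =>
        Filter.Eventually.of_forall fun z => ?_) (ψ.integrable.norm.const_mul B)
      (Filter.Eventually.of_forall fun z => ?_)
    · apply Continuous.aestronglyMeasurable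
      have := ψ.continuous
      fun_prop
    · rw [norm_mul]
      gcongr
      exact hB _
    · refine Filter.Tendsto.mul_const _ ?_
      have h2 : Filter.Tendsto (fun t : ℝ => v (x + t • z)) (nhds 0) (nhds (v (x + (0 : ℝ) • z))) :=
        Continuous.tendsto (by fun_prop) 0
      rw [zero_smul, add_zero] at h2
      exact h2.mono_left nhdsWithin_le_nhds
  have hvx : (1 : ℝ) ≤ ‖v x * 1‖ := by
    rw [mul_one, hv]
    simp only
    rw [cutS_one x x (by simp), mul_one, Complex.norm_real]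
    exact hx.trans (le_abs_self _)
  have hev : ∀ᶠ t in nhdsWithin (0 : ℝ) (Set.Ioi 0), 3 / 4 < ‖∫ z, v (x + t • z) * ψ z‖ :=
    hnear.norm.eventually_const_lt (by linarith)
  rw [eventually_nhdsWithin_iff, Metric.eventually_nhds_iff] at hev
  obtain ⟨ε, hε, hev⟩ := hev
  refine ⟨min ε (min 1 (1 / (4 * (C + 1)))), by positivity, fun t ht htt => ?_⟩
  have ht1 : t < ε := htt.trans_le (min_le_left _ _)
  have ht2 : t < 1 := htt.trans_le ((min_le_right _ _).trans (min_le_left _ _))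
  have ht3 : t < 1 / (4 * (C + 1)) := htt.trans_le ((min_le_right _ _).trans (min_le_right _ _))
  have h1 := hev (y := t) (by rw [Real.dist_eq, sub_zero, abs_of_pos ht]; exact ht1) ht
  have h2 := hfar t ht ht2.le
  have h3 : C * t ≤ 1 / 4 := by
    rw [lt_div_iff₀ (by positivity)] at ht3
    nlinarith
  have h4 : dil x t ht ψ = SchwartzMap.pairing (ContinuousLinearMap.mul ℂ ℂ) (cutS x)
      (dil x t ht ψ) + farPart x t ht ψ := by
    rw [farPart]
    abel
  have h5 : U (SchwartzMap.pairing (ContinuousLinearMap.mul ℂ ℂ) (cutS x) (dil x t ht ψ)) =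
      ∫ z, v (x + t • z) * ψ z := by
    rw [hU, ← integral_mul_dil x ht ψ v]
    · refine integral_congr_ae (Filter.Eventually.of_forall fun y => ?_)
      simp only [hv]
      rw [SchwartzMap.pairing_apply_apply]
      simp
      ring
    · have h6 : ((SchwartzMap.pairing (ContinuousLinearMap.mul ℂ ℂ) (cutS x)
          (dil x t ht ψ) : 𝓢(E n, ℂ)) : E n → ℂ) = fun y => cutS x y * dil x t ht ψ y := by
        ext y
        rw [SchwartzMap.pairing_apply_apply]
        simp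
      rw [h6]
      exact (hasCompactSupport_cutS x).mul_right
  have h6 : ‖U (SchwartzMap.pairing (ContinuousLinearMap.mul ℂ ℂ) (cutS x) (dil x t ht ψ))‖ ≤
      ‖U (dil x t ht ψ)‖ + ‖U (farPart x t ht ψ)‖ := by
    have h7 : SchwartzMap.pairing (ContinuousLinearMap.mul ℂ ℂ) (cutS x) (dil x t ht ψ) =
        dil x t ht ψ - farPart x t ht ψ := by
      rw [farPart]
      abel
    rw [h7, map_sub]
    exact norm_sub_le _ _
  rw [h5] at h6
  linarith

end Pool.Agent.TH969.BC
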