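import Pool.Agent.TH969.BC.BesovLower
import Pool.Agent.TH969.BC.LocalLimit

/-! The Besov quasi-norm of a Schwartz function is controlled by Schwartz seminorms; approximation
by compactly supported functions. -/

open MeasureTheory SchwartzMap
open scoped ENNReal NNReal FourierTransform SchwartzMap RealInnerProductSpace

namespace Pool.Agent.TH969.BC

open Pool.Agent.Helper656.Cap

variable {n : ℕ}

theorem norm_iteratedFDeriv_scS (r : ℝ) (hr : 0 < r) (φ : 𝓢(E n, ℂ)) (l : ℕ) (y : E n) :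
    ‖iteratedFDeriv ℝ l (scS r hr φ) y‖ = r ^ l * ‖iteratedFDeriv ℝ l φ (r • y)‖ := by
  rw [scS, iteratedFDeriv_smul_schwartz, norm_iteratedFDeriv_pull, Complex.norm_real,
    Real.norm_of_nonneg (by positivity), zero_add, pow_add]
  field_simp

/-- multiplication of Schwartz functions -/
noncomputable def mulS (f g : 𝓢(E n, ℂ)) : 𝓢(E n, ℂ) :=
  SchwartzMap.pairing (ContinuousLinearMap.mul ℂ ℂ) f g

theorem mulS_apply (f g : 𝓢(E n, ℂ)) (y : E n) : mulS f g y = f y * g y := by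
  rw [mulS, SchwartzMap.pairing_apply_apply]
  rfl

theorem seminorm_mulS_scS (θ : 𝓢(E n, ℂ)) (k l : ℕ) : ∃ C : ℝ, 0 ≤ C ∧
    ∀ (b : ℝ) (hb : 0 < b), b ≤ 1 → ∀ h : 𝓢(E n, ℂ),
      SchwartzMap.seminorm ℝ k l (mulS (scS b hb θ) h) ≤
        C * ∑ i ∈ Finset.range (l + 1), SchwartzMap.seminorm ℝ k i h := by
  set C : ℝ := ∑ i ∈ Finset.range (l + 1), (l.choose i : ℝ) * SchwartzMap.seminorm ℝ 0 i θ with hC
  have hC0 : 0 ≤ C := Finset.sum_nonneg fun i _ => by positivity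
  refine ⟨C, hC0, fun b hb hb1 h => ?_⟩
  set S : ℝ := ∑ i ∈ Finset.range (l + 1), SchwartzMap.seminorm ℝ k i h with hS
  have hS0 : 0 ≤ S := Finset.sum_nonneg fun i _ => by positivity
  refine SchwartzMap.seminorm_le_bound ℝ k l _ (by positivity) fun y => ?_
  have hfun : (mulS (scS b hb θ) h : E n → ℂ) = fun y => scS b hb θ y * h y :=
    funext (mulS_apply _ _)
  rw [hfun]
  have h1 := norm_iteratedFDeriv_mul_le (𝕜 := ℝ) (N := l) (n := l)
    (f := (scS b hb θ : E n → ℂ)) (g := (h : E n → ℂ))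
    ((scS b hb θ).smooth l) (h.smooth l) y le_rfl
  calc ‖y‖ ^ k * ‖iteratedFDeriv ℝ l (fun y => scS b hb θ y * h y) y‖
      ≤ ‖y‖ ^ k * ∑ i ∈ Finset.range (l + 1), (l.choose i : ℝ) *
          ‖iteratedFDeriv ℝ i (scS b hb θ) y‖ * ‖iteratedFDeriv ℝ (l - i) h y‖ := by gcongr
    _ = ∑ i ∈ Finset.range (l + 1), (l.choose i : ℝ) *
          ‖iteratedFDeriv ℝ i (scS b hb θ) y‖ * (‖y‖ ^ k * ‖iteratedFDeriv ℝ (l - i) h y‖) := by
        rw [Finset.mul_sum]
        refine Finset.sum_congr rfl fun i _ => ?_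
        ring
    _ ≤ ∑ i ∈ Finset.range (l + 1), (l.choose i : ℝ) * SchwartzMap.seminorm ℝ 0 i θ * S := by
        refine Finset.sum_le_sum fun i _ => ?_
        have h2 : ‖iteratedFDeriv ℝ i (scS b hb θ) y‖ ≤ SchwartzMap.seminorm ℝ 0 i θ := by
          rw [norm_iteratedFDeriv_scS]
          have h3 := le_seminorm ℝ 0 i θ (b • y)
          rw [pow_zero, one_mul] at h3
          have h4 : b ^ i ≤ 1 := pow_le_one₀ hb.le hb1
          calc b ^ i * ‖iteratedFDeriv ℝ i θ (b • y)‖ ≤ 1 * ‖iteratedFDeriv ℝ i θ (b • y)‖ := by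
                gcongr
            _ ≤ _ := by rw [one_mul]; exact h3
        have h5 : ‖y‖ ^ k * ‖iteratedFDeriv ℝ (l - i) h y‖ ≤ S := by
          refine (le_seminorm ℝ k (l - i) h y).trans ?_
          exact Finset.single_le_sum (f := fun i => SchwartzMap.seminorm ℝ k i h)
            (fun _ _ => by positivity) (Finset.mem_range.2 (by omega))
        gcongr
    _ = C * S := by rw [hC, Finset.sum_mul]

theorem lintegral_rpow_le' (p : ℝ) (hp : 0 < p) : ∃ (m : ℕ) (C : ℝ≥0), ∀ g : 𝓢(E n, ℂ),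
    ∫⁻ z, ‖g z‖ₑ ^ p ≤ C * ENNReal.ofReal
      ((SchwartzMap.seminorm ℝ 0 0 g + SchwartzMap.seminorm ℝ m 0 g) ^ p) := by
  obtain ⟨m, hm⟩ := exists_nat_gt ((n : ℝ) / p)
  have hmp : (n : ℝ) < m * p := by rwa [div_lt_iff₀ hp] at hm
  set J : ℝ≥0∞ := ∫⁻ z : E n, ENNReal.ofReal ((1 + ‖z‖) ^ (-((m : ℝ) * p))) with hJ
  have hJfin : J < ⊤ := finite_integral_one_add_norm (by rw [finrank_euclideanSpace_fin]; exact hmp)
  have hfin : ENNReal.ofReal ((2 ^ m) ^ p) * J ≠ ⊤ :=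
    ENNReal.mul_ne_top ENNReal.ofReal_ne_top hJfin.ne
  refine ⟨m, (ENNReal.ofReal ((2 ^ m) ^ p) * J).toNNReal, fun g => ?_⟩
  set A : ℝ := SchwartzMap.seminorm ℝ 0 0 g + SchwartzMap.seminorm ℝ m 0 g with hA
  have hA0 : 0 ≤ A := by positivity
  rw [ENNReal.coe_toNNReal hfin, mul_right_comm, ← ENNReal.ofReal_mul (by positivity), hJ,
    ← lintegral_const_mul' _ _ ENNReal.ofReal_ne_top]
  refine lintegral_mono fun z => ?_
  have h2 : (1 + ‖z‖) ^ m * ‖g z‖ ≤ 2 ^ m * A := decay_of_seminorm g m z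
  have h3 : ‖g z‖ ≤ (2 ^ m * A) * ((1 + ‖z‖) ^ m)⁻¹ := by
    rw [← div_eq_mul_inv, le_div_iff₀ (by positivity), mul_comm]
    exact h2
  rw [← ofReal_norm, ENNReal.ofReal_rpow_of_nonneg (norm_nonneg _) hp.le,
    ← ENNReal.ofReal_mul (by positivity)]
  apply ENNReal.ofReal_le_ofReal
  calc ‖g z‖ ^ p ≤ ((2 ^ m * A) * ((1 + ‖z‖) ^ m)⁻¹) ^ p := by gcongr
    _ = _ := by
        rw [Real.mul_rpow (by positivity) (by positivity), Real.mul_rpow (by positivity)
          (by positivity), Real.inv_rpow (by positivity),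
          Real.rpow_neg (by positivity), Real.rpow_mul (by positivity), Real.rpow_natCast]

/-- continuous linear operators on Schwartz space are bounded in terms of seminorms -/
theorem clm_bound (T : 𝓢(E n, ℂ) →L[ℝ] 𝓢(E n, ℂ)) (k l : ℕ) : ∃ (s : Finset (ℕ × ℕ)) (C : ℝ),
    0 ≤ C ∧ ∀ f : 𝓢(E n, ℂ), SchwartzMap.seminorm ℝ k l (T f) ≤
      C * ∑ i ∈ s, SchwartzMap.seminorm ℝ i.1 i.2 f := by
  have hq : Continuous ((SchwartzMap.seminorm ℝ k l : Seminorm ℝ 𝓢(E n, ℂ)).comp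
      (T.toLinearMap)) := by
    have h1 : Continuous (SchwartzMap.seminorm ℝ k l : Seminorm ℝ 𝓢(E n, ℂ)) :=
      (schwartz_withSeminorms ℝ (E n) ℂ).continuous_seminorm (k, l)
    exact h1.comp T.continuous
  obtain ⟨s, C, hC, h⟩ := Seminorm.bound_of_continuous (schwartz_withSeminorms ℝ (E n) ℂ) _ hq
  refine ⟨s, C, C.2, fun f => ?_⟩
  have h1 := h f
  refine le_trans h1 ?_
  have h2 : s.sup (schwartzSeminormFamily ℝ (E n) ℂ) ≤
      ∑ i ∈ s, schwartzSeminormFamily ℝ (E n) ℂ i := Seminorm.finset_sup_le_sum _ _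
  have h3 := h2 f
  rw [_root_.smul_apply]
  have h4 : (∑ i ∈ s, schwartzSeminormFamily ℝ (E n) ℂ i) f =
      ∑ i ∈ s, SchwartzMap.seminorm ℝ i.1 i.2 f := by
    rw [_root_.sum_apply]
    rfl
  rw [h4] at h3
  exact mul_le_mul_of_nonneg_left h3 C.2

/-- the part of `u` far away -/
theorem seminorm_cut (u : 𝓢(E n, ℂ)) (k l : ℕ) : ∃ C : ℝ, 0 ≤ C ∧
    ∀ (δ : ℝ) (hδ : 0 < δ), δ ≤ 1 →
      SchwartzMap.seminorm ℝ k l (u - mulS (scS δ hδ bmp) u) ≤ C * δ := by
  set C : ℝ := ∑ i ∈ Finset.range (l + 1), (l.choose i : ℝ) *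
    (1 + SchwartzMap.seminorm ℝ 0 i (bmp : 𝓢(E n, ℂ))) * SchwartzMap.seminorm ℝ (k + 1) (l - i) u
    with hC
  have hC0 : 0 ≤ C := Finset.sum_nonneg fun i _ => by positivity
  refine ⟨C, hC0, fun δ hδ hδ1 => ?_⟩
  refine SchwartzMap.seminorm_le_bound ℝ k l _ (by positivity) fun y => ?_
  have hval : ∀ y, (u - mulS (scS δ hδ bmp) u : 𝓢(E n, ℂ)) y = (1 - scS δ hδ bmp y) * u y := by
    intro y
    rw [sub_apply, mulS_apply]
    ring
  have hfun : ((u - mulS (scS δ hδ bmp) u : 𝓢(E n, ℂ)) : E n → ℂ) =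
      fun y => (1 - scS δ hδ bmp y) * u y := funext hval
  rcases lt_or_ge (δ * ‖y‖) 1 with hy | hy
  · have h1 : ((u - mulS (scS δ hδ bmp) u : 𝓢(E n, ℂ)) : E n → ℂ) =ᶠ[nhds y] fun _ => 0 := by
      have hc : Continuous fun z : E n => δ * ‖z‖ := by fun_prop
      have h2 : ∀ᶠ z in nhds y, δ * ‖z‖ < 1 := (hc.tendsto y).eventually_lt_const hy
      filter_upwards [h2] with z hz
      rw [hval, scS_apply, bmp_apply, beta_eq_one]
      · simp
      · rw [abs_of_nonneg (norm_nonneg _), norm_smul, Real.norm_of_nonneg hδ.le]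
        exact hz.le
    have h3 : iteratedFDeriv ℝ l (u - mulS (scS δ hδ bmp) u : 𝓢(E n, ℂ)) y = 0 := by
      have h4 := (h1.iteratedFDeriv ℝ l).eq_of_nhds
      rw [h4]
      simp
    rw [h3, norm_zero, mul_zero]
    positivity
  · rw [hfun]
    have h1 := norm_iteratedFDeriv_mul_le (𝕜 := ℝ) (N := l) (n := l)
      (f := fun y => 1 - scS δ hδ bmp y) (g := (u : E n → ℂ))
      (contDiff_const.sub ((scS δ hδ bmp).smooth l)) (u.smooth l) y le_rfl
    calc ‖y‖ ^ k * ‖iteratedFDeriv ℝ l (fun y => (1 - scS δ hδ bmp y) * u y) y‖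
        ≤ ‖y‖ ^ k * ∑ i ∈ Finset.range (l + 1), (l.choose i : ℝ) *
            ‖iteratedFDeriv ℝ i (fun y => 1 - scS δ hδ bmp y) y‖ *
            ‖iteratedFDeriv ℝ (l - i) u y‖ := by gcongr
      _ = ∑ i ∈ Finset.range (l + 1), (l.choose i : ℝ) *
            ‖iteratedFDeriv ℝ i (fun y => 1 - scS δ hδ bmp y) y‖ *
            (‖y‖ ^ k * ‖iteratedFDeriv ℝ (l - i) u y‖) := by
          rw [Finset.mul_sum]
          refine Finset.sum_congr rfl fun i _ => ?_
          ring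
      _ ≤ ∑ i ∈ Finset.range (l + 1), (l.choose i : ℝ) *
            (1 + SchwartzMap.seminorm ℝ 0 i (bmp : 𝓢(E n, ℂ))) *
            (SchwartzMap.seminorm ℝ (k + 1) (l - i) u * δ) := by
          refine Finset.sum_le_sum fun i _ => ?_
          have h6 : ‖iteratedFDeriv ℝ i (fun y => 1 - scS δ hδ bmp y) y‖ ≤
              1 + SchwartzMap.seminorm ℝ 0 i (bmp : 𝓢(E n, ℂ)) := by
            refine (norm_iteratedFDeriv_one_sub (scS δ hδ bmp) i y).trans ?_
            gcongr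
            refine SchwartzMap.seminorm_le_bound ℝ 0 i _ (by positivity) fun z => ?_
            rw [norm_iteratedFDeriv_scS, pow_zero, one_mul]
            have h3 := le_seminorm ℝ 0 i (bmp : 𝓢(E n, ℂ)) (δ • z)
            rw [pow_zero, one_mul] at h3
            have h4 : δ ^ i ≤ 1 := pow_le_one₀ hδ.le hδ1
            calc δ ^ i * ‖iteratedFDeriv ℝ i (bmp : 𝓢(E n, ℂ)) (δ • z)‖ ≤
                  1 * ‖iteratedFDeriv ℝ i (bmp : 𝓢(E n, ℂ)) (δ • z)‖ := by gcongr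
              _ ≤ _ := by rw [one_mul]; exact h3
          have h7 : ‖y‖ ^ k * ‖iteratedFDeriv ℝ (l - i) u y‖ ≤
              SchwartzMap.seminorm ℝ (k + 1) (l - i) u * δ := by
            have h8 := le_seminorm ℝ (k + 1) (l - i) u y
            calc ‖y‖ ^ k * ‖iteratedFDeriv ℝ (l - i) u y‖ ≤
                  (‖y‖ ^ k * ‖iteratedFDeriv ℝ (l - i) u y‖) * (δ * ‖y‖) :=
                  le_mul_of_one_le_right (by positivity) hy
              _ = (‖y‖ ^ (k + 1) * ‖iteratedFDeriv ℝ (l - i) u y‖) * δ := by ring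
              _ ≤ _ := by gcongr
          gcongr
      _ = C * δ := by
          rw [hC, Finset.sum_mul]
          refine Finset.sum_congr rfl fun i _ => ?_
          ring

end Pool.Agent.TH969.BC
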