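import Pool.Agent.TH969.BC.BesovClass

open MeasureTheory SchwartzMap
open scoped ENNReal NNReal FourierTransform SchwartzMap RealInnerProductSpace

namespace Pool.Agent.TH969.BC

open Pool.Agent.Helper656.Cap

variable {n : ℕ}

/-- sum of the Schwartz seminorms up to order `N` -/
noncomputable def PN (N : ℕ) (u : 𝓢(E n, ℂ)) : ℝ :=
  ∑ i ∈ Finset.range (N + 1) ×ˢ Finset.range (N + 1), SchwartzMap.seminorm ℝ i.1 i.2 u

theorem PN_nonneg (N : ℕ) (u : 𝓢(E n, ℂ)) : 0 ≤ PN N u :=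
  Finset.sum_nonneg fun _ _ => apply_nonneg _ _

theorem PN_mono {N N' : ℕ} (h : N ≤ N') (u : 𝓢(E n, ℂ)) : PN N u ≤ PN N' u := by
  unfold PN
  refine Finset.sum_le_sum_of_subset_of_nonneg ?_ fun _ _ _ => apply_nonneg _ _
  intro i hi
  simp only [Finset.mem_product, Finset.mem_range] at hi ⊢
  omega

theorem le_PN {N k l : ℕ} (hk : k ≤ N) (hl : l ≤ N) (u : 𝓢(E n, ℂ)) :
    SchwartzMap.seminorm ℝ k l u ≤ PN N u := by
  unfold PN
  refine Finset.single_le_sum (f := fun i : ℕ × ℕ => SchwartzMap.seminorm ℝ i.1 i.2 u)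
    (fun _ _ => apply_nonneg _ _) (a := (k, l)) ?_
  simp only [Finset.mem_product, Finset.mem_range]
  omega

theorem exists_PN (s : Finset (ℕ × ℕ)) : ∃ N : ℕ, ∀ u : 𝓢(E n, ℂ),
    ∑ i ∈ s, SchwartzMap.seminorm ℝ i.1 i.2 u ≤ PN N u := by
  refine ⟨s.sup fun i => i.1 + i.2, fun u => ?_⟩
  unfold PN
  refine Finset.sum_le_sum_of_subset_of_nonneg ?_ fun _ _ _ => apply_nonneg _ _
  intro i hi
  have h1 : i.1 + i.2 ≤ s.sup fun i => i.1 + i.2 := Finset.le_sup (f := fun i => i.1 + i.2) hi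
  simp only [Finset.mem_product, Finset.mem_range]
  omega

theorem PN_bound {ι : Type} (A : ι → 𝓢(E n, ℂ) → 𝓢(E n, ℂ)) (h : ∀ k l : ℕ, ∃ (N : ℕ) (C : ℝ),
    0 ≤ C ∧ ∀ (i : ι) (f : 𝓢(E n, ℂ)), SchwartzMap.seminorm ℝ k l (A i f) ≤ C * PN N f) (K : ℕ) :
    ∃ (N : ℕ) (C : ℝ), 0 ≤ C ∧ ∀ (i : ι) (f : 𝓢(E n, ℂ)), PN K (A i f) ≤ C * PN N f := by
  choose N C hC0 hC using h
  refine ⟨(Finset.range (K + 1) ×ˢ Finset.range (K + 1)).sup fun i => N i.1 i.2,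
    ∑ i ∈ Finset.range (K + 1) ×ˢ Finset.range (K + 1), C i.1 i.2,
    Finset.sum_nonneg fun i _ => hC0 _ _, fun i f => ?_⟩
  conv_lhs => unfold PN
  rw [Finset.sum_mul]
  refine Finset.sum_le_sum fun j hj => ?_
  refine (hC j.1 j.2 i f).trans ?_
  have h1 := PN_mono (n := n) (Finset.le_sup (f := fun i : ℕ × ℕ => N i.1 i.2) hj) f
  have h2 := hC0 j.1 j.2
  gcongr

theorem clm_PN (T : 𝓢(E n, ℂ) →L[ℝ] 𝓢(E n, ℂ)) (K : ℕ) :
    ∃ (N : ℕ) (C : ℝ), 0 ≤ C ∧ ∀ (f : 𝓢(E n, ℂ)), PN K (T f) ≤ C * PN N f := by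
  obtain ⟨N, C, hC, h⟩ := PN_bound (n := n) (ι := Unit) (fun _ f => T f) (fun k l => by
    obtain ⟨s, C, hC, h⟩ := clm_bound T k l
    obtain ⟨N, hN⟩ := exists_PN (n := n) s
    exact ⟨N, C, hC, fun _ f => (h f).trans (mul_le_mul_of_nonneg_left (hN f) hC)⟩) K
  exact ⟨N, C, hC, fun f => h () f⟩

theorem mulS_PN (θ : 𝓢(E n, ℂ)) (K : ℕ) : ∃ (N : ℕ) (C : ℝ), 0 ≤ C ∧
    ∀ (b : ℝ) (hb : 0 < b), b ≤ 1 → ∀ h : 𝓢(E n, ℂ),
      PN K (mulS (scS b hb θ) h) ≤ C * PN N h := by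
  obtain ⟨N, C, hC, h⟩ := PN_bound (n := n) (ι := {b : ℝ // 0 < b ∧ b ≤ 1})
    (fun b f => mulS (scS b.1 b.2.1 θ) f) (fun k l => by
    obtain ⟨C, hC, h⟩ := seminorm_mulS_scS θ k l
    refine ⟨k + l, C * (l + 1), by positivity, fun b f => ?_⟩
    refine (h b.1 b.2.1 b.2.2 f).trans ?_
    rw [mul_assoc]
    refine mul_le_mul_of_nonneg_left ?_ hC
    calc ∑ i ∈ Finset.range (l + 1), SchwartzMap.seminorm ℝ k i f ≤
          ∑ _i ∈ Finset.range (l + 1), PN (k + l) f := by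
          refine Finset.sum_le_sum fun i hi => ?_
          have := Finset.mem_range.1 hi
          exact le_PN (by omega) (by omega) f
      _ = _ := by
          rw [Finset.sum_const, Finset.card_range, nsmul_eq_mul]
          push_cast
          ring) K
  exact ⟨N, C, hC, fun b hb hb1 f => h ⟨b, hb, hb1⟩ f⟩

theorem PN_smul (N : ℕ) (c : ℝ) (u : 𝓢(E n, ℂ)) : PN N (((c : ℝ) : ℂ) • u) = |c| * PN N u := by
  unfold PN
  rw [Finset.mul_sum]
  refine Finset.sum_congr rfl fun i _ => ?_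
  have h1 : ((c : ℝ) : ℂ) • u = c • u := by
    ext y
    simp
  rw [h1, map_smul_eq_mul, Real.norm_eq_abs]

theorem lpS_succ (φ : 𝓢(E n, ℂ)) (hφ : IsGenerator φ) (M : ℕ) : ∃ θ : 𝓢(E n, ℂ),
    ∀ (u : 𝓢(E n, ℂ)) (j : ℕ), lpS φ u (j + 1) =
      (((((2 : ℝ)⁻¹ ^ (j + 1)) ^ (2 * M) : ℝ)) : ℂ) •
        𝓕⁻ (mulS (scS ((2 : ℝ)⁻¹ ^ (j + 1)) (by positivity) θ)
          (SchwartzMap.smulLeftCLM ℂ (fun ξ : E n => (‖ξ‖ ^ 2) ^ M) (𝓕 u))) := by
  set F : 𝓢(E n, ℂ) := φ - scS 2 (by norm_num) φ with hF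
  have hFv : ∀ ξ, F ξ = φ ξ - φ ((2 : ℝ) • ξ) := by
    intro ξ
    rw [hF, sub_apply, scS_apply]
  have hFc : HasCompactSupport F := by
    refine HasCompactSupport.intro (isCompact_closedBall (0 : E n) 2) fun ζ hζ => ?_
    rw [Metric.mem_closedBall, dist_zero_right, not_le] at hζ
    rw [hFv, hφ.zero ζ hζ.le, hφ.zero _ (by
      rw [norm_smul, Real.norm_of_nonneg (by norm_num)]; linarith), sub_zero]
  have hF0 : ∀ ξ, ‖ξ‖ ≤ 1 / 2 → F ξ = 0 := by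
    intro ξ hξ
    rw [hFv, hφ.one ξ (by linarith), hφ.one _ (by
      rw [norm_smul, Real.norm_of_nonneg (by norm_num)]; linarith), sub_self]
  obtain ⟨f₀, hf₀⟩ := exists_mult F hFc (1 / 2) (by norm_num) hF0 (-(2 * M : ℕ))
  have htg : (fun ξ : E n => (‖ξ‖ ^ 2) ^ M).HasTemperateGrowth :=
    (Function.hasTemperateGrowth_norm_sq (H := E n)).pow M
  refine ⟨𝓕 f₀, fun u j => ?_⟩
  set b : ℝ := (2 : ℝ)⁻¹ ^ (j + 1) with hb
  have hb0 : 0 < b := by positivity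
  have hinj : ∀ v w : 𝓢(E n, ℂ), (∀ ξ, 𝓕 v ξ = 𝓕 w ξ) → v = w := by
    intro v w hvw
    have h1 : (𝓕 v : 𝓢(E n, ℂ)) = 𝓕 w := by
      ext ξ
      exact hvw ξ
    have h2 := congrArg (fun v : 𝓢(E n, ℂ) => 𝓕⁻ v) h1
    simpa only [FourierTransform.fourierInv_fourier_eq] using h2
  apply hinj
  intro ξ
  rw [fourier_lpS, FourierTransform.fourier_smul, FourierTransform.fourier_fourierInv_eq,
    smul_apply, mulS_apply, scS_apply, hf₀, SchwartzMap.smulLeftCLM_apply_apply htg, hFv]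
  simp only [dyad]
  have h2 : ((2 : ℝ)⁻¹ ^ j) • ξ = (2 : ℝ) • b • ξ := by
    rw [smul_smul, hb, pow_succ]
    congr 1
    field_simp
  rw [h2]
  rcases eq_or_ne ξ 0 with rfl | hξ
  · simp
  · have h3 : b ^ (2 * M) * (‖b • ξ‖ ^ (-((2 * M : ℕ) : ℝ)) * (‖ξ‖ ^ 2) ^ M) = 1 := by
      have hξ0 : 0 < ‖ξ‖ := norm_pos_iff.2 hξ
      have key : ∀ b x : ℝ, 0 < b → 0 < x →
          b ^ (2 * M) * (((b * x) ^ (2 * M))⁻¹ * (x ^ 2) ^ M) = 1 := by
        intro b x hb hx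
        rw [mul_pow, ← pow_mul]
        field_simp
      rw [norm_smul, Real.norm_of_nonneg hb0.le, Real.rpow_neg (by positivity), Real.rpow_natCast]
      exact key b ‖ξ‖ hb0 hξ0
    have h4 : ((b ^ (2 * M) : ℝ) : ℂ) * (((‖b • ξ‖ ^ (-((2 * M : ℕ) : ℝ)) : ℝ) : ℂ) *
        (((‖ξ‖ ^ 2) ^ M : ℝ) : ℂ)) = 1 := by
      exact_mod_cast h3
    rw [smul_eq_mul, Complex.real_smul]
    calc _ = (((b ^ (2 * M) : ℝ) : ℂ) * (((‖b • ξ‖ ^ (-((2 * M : ℕ) : ℝ)) : ℝ) : ℂ) *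
        (((‖ξ‖ ^ 2) ^ M : ℝ) : ℂ))) * ((φ (b • ξ) - φ ((2 : ℝ) • b • ξ)) * 𝓕 u ξ) := by
          rw [h4, one_mul]
      _ = _ := by ring

/-- the Besov quasi-norm is controlled by Schwartz seminorms -/
theorem besovPow_le_PN (φ : 𝓢(E n, ℂ)) (hφ : IsGenerator φ) (α p : ℝ) (hp : 0 < p) :
    ∃ (N : ℕ) (C : ℝ≥0), ∀ u : 𝓢(E n, ℂ),
      besovPow φ α p u ≤ C * ENNReal.ofReal (PN N u ^ p) := by
  obtain ⟨M, hM⟩ := exists_nat_gt α
  obtain ⟨θ, hθ⟩ := lpS_succ φ hφ M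
  obtain ⟨m, C₀, hC₀⟩ := lintegral_rpow_le' (n := n) p hp
  -- the inverse Fourier transform, the multiplications and the operator
  obtain ⟨N₁, C₁, hC₁, h₁⟩ := clm_PN (n := n) (FourierTransform.fourierInvCLM ℝ 𝓢(E n, ℂ)) m
  obtain ⟨N₂, C₂, hC₂, h₂⟩ := mulS_PN θ N₁
  obtain ⟨N₃, C₃, hC₃, h₃⟩ := clm_PN (n := n)
    ((SchwartzMap.smulLeftCLM ℂ (fun ξ : E n => (‖ξ‖ ^ 2) ^ M)).comp
      (FourierTransform.fourierCLM ℝ 𝓢(E n, ℂ))) N₂
  obtain ⟨N₄, C₄, hC₄, h₄⟩ := mulS_PN φ N₁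
  obtain ⟨N₅, C₅, hC₅, h₅⟩ := clm_PN (n := n) (FourierTransform.fourierCLM ℝ 𝓢(E n, ℂ)) N₄
  set N := max N₃ N₅ with hN
  set D : ℝ := C₁ * (C₂ * C₃) + C₁ * (C₄ * C₅) with hD
  have hD0 : 0 ≤ D := by positivity
  have hblock : ∀ (u : 𝓢(E n, ℂ)) (j : ℕ), PN m (lpS φ u j) ≤
      ((2 : ℝ)⁻¹ ^ j) ^ (2 * M) * (D * PN N u) := by
    intro u j
    have hPN := PN_nonneg (n := n) N u
    rcases j with _ | j
    · have h6 : lpS φ u 0 = 𝓕⁻ (mulS (scS 1 one_pos φ) (𝓕 u)) := by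
        unfold lpS
        congr 1
        ext ξ
        rw [mulS_apply, scS_apply, one_smul, SchwartzMap.pairing_apply_apply]
        rfl
      rw [h6, pow_zero, one_pow, one_mul]
      calc _ ≤ C₁ * PN N₁ (mulS (scS 1 one_pos φ) (𝓕 u)) := h₁ _
        _ ≤ C₁ * (C₄ * PN N₄ (𝓕 u)) := by gcongr; exact h₄ 1 one_pos le_rfl _
        _ ≤ C₁ * (C₄ * (C₅ * PN N₅ u)) := by gcongr; exact h₅ u
        _ ≤ C₁ * (C₄ * (C₅ * PN N u)) := by gcongr; exact PN_mono (le_max_right _ _) u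
        _ ≤ D * PN N u := by
            rw [hD]
            have : 0 ≤ C₁ * (C₂ * C₃) * PN N u := by positivity
            nlinarith
    · rw [hθ u j, PN_smul, abs_of_nonneg (by positivity)]
      have hb1 : (2 : ℝ)⁻¹ ^ (j + 1) ≤ 1 := pow_le_one₀ (by norm_num) (by norm_num)
      gcongr
      calc _ ≤ C₁ * PN N₁ (mulS (scS ((2 : ℝ)⁻¹ ^ (j + 1)) (by positivity) θ)
            (SchwartzMap.smulLeftCLM ℂ (fun ξ : E n => (‖ξ‖ ^ 2) ^ M) (𝓕 u))) := h₁ _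
        _ ≤ C₁ * (C₂ * PN N₂ (SchwartzMap.smulLeftCLM ℂ
            (fun ξ : E n => (‖ξ‖ ^ 2) ^ M) (𝓕 u))) := by gcongr; exact h₂ _ _ hb1 _
        _ ≤ C₁ * (C₂ * (C₃ * PN N₃ u)) := by gcongr; exact h₃ u
        _ ≤ C₁ * (C₂ * (C₃ * PN N u)) := by gcongr; exact PN_mono (le_max_left _ _) u
        _ ≤ D * PN N u := by
            rw [hD]
            have : 0 ≤ C₁ * (C₄ * C₅) * PN N u := by positivity
            nlinarith
  set r : ℝ := (2 : ℝ) ^ ((α - 2 * M) * p) with hr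
  have hr0 : 0 < r := by positivity
  have hr1 : r < 1 := by
    apply Real.rpow_lt_one_of_one_lt_of_neg (by norm_num)
    have hM0 : (0 : ℝ) ≤ M := Nat.cast_nonneg M
    have : α - 2 * M < 0 := by linarith
    exact mul_neg_of_neg_of_pos this hp
  have hrE : ENNReal.ofReal r < 1 := by
    rw [← ENNReal.ofReal_one]
    exact (ENNReal.ofReal_lt_ofReal_iff one_pos).2 hr1
  have hgeom : (∑' j : ℕ, ENNReal.ofReal r ^ j) ≠ ⊤ := by
    rw [ENNReal.tsum_geometric]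
    exact ENNReal.inv_ne_top.2 (tsub_pos_of_lt hrE).ne'
  have hfin : (C₀ : ℝ≥0∞) * ENNReal.ofReal ((2 * D) ^ p) * ∑' j : ℕ, ENNReal.ofReal r ^ j ≠ ⊤ :=
    ENNReal.mul_ne_top (ENNReal.mul_ne_top ENNReal.coe_ne_top ENNReal.ofReal_ne_top) hgeom
  refine ⟨N, ((C₀ : ℝ≥0∞) * ENNReal.ofReal ((2 * D) ^ p) *
    ∑' j : ℕ, ENNReal.ofReal r ^ j).toNNReal, fun u => ?_⟩
  rw [ENNReal.coe_toNNReal hfin]
  unfold besovPow
  have hPN := PN_nonneg (n := n) N u
  calc _ ≤ ∑' j : ℕ, (C₀ : ℝ≥0∞) * ENNReal.ofReal ((2 * D) ^ p) * ENNReal.ofReal (PN N u ^ p) *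
        ENNReal.ofReal r ^ j := by
        refine ENNReal.tsum_le_tsum fun j => ?_
        rw [← coe_lpS]
        have h6 := hC₀ (lpS φ u j)
        have h7 : SchwartzMap.seminorm ℝ 0 0 (lpS φ u j) + SchwartzMap.seminorm ℝ m 0 (lpS φ u j) ≤
            2 * (((2 : ℝ)⁻¹ ^ j) ^ (2 * M) * (D * PN N u)) := by
          have h8 := le_PN (n := n) (N := m) (k := 0) (l := 0) (by omega) (by omega) (lpS φ u j)
          have h9 := le_PN (n := n) (N := m) (k := m) (l := 0) (by omega) (by omega) (lpS φ u j)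
          have h10 := hblock u j
          linarith
        have h11 : (SchwartzMap.seminorm ℝ 0 0 (lpS φ u j) +
            SchwartzMap.seminorm ℝ m 0 (lpS φ u j)) ^ p ≤
            (2 * D) ^ p * PN N u ^ p * (2 : ℝ) ^ (-(j * (2 * M * p))) := by
          calc _ ≤ (2 * (((2 : ℝ)⁻¹ ^ j) ^ (2 * M) * (D * PN N u))) ^ p :=
                Real.rpow_le_rpow (by positivity) h7 hp.le
            _ = ((2 * D) * PN N u * ((2 : ℝ)⁻¹ ^ j) ^ (2 * M)) ^ p := by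
                congr 1
                ring
            _ = _ := by
                rw [Real.mul_rpow (by positivity) (by positivity),
                  Real.mul_rpow (by positivity) (by positivity)]
                congr 1
                rw [← pow_mul, inv_pow, Real.inv_rpow (by positivity), ← Real.rpow_natCast,
                  ← Real.rpow_mul (by norm_num), ← Real.rpow_neg (by norm_num)]
                congr 1
                push_cast
                ring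
        calc ENNReal.ofReal ((2 : ℝ) ^ (j * (α * p))) * ∫⁻ x, ‖lpS φ u j x‖ₑ ^ p
            ≤ ENNReal.ofReal ((2 : ℝ) ^ (j * (α * p))) * (C₀ * ENNReal.ofReal
              ((2 * D) ^ p * PN N u ^ p * (2 : ℝ) ^ (-(j * (2 * M * p))))) := by
              refine mul_le_mul_right (h6.trans ?_) _
              exact mul_le_mul_right (ENNReal.ofReal_le_ofReal h11) _
          _ = C₀ * (ENNReal.ofReal ((2 * D) ^ p) * ENNReal.ofReal (PN N u ^ p) *
              (ENNReal.ofReal ((2 : ℝ) ^ (j * (α * p))) *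
                ENNReal.ofReal ((2 : ℝ) ^ (-(j * (2 * M * p)))))) := by
              rw [ENNReal.ofReal_mul (by positivity), ENNReal.ofReal_mul (by positivity)]
              ring
          _ = _ := by
              have h13 : ENNReal.ofReal ((2 : ℝ) ^ (j * (α * p))) *
                  ENNReal.ofReal ((2 : ℝ) ^ (-(j * (2 * M * p)))) = ENNReal.ofReal r ^ j := by
                have h12 : (j : ℝ) * (α * p) + -((j : ℝ) * (2 * M * p)) =
                    (α - 2 * M) * p * j := by ring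
                rw [← ENNReal.ofReal_mul (by positivity), ← Real.rpow_add (by norm_num),
                  ← ENNReal.ofReal_pow hr0.le, hr, ← Real.rpow_natCast,
                  ← Real.rpow_mul (by norm_num), h12]
              rw [h13]
              ring
    _ = _ := by
        rw [ENNReal.tsum_mul_left]
        ring

end Pool.Agent.TH969.BC
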