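import Pool.Agent.TH969.BC.Peetre
import Pool.Agent.Helper656.CapChain

open MeasureTheory SchwartzMap
open scoped ENNReal NNReal FourierTransform SchwartzMap RealInnerProductSpace

namespace Pool.Agent.TH969.BC

open Pool.Agent.Helper656.Cap

variable {n : ℕ}

/-- `y ↦ φ(r y)` as a Schwartz function -/
noncomputable def scS (r : ℝ) (hr : 0 < r) (φ : 𝓢(E n, ℂ)) : 𝓢(E n, ℂ) :=
  (((r ^ n)⁻¹ : ℝ) : ℂ) • pull 0 r hr φ

theorem scS_apply (r : ℝ) (hr : 0 < r) (φ : 𝓢(E n, ℂ)) (y : E n) : scS r hr φ y = φ (r • y) := by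
  rw [scS, smul_apply, pull_apply, zero_add, smul_eq_mul, ← mul_assoc, ← Complex.ofReal_mul,
    inv_mul_cancel₀ (by positivity), Complex.ofReal_one, one_mul]

/-- the dyadic resolution as Schwartz functions -/
noncomputable def dyadS (φ : 𝓢(E n, ℂ)) : ℕ → 𝓢(E n, ℂ)
  | 0 => φ
  | j + 1 => scS ((2 : ℝ)⁻¹ ^ (j + 1)) (by positivity) φ - scS ((2 : ℝ)⁻¹ ^ j) (by positivity) φ

theorem dyadS_apply (φ : 𝓢(E n, ℂ)) (j : ℕ) (ξ : E n) : dyadS φ j ξ = dyad φ j ξ := by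
  rcases j with _ | j
  · rfl
  · simp only [dyadS, dyad]
    rw [sub_apply, scS_apply, scS_apply]

/-- the Littlewood-Paley block as a Schwartz function -/
noncomputable def lpS (φ u : 𝓢(E n, ℂ)) (j : ℕ) : 𝓢(E n, ℂ) :=
  𝓕⁻ (SchwartzMap.pairing (ContinuousLinearMap.mul ℂ ℂ) (dyadS φ j) (𝓕 u))

theorem fourier_lpS (φ u : 𝓢(E n, ℂ)) (j : ℕ) (ξ : E n) :
    𝓕 (lpS φ u j) ξ = dyad φ j ξ * 𝓕 u ξ := by
  rw [lpS, FourierTransform.fourier_fourierInv_eq, SchwartzMap.pairing_apply_apply, dyadS_apply]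
  rfl

theorem coe_lpS (φ u : 𝓢(E n, ℂ)) (j : ℕ) : (lpS φ u j : E n → ℂ) = lpBlock φ u j := by
  unfold lpBlock
  have h1 : (fun ξ => dyad φ j ξ * 𝓕 u ξ) = ((𝓕 (lpS φ u j) : 𝓢(E n, ℂ)) : E n → ℂ) := by
    ext ξ
    rw [fourier_lpS]
  rw [h1, ← SchwartzMap.fourierInv_coe, FourierTransform.fourierInv_fourier_eq]

theorem dyad_zero (φ : 𝓢(E n, ℂ)) (hφ : IsGenerator φ) (j : ℕ) (ξ : E n)
    (h : 2 / (2 : ℝ)⁻¹ ^ j ≤ ‖ξ‖) : dyad φ j ξ = 0 := by
  have h2 : ∀ r : ℝ, 0 < r → 2 / r ≤ ‖ξ‖ → φ (r • ξ) = 0 := by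
    intro r hr hr2
    apply hφ.zero
    rw [norm_smul, Real.norm_of_nonneg hr.le]
    rwa [div_le_iff₀ hr, mul_comm] at hr2
  rcases j with _ | j
  · simp only [dyad]
    apply hφ.zero
    simpa using h
  · simp only [dyad]
    rw [h2 _ (by positivity) h, h2 _ (by positivity), sub_zero]
    refine le_trans ?_ h
    gcongr 2 / ?_
    rw [pow_succ]
    have : (0 : ℝ) < 2⁻¹ ^ j := by positivity
    nlinarith

theorem sum_dyad (φ : 𝓢(E n, ℂ)) (m : ℕ) (ξ : E n) :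
    ∑ j ∈ Finset.range (m + 1), dyad φ j ξ = φ (((2 : ℝ)⁻¹ ^ m) • ξ) := by
  induction m with
  | zero => simp [dyad]
  | succ m ih =>
    rw [Finset.sum_range_succ, ih]
    simp only [dyad]
    ring

theorem enorm_le_tsum_lpBlock (φ u : 𝓢(E n, ℂ)) (hφ : IsGenerator φ) (x : E n) :
    ‖u x‖ₑ ≤ ∑' j, ‖lpBlock φ u j x‖ₑ := by
  have hsum : ∀ m : ℕ, ∑ j ∈ Finset.range (m + 1), lpBlock φ u j x =
      ∫ ξ, Complex.exp (((2 * Real.pi * ⟪ξ, x⟫ : ℝ) : ℂ) * Complex.I) *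
        (φ (((2 : ℝ)⁻¹ ^ m) • ξ) * 𝓕 u ξ) := by
    intro m
    have h1 : ∀ j, lpBlock φ u j x =
        ∫ ξ, Complex.exp (((2 * Real.pi * ⟪ξ, x⟫ : ℝ) : ℂ) * Complex.I) *
          (dyad φ j ξ * 𝓕 u ξ) := by
      intro j
      unfold lpBlock
      rw [Real.fourierInv_eq']
      rfl
    have hint : ∀ j, Integrable (fun ξ =>
        Complex.exp (((2 * Real.pi * ⟪ξ, x⟫ : ℝ) : ℂ) * Complex.I) * (dyad φ j ξ * 𝓕 u ξ)) := by
      intro j
      have h2 : Integrable (fun ξ => dyad φ j ξ * 𝓕 u ξ) := by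
        have h3 := (𝓕 (lpS φ u j) : 𝓢(E n, ℂ)).integrable (μ := volume)
        refine h3.congr (Filter.Eventually.of_forall fun ξ => ?_)
        simp only
        rw [fourier_lpS]
      refine h2.bdd_mul (c := 1) (by
        apply Continuous.aestronglyMeasurable
        fun_prop) (Filter.Eventually.of_forall fun ξ => ?_)
      rw [Complex.norm_exp_ofReal_mul_I]
    simp only [h1]
    rw [← integral_finsetSum _ (fun j _ => hint j)]
    refine integral_congr_ae (Filter.Eventually.of_forall fun ξ => ?_)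
    simp only
    rw [← Finset.mul_sum, ← Finset.sum_mul, sum_dyad]
  have hlim : Filter.Tendsto (fun m : ℕ => ∑ j ∈ Finset.range (m + 1), lpBlock φ u j x)
      Filter.atTop (nhds (u x)) := by
    have hux : u x = ∫ ξ, Complex.exp (((2 * Real.pi * ⟪ξ, x⟫ : ℝ) : ℂ) * Complex.I) *
        (1 * 𝓕 u ξ) := by
      have h2 : u x = (𝓕⁻ (𝓕 u : 𝓢(E n, ℂ)) : 𝓢(E n, ℂ)) x := by
        rw [FourierTransform.fourierInv_fourier_eq]
      conv_lhs => rw [h2, SchwartzMap.fourierInv_coe, Real.fourierInv_eq']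
      refine integral_congr_ae (Filter.Eventually.of_forall fun ξ => ?_)
      simp only
      rw [one_mul, smul_eq_mul]
    rw [hux]
    simp only [hsum]
    obtain ⟨B, hB⟩ : ∃ B : ℝ, ∀ y, ‖φ y‖ ≤ B :=
      ⟨SchwartzMap.seminorm ℝ 0 0 φ, fun y => SchwartzMap.norm_le_seminorm ℝ φ y⟩
    refine tendsto_integral_of_dominated_convergence (fun ξ => B * ‖𝓕 u ξ‖) (fun m => ?_) ?_
      (fun m => Filter.Eventually.of_forall fun ξ => ?_) (Filter.Eventually.of_forall fun ξ => ?_)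
    · apply Continuous.aestronglyMeasurable
      have := φ.continuous
      have := (𝓕 u).continuous
      fun_prop
    · exact ((𝓕 u).integrable (μ := volume)).norm.const_mul B
    · rw [norm_mul, norm_mul, Complex.norm_exp_ofReal_mul_I, one_mul]
      gcongr
      exact hB _
    · have h1 : Filter.Tendsto (fun m : ℕ => φ (((2 : ℝ)⁻¹ ^ m) • ξ)) Filter.atTop (nhds 1) := by
        have h2 : Filter.Tendsto (fun m : ℕ => ((2 : ℝ)⁻¹ ^ m) • ξ) Filter.atTop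
            (nhds ((0 : ℝ) • ξ)) :=
          (tendsto_pow_atTop_nhds_zero_of_lt_one (by norm_num) (by norm_num)).smul_const ξ
        have h3 := (φ.continuous.tendsto ((0 : ℝ) • ξ)).comp h2
        rw [zero_smul, hφ.one 0 (by simp)] at h3
        exact h3
      exact (h1.mul_const _).const_mul _
  have h1 : Filter.Tendsto (fun m : ℕ => ‖∑ j ∈ Finset.range (m + 1), lpBlock φ u j x‖ₑ)
      Filter.atTop (nhds ‖u x‖ₑ) := (continuous_enorm.tendsto _).comp hlim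
  refine le_of_tendsto h1 (Filter.Eventually.of_forall fun m => ?_)
  exact (enorm_sum_le _ _).trans (ENNReal.sum_le_tsum _)

end Pool.Agent.TH969.BC
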