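import Pool.Agent.TH969.BC.BesselUpper

open MeasureTheory SchwartzMap
open scoped ENNReal NNReal FourierTransform SchwartzMap RealInnerProductSpace

namespace Pool.Agent.TH969.BC

open Pool.Agent.Helper656.Cap

variable {n : ℕ}

theorem lintegral_dil_rpow (c : E n) {ℓ : ℝ} (hℓ : 0 < ℓ) (g : 𝓢(E n, ℂ)) {p : ℝ} (hp : 0 < p) :
    ∫⁻ x, ‖dil c ℓ hℓ g x‖ₑ ^ p =
      ENNReal.ofReal (((ℓ⁻¹) ^ n) ^ p * ℓ ^ n) * ∫⁻ z, ‖g z‖ₑ ^ p := by
  have h1 : ∀ x, ‖dil c ℓ hℓ g x‖ₑ ^ p =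
      ENNReal.ofReal (((ℓ⁻¹) ^ n) ^ p) * (fun z => ‖g z‖ₑ ^ p) (ℓ⁻¹ • (x - c)) := by
    intro x
    simp only
    rw [dil_apply, enorm_mul, ENNReal.mul_rpow_of_nonneg _ _ hp.le, ← ofReal_norm (((ℓ⁻¹) ^ n : ℝ) : ℂ),
      Complex.norm_real, Real.norm_of_nonneg (by positivity), ENNReal.ofReal_rpow_of_nonneg
        (by positivity) hp.le]
  rw [lintegral_congr h1, lintegral_const_mul' _ _ ENNReal.ofReal_ne_top,
    lintegral_scale c hℓ (fun z => ‖g z‖ₑ ^ p), ← mul_assoc, ← ENNReal.ofReal_mul (by positivity)]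

theorem lintegral_rpow_le (p : ℝ) (hp : 0 < p) : ∃ m : ℕ, ∀ A : ℝ, ∃ C : ℝ≥0, ∀ g : 𝓢(E n, ℂ),
    SchwartzMap.seminorm ℝ 0 0 g ≤ A → SchwartzMap.seminorm ℝ m 0 g ≤ A →
      ∫⁻ z, ‖g z‖ₑ ^ p ≤ C := by
  obtain ⟨m, hm⟩ := exists_nat_gt ((n : ℝ) / p)
  have hmp : (n : ℝ) < m * p := by rwa [div_lt_iff₀ hp] at hm
  refine ⟨m, fun A => ?_⟩
  rcases lt_or_ge A 0 with hA | hA
  · refine ⟨0, fun g hg _ => ?_⟩
    exact absurd (hg.trans_lt hA) (not_lt.2 (apply_nonneg _ _))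
  set J : ℝ≥0∞ := ∫⁻ z : E n, ENNReal.ofReal ((1 + ‖z‖) ^ (-((m : ℝ) * p))) with hJ
  have hJfin : J < ⊤ := finite_integral_one_add_norm (by rw [finrank_euclideanSpace_fin]; exact hmp)
  have hfin : ENNReal.ofReal ((2 ^ m * (A + A)) ^ p) * J ≠ ⊤ :=
    ENNReal.mul_ne_top ENNReal.ofReal_ne_top hJfin.ne
  refine ⟨(ENNReal.ofReal ((2 ^ m * (A + A)) ^ p) * J).toNNReal, fun g h0 h1 => ?_⟩
  rw [ENNReal.coe_toNNReal hfin, hJ, ← lintegral_const_mul' _ _ ENNReal.ofReal_ne_top]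
  refine lintegral_mono fun z => ?_
  have h2 : (1 + ‖z‖) ^ m * ‖g z‖ ≤ 2 ^ m * (A + A) :=
    (decay_of_seminorm g m z).trans (by gcongr)
  have h3 : ‖g z‖ ≤ (2 ^ m * (A + A)) * ((1 + ‖z‖) ^ m)⁻¹ := by
    rw [← div_eq_mul_inv, le_div_iff₀ (by positivity), mul_comm]
    exact h2
  rw [← ofReal_norm, ENNReal.ofReal_rpow_of_nonneg (norm_nonneg _) hp.le,
    ← ENNReal.ofReal_mul (by positivity)]
  apply ENNReal.ofReal_le_ofReal
  calc ‖g z‖ ^ p ≤ ((2 ^ m * (A + A)) * ((1 + ‖z‖) ^ m)⁻¹) ^ p := by gcongr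
    _ = _ := by
        rw [Real.mul_rpow (by positivity) (by positivity), Real.inv_rpow (by positivity),
          Real.rpow_neg (by positivity), Real.rpow_mul (by positivity), Real.rpow_natCast]

theorem geom_cut (β : ℝ) (hβ : 0 < β) (X : ℝ) (hX : 0 ≤ X) :
    ∑' j : ℕ, (if (2 : ℝ) ^ j < X then ENNReal.ofReal ((2 : ℝ) ^ (j * β)) else 0) ≤
      ENNReal.ofReal ((2 * X) ^ β / (2 ^ β - 1)) := by
  have h2 : (1 : ℝ) < 2 ^ β := Real.one_lt_rpow (by norm_num) hβ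
  have h20 : (0 : ℝ) < 2 ^ β - 1 := by linarith
  have hpow : ∀ j : ℕ, (2 : ℝ) ^ ((j : ℝ) * β) = ((2 : ℝ) ^ β) ^ j := by
    intro j
    rw [mul_comm, Real.rpow_mul (by norm_num), Real.rpow_natCast]
  have hkey : ∀ m : ℕ, ∑ j ∈ Finset.range m, (if (2 : ℝ) ^ j < X then (2 : ℝ) ^ ((j : ℝ) * β)
      else 0) ≤ (2 * X) ^ β / (2 ^ β - 1) := by
    intro m
    induction m with
    | zero => simp; positivity
    | succ m ih =>
      by_cases hm : (2 : ℝ) ^ m < X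
      · calc _ ≤ ∑ j ∈ Finset.range (m + 1), ((2 : ℝ) ^ β) ^ j := by
              refine Finset.sum_le_sum fun j _ => ?_
              split_ifs
              · rw [hpow]
              · positivity
          _ = (((2 : ℝ) ^ β) ^ (m + 1) - 1) / (2 ^ β - 1) := geom_sum_eq h2.ne' _
          _ ≤ (2 * X) ^ β / (2 ^ β - 1) := by
              gcongr
              have h3 : ((2 : ℝ) ^ β) ^ (m + 1) = (2 * 2 ^ m) ^ β := by
                rw [← Real.rpow_natCast, ← Real.rpow_mul (by norm_num), mul_comm β,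
                  Real.rpow_mul (by norm_num), Real.rpow_natCast, pow_succ, mul_comm]
              have h4 : (2 * (2 : ℝ) ^ m) ^ β ≤ (2 * X) ^ β := by gcongr
              linarith
      · rw [Finset.sum_range_succ, if_neg hm, add_zero]
        exact ih
  refine ENNReal.tsum_le_of_sum_range_le fun m => ?_
  have h3 : ∑ j ∈ Finset.range m, (if (2 : ℝ) ^ j < X then ENNReal.ofReal ((2 : ℝ) ^ (j * β))
      else 0) = ENNReal.ofReal (∑ j ∈ Finset.range m, (if (2 : ℝ) ^ j < X then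
        (2 : ℝ) ^ ((j : ℝ) * β) else 0)) := by
    rw [ENNReal.ofReal_sum_of_nonneg (fun j _ => by split_ifs <;> positivity)]
    refine Finset.sum_congr rfl fun j _ => ?_
    split_ifs
    · rfl
    · simp
  rw [h3]
  exact ENNReal.ofReal_le_ofReal (hkey m)

theorem comb_congr_fourier (T : Finset (ℕ × Cube n)) (a : ℕ × Cube n → ℝ) (w : 𝓢(E n, ℂ))
    (φ : 𝓢(E n, ℂ)) (j : ℕ) (g : ℕ × Cube n → 𝓢(E n, ℂ))
    (hg : ∀ i ∈ T, ∀ ζ, 𝓕 (g i) ζ = dyad φ j ((Cube.side i.2)⁻¹ • ζ) * 𝓕 w ζ) (x : E n) :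
    lpBlock φ (comb T a w) j x = ∑ i ∈ T, ((a i : ℝ) : ℂ) *
      dil (Cube.center i.2) (Cube.side i.2) (side_pos i.2) (g i) x := by
  set v : 𝓢(E n, ℂ) := ∑ i ∈ T, ((a i : ℝ) : ℂ) •
    dil (Cube.center i.2) (Cube.side i.2) (side_pos i.2) (g i) with hv
  have h1 : (fun ξ => dyad φ j ξ * 𝓕 (comb T a w) ξ) = ((𝓕 v : 𝓢(E n, ℂ)) : E n → ℂ) := by
    ext ξ
    have h2 : 𝓕 v = ∑ i ∈ T, ((a i : ℝ) : ℂ) •
        𝓕 (dil (Cube.center i.2) (Cube.side i.2) (side_pos i.2) (g i)) := by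
      simp [hv]
    rw [h2, sum_apply, fourier_comb, Finset.mul_sum]
    refine Finset.sum_congr rfl fun i hi => ?_
    rw [smul_apply, fourier_dil, smul_eq_mul, hg i hi, smul_smul,
      inv_mul_cancel₀ (side_pos i.2).ne', one_smul]
    ring
  have h3 : lpBlock φ (comb T a w) j = v := by
    unfold lpBlock
    rw [h1, ← SchwartzMap.fourierInv_coe, FourierTransform.fourierInv_fourier_eq]
  rw [h3, hv]
  simp

theorem eq_zero_of_fourier (g : 𝓢(E n, ℂ)) (h : ∀ ζ, 𝓕 g ζ = 0) : g = 0 := by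
  have h1 : (𝓕 g : 𝓢(E n, ℂ)) = 0 := by
    ext ζ
    rw [h ζ]
    rfl
  have h2 : 𝓕⁻ (𝓕 g : 𝓢(E n, ℂ)) = g := FourierTransform.fourierInv_fourier_eq g
  rw [← h2, h1]
  exact map_zero (FourierTransform.fourierInvCLM ℂ 𝓢(E n, ℂ))

/-- the blocks of the dilates of a function with Fourier transform in an annulus -/
theorem exists_lp_family (φ w : 𝓢(E n, ℂ)) (hφ : IsGenerator φ) (R δ : ℝ) (hδ : 0 < δ) (hR : 0 < R)
    (hw0 : ∀ ξ, ‖ξ‖ ≤ δ → 𝓕 w ξ = 0) (hwR : ∀ ξ, R ≤ ‖ξ‖ → 𝓕 w ξ = 0) (p : ℝ) (hp : 0 < p)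
    (β : ℝ) (hβ : 0 < β) :
    ∃ C : ℝ≥0, ∃ g : ℝ → ℕ → 𝓢(E n, ℂ),
      (∀ s : ℝ, ∀ j ζ, 𝓕 (g s j) ζ = dyad φ j (s⁻¹ • ζ) * 𝓕 w ζ) ∧
      ∀ s : ℝ, 0 < s → s ≤ 1 →
        ∑' j : ℕ, ENNReal.ofReal ((2 : ℝ) ^ (j * β)) * ∫⁻ z, ‖g s j z‖ₑ ^ p ≤
          C * ENNReal.ofReal (s ^ (-β)) := by
  have hsm : ContDiff ℝ (⊤ : ℕ∞) (fun z : ℝ × E n => φ (z.1 • z.2)) :=
    (φ.smooth ⊤).comp (contDiff_fst.smul contDiff_snd)
  have hsm2 : ContDiff ℝ (⊤ : ℕ∞) (fun z : ℝ × E n => φ ((2 * z.1) • z.2)) :=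
    (φ.smooth ⊤).comp ((contDiff_const.mul contDiff_fst).smul contDiff_snd)
  have hsw : ContDiff ℝ (⊤ : ℕ∞) (fun z : ℝ × E n => (𝓕 w : 𝓢(E n, ℂ)) z.2) :=
    ((𝓕 w : 𝓢(E n, ℂ)).smooth ⊤).comp contDiff_snd
  obtain ⟨gA, hA, hAb⟩ := phys_family (n := n) (fun z : ℝ × E n =>
      (φ (z.1 • z.2) - φ ((2 * z.1) • z.2)) * 𝓕 w z.2)
    ((hsm.sub hsm2).mul hsw) R (fun a ζ h => by simp only; rw [hwR ζ h, mul_zero]) 0 (2 / δ)
  obtain ⟨gB, hB, hBb⟩ := phys_family (n := n) (fun z : ℝ × E n =>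
      φ (z.1 • z.2) * 𝓕 w z.2)
    (hsm.mul hsw) R (fun a ζ h => by simp only; rw [hwR ζ h, mul_zero]) 0 (2 / δ)
  obtain ⟨m, hm⟩ := lintegral_rpow_le (n := n) p hp
  obtain ⟨A0, hA0, hA0'⟩ := hAb 0 0
  obtain ⟨A1, hA1, hA1'⟩ := hAb m 0
  obtain ⟨B0, hB0, hB0'⟩ := hBb 0 0
  obtain ⟨B1, hB1, hB1'⟩ := hBb m 0
  obtain ⟨C, hC⟩ := hm (A0 + A1 + B0 + B1)
  have hphi0 : ∀ b : ℝ, 2 / δ < b → ∀ ζ : E n, δ < ‖ζ‖ → φ (b • ζ) = 0 := by
    intro b hb ζ hζ
    apply hφ.zero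
    have h1 : 0 < 2 / δ := by positivity
    rw [norm_smul, Real.norm_of_nonneg (h1.trans hb).le]
    have hb0 : 0 ≤ b := (h1.trans hb).le
    calc (2 : ℝ) = 2 / δ * δ := by field_simp
      _ ≤ b * ‖ζ‖ := by gcongr
  have hAbig : ∀ b : ℝ, 2 / δ < b → gA b = 0 := by
    intro b hb
    refine eq_zero_of_fourier _ fun ζ => ?_
    rw [hA]
    simp only
    rcases le_or_gt ‖ζ‖ δ with h | h
    · rw [hw0 ζ h, mul_zero]
    · have h1 : 0 < 2 / δ := by positivity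
      rw [hphi0 b hb ζ h, hphi0 (2 * b) (by linarith) ζ h, sub_zero, zero_mul]
  have hBbig : ∀ b : ℝ, 2 / δ < b → gB b = 0 := by
    intro b hb
    refine eq_zero_of_fourier _ fun ζ => ?_
    rw [hB]
    simp only
    rcases le_or_gt ‖ζ‖ δ with h | h
    · rw [hw0 ζ h, mul_zero]
    · rw [hphi0 b hb ζ h, zero_mul]
  have hAsmall : ∀ b : ℝ, 0 ≤ b → b ≤ 1 / (2 * R) → gA b = 0 := by
    intro b hb0 hb
    refine eq_zero_of_fourier _ fun ζ => ?_
    rw [hA]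
    simp only
    rcases le_or_gt R ‖ζ‖ with h | h
    · rw [hwR ζ h, mul_zero]
    · have h1 : b * ‖ζ‖ ≤ 1 / 2 := by
        calc b * ‖ζ‖ ≤ 1 / (2 * R) * R := by gcongr
          _ = 1 / 2 := by field_simp
      rw [hφ.one (b • ζ) (by rw [norm_smul, Real.norm_of_nonneg hb0]; linarith),
        hφ.one ((2 * b) • ζ) (by
          rw [norm_smul, Real.norm_of_nonneg (by positivity)]; linarith), sub_self, zero_mul]
  have hz : ∫⁻ z : E n, ‖(0 : 𝓢(E n, ℂ)) z‖ₑ ^ p = 0 := by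
    simp [hp]
  have hAint : ∀ b : ℝ, 0 ≤ b → ∫⁻ z, ‖gA b z‖ₑ ^ p ≤ if 1 / (2 * R) < b then (C : ℝ≥0∞) else 0 := by
    intro b hb
    split_ifs with h
    · rcases le_or_gt b (2 / δ) with h1 | h1
      · exact hC (gA b) ((hA0' b ⟨hb, h1⟩).trans (by linarith))
          ((hA1' b ⟨hb, h1⟩).trans (by linarith))
      · rw [hAbig b h1, hz]
        exact zero_le
    · rw [hAsmall b hb (not_lt.1 h), hz]
  have hBint : ∀ b : ℝ, 0 ≤ b → ∫⁻ z, ‖gB b z‖ₑ ^ p ≤ (C : ℝ≥0∞) := by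
    intro b hb
    rcases le_or_gt b (2 / δ) with h1 | h1
    · exact hC (gB b) ((hB0' b ⟨hb, h1⟩).trans (by linarith))
        ((hB1' b ⟨hb, h1⟩).trans (by linarith))
    · rw [hBbig b h1, hz]
      exact zero_le
  have h2β : (1 : ℝ) < 2 ^ β := Real.one_lt_rpow (by norm_num) hβ
  have h2β0 : (0 : ℝ) < 2 ^ β - 1 := by linarith
  set D : ℝ := 1 + (4 * R) ^ β / (2 ^ β - 1) with hD
  have hD0 : 0 ≤ D := by positivity
  refine ⟨C * Real.toNNReal D, fun s j => match j with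
    | 0 => gB s⁻¹
    | j + 1 => gA ((2 : ℝ)⁻¹ ^ (j + 1) * s⁻¹), ?_, ?_⟩
  · intro s j ζ
    rcases j with _ | j
    · simp only [dyad]
      rw [hB]
    · simp only [dyad]
      rw [hA]
      simp only
      rw [smul_smul, smul_smul]
      congr 4
      rw [pow_succ]
      ring
  · intro s hs hs1
    have hterm : ∀ j : ℕ, ENNReal.ofReal ((2 : ℝ) ^ ((j : ℝ) * β)) *
        ∫⁻ z, ‖(match j with
          | 0 => gB s⁻¹
          | j + 1 => gA ((2 : ℝ)⁻¹ ^ (j + 1) * s⁻¹) : 𝓢(E n, ℂ)) z‖ₑ ^ p ≤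
        C * ((if j = 0 then 1 else 0) +
          (if (2 : ℝ) ^ j < 2 * R / s then ENNReal.ofReal ((2 : ℝ) ^ (j * β)) else 0)) := by
      intro j
      rcases j with _ | j
      · simp only [Nat.cast_zero, zero_mul, Real.rpow_zero, ENNReal.ofReal_one, one_mul, if_true]
        refine (hBint _ (by positivity)).trans ?_
        calc (C : ℝ≥0∞) = C * 1 := (mul_one _).symm
          _ ≤ _ := by
              gcongr
              exact le_self_add
      · simp only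
        refine (mul_le_mul_right (hAint _ (by positivity)) _).trans ?_
        rw [if_neg (Nat.succ_ne_zero j), zero_add]
        by_cases h : (2 : ℝ) ^ (j + 1) < 2 * R / s
        · rw [if_pos h]
          split_ifs
          · rw [mul_comm]
          · simp
        · rw [if_neg h, if_neg, mul_zero, mul_zero]
          intro h1
          apply h
          rw [lt_div_iff₀ hs]
          rw [div_lt_iff₀ (by positivity)] at h1
          have h3 : (2 : ℝ)⁻¹ ^ (j + 1) * s⁻¹ * (2 * R) = (2 * R) / (2 ^ (j + 1) * s) := by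
            rw [inv_pow]
            field_simp
          rw [h3, lt_div_iff₀ (by positivity), one_mul] at h1
          exact h1
    calc _ ≤ ∑' j : ℕ, C * ((if j = 0 then 1 else 0) +
          (if (2 : ℝ) ^ j < 2 * R / s then ENNReal.ofReal ((2 : ℝ) ^ (j * β)) else 0)) :=
          ENNReal.tsum_le_tsum hterm
      _ = C * ((∑' j : ℕ, if j = 0 then (1 : ℝ≥0∞) else 0) + ∑' j : ℕ,
          (if (2 : ℝ) ^ j < 2 * R / s then ENNReal.ofReal ((2 : ℝ) ^ (j * β)) else 0)) := by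
          rw [ENNReal.tsum_mul_left, ENNReal.tsum_add]
      _ ≤ C * (1 + ENNReal.ofReal ((2 * (2 * R / s)) ^ β / (2 ^ β - 1))) := by
          gcongr
          · rw [tsum_ite_eq]
          · exact geom_cut β hβ _ (by positivity)
      _ ≤ C * (ENNReal.ofReal D * ENNReal.ofReal (s ^ (-β))) := by
          gcongr
          rw [← ENNReal.ofReal_one, ← ENNReal.ofReal_add (by norm_num) (by positivity),
            ← ENNReal.ofReal_mul hD0]
          apply ENNReal.ofReal_le_ofReal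
          have h4 : (2 * (2 * R / s)) ^ β = (4 * R) ^ β * s ^ (-β) := by
            rw [Real.rpow_neg hs.le, ← Real.inv_rpow hs.le, ← Real.mul_rpow (by positivity)
              (by positivity)]
            congr 1
            rw [div_eq_mul_inv]
            ring
          have h5 : 1 ≤ s ^ (-β) := by
            rw [Real.rpow_neg hs.le]
            exact (one_le_inv₀ (by positivity)).2 (Real.rpow_le_one hs.le hs1 hβ.le)
          rw [h4, hD, add_mul, one_mul, mul_div_right_comm]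
          linarith
      _ = _ := by
          rw [ENNReal.coe_mul, mul_assoc]
          rfl

end Pool.Agent.TH969.BC
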