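import Pool.Agent.TH969.BC.BesselLower

open MeasureTheory SchwartzMap
open scoped ENNReal NNReal FourierTransform SchwartzMap RealInnerProductSpace

namespace Pool.Agent.TH969.BC

open Pool.Agent.Helper656.Cap

variable {n : ℕ}

/-- symbol of the pieces at the scales below one -/
noncomputable def symA (α s : ℝ) (ζ : E n) : ℂ :=
  (((s ^ 2 + (2 * Real.pi * ‖ζ‖) ^ 2) ^ (-(α / 2)) : ℝ) : ℂ) *
    (((beta ‖ζ‖ - beta (2 * ‖ζ‖) : ℝ)) : ℂ)

/-- symbol of the last piece -/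
noncomputable def symB (α b : ℝ) (ζ : E n) : ℂ :=
  (((1 + (2 * Real.pi * (b * ‖ζ‖)) ^ 2) ^ (-(α / 2)) : ℝ) : ℂ) * ((beta ‖ζ‖ : ℝ) : ℂ)

theorem contDiff_symA (α : ℝ) : ContDiff ℝ (⊤ : ℕ∞) (fun z : ℝ × E n => symA α z.1 z.2) := by
  have h1 : ContDiff ℝ (⊤ : ℕ∞) (fun ζ : E n => (((beta ‖ζ‖ - beta (2 * ‖ζ‖) : ℝ)) : ℂ)) := by
    apply Complex.ofRealCLM.contDiff.comp
    have h2 : (fun ζ : E n => beta (2 * ‖ζ‖)) = (fun ζ : E n => beta ‖ζ‖) ∘ fun ζ => (2 : ℝ) • ζ := by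
      ext ζ
      simp [norm_smul]
    have h3 : ContDiff ℝ (⊤ : ℕ∞) (fun ζ : E n => beta (2 * ‖ζ‖)) := by
      rw [h2]
      exact (contDiff_beta_norm ⊤).comp (contDiff_const_smul 2)
    exact (contDiff_beta_norm ⊤).sub h3
  exact contDiff_symbol (n := n) (-(α / 2)) _ h1 (1 / 2) (by norm_num) (fun ξ hξ => by
    rw [beta_eq_one (by rw [abs_of_nonneg (norm_nonneg _)]; linarith),
      beta_eq_one (by rw [abs_of_nonneg (by positivity)]; linarith)]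
    simp)

theorem contDiff_symB (α : ℝ) : ContDiff ℝ (⊤ : ℕ∞) (fun z : ℝ × E n => symB α z.1 z.2) := by
  unfold symB
  apply ContDiff.mul
  · apply Complex.ofRealCLM.contDiff.comp
    have h2 : (fun z : ℝ × E n => 1 + (2 * Real.pi * (z.1 * ‖z.2‖)) ^ 2) =
        fun z : ℝ × E n => 1 + (2 * Real.pi) ^ 2 * (z.1 ^ 2 * ‖z.2‖ ^ 2) := by
      ext z; ring
    have h1 : ContDiff ℝ (⊤ : ℕ∞) (fun z : ℝ × E n => 1 + (2 * Real.pi * (z.1 * ‖z.2‖)) ^ 2) := by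
      rw [h2]
      exact contDiff_const.add (contDiff_const.mul ((contDiff_fst.pow 2).mul
        (contDiff_snd.norm_sq ℝ)))
    rw [contDiff_iff_contDiffAt] at h1 ⊢
    intro z
    refine (h1 z).rpow_const_of_ne ?_
    positivity
  · apply Complex.ofRealCLM.contDiff.comp
    exact (contDiff_beta_norm ⊤).comp contDiff_snd

theorem symA_neg (α s : ℝ) (ζ : E n) : symA α s (-ζ) = symA α s ζ := by
  unfold symA
  rw [norm_neg]

theorem symB_neg (α s : ℝ) (ζ : E n) : symB α s (-ζ) = symB α s ζ := by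
  unfold symB
  rw [norm_neg]

theorem symA_zero (α s : ℝ) (ζ : E n) (h : 2 ≤ ‖ζ‖) : symA α s ζ = 0 := by
  unfold symA
  rw [beta_eq_zero (by nlinarith), beta_eq_zero (by nlinarith)]
  simp

theorem symB_zero (α s : ℝ) (ζ : E n) (h : 2 ≤ ‖ζ‖) : symB α s ζ = 0 := by
  unfold symB
  rw [beta_eq_zero (by nlinarith)]
  simp

/-- the chain estimate for Bessel potentials -/
theorem bessel_chain (α : ℝ) (hα : 0 < α) (N : ℕ) : ∃ C₁ : ℝ≥0, ∀ (f : 𝓢'(E n, ℂ))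
    (u : E n → ℝ), IsSmoothPotential α f u → ∀ x, 1 ≤ u x → ∃ t₀ : ℝ, 0 < t₀ ∧ ∀ t : ℝ, 0 < t →
      t < t₀ → ∃ K : ℕ, t * 2 ^ K ≤ 1 ∧ 1 ≤ C₁ * ∑ k ∈ Finset.range (K + 1),
        ENNReal.ofReal ((t * 2 ^ k) ^ α) *
          ⨅ y ∈ Metric.ball x (t * 2 ^ k), grandMaxLoc N f y := by
  obtain ⟨κA, hA, hAb⟩ := phys_family (n := n) (fun z : ℝ × E n => symA α z.1 z.2)
    (contDiff_symA α) 2 (fun a ζ h => symA_zero α a ζ h) 0 1
  obtain ⟨κB, hB, hBb⟩ := phys_family (n := n) (fun z : ℝ × E n => symB α z.1 z.2)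
    (contDiff_symB α) 2 (fun a ζ h => symB_zero α a ζ h) 1 2
  obtain ⟨CA, hCA, hadA⟩ := adapted_of_family N κA _ hAb
  obtain ⟨CB, hCB, hadB⟩ := adapted_of_family N κB _ hBb
  set C : ℝ := CA * 2 ^ N + CB * 2 ^ N * 2 ^ α with hC
  have hC0 : 0 < C := by positivity
  refine ⟨Real.toNNReal (2 * C), fun f u hu x hx => ?_⟩
  rw [isSmoothPotential_iff] at hu
  obtain ⟨t₀, ht₀, hlim⟩ := local_limit (besselPot α f) u hu.1.continuous hu.2 x hx
  refine ⟨min t₀ 1, by positivity, fun t ht htt => ?_⟩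
  have htt0 : t < t₀ := htt.trans_le (min_le_left _ _)
  have ht1 : t < 1 := htt.trans_le (min_le_right _ _)
  obtain ⟨K, hK1, hK2⟩ := exists_nat_pow_near (x := 1 / t) (y := 2)
    (by rw [le_div_iff₀ ht]; linarith) (by norm_num)
  have hK1' : t * 2 ^ K ≤ 1 := by
    rw [le_div_iff₀ ht] at hK1
    linarith
  have hK2' : 1 < t * 2 ^ (K + 1) := by
    rw [div_lt_iff₀ ht] at hK2
    linarith
  refine ⟨K, hK1', ?_⟩
  have hs : ∀ k : ℕ, 0 < t * 2 ^ k := fun k => by positivity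
  have hs1 : ∀ k ≤ K, t * 2 ^ k ≤ 1 := by
    intro k hk
    refine le_trans ?_ hK1'
    gcongr
    norm_num
  set ψ : 𝓢(E n, ℂ) := 𝓕 (bmp : 𝓢(E n, ℂ)) with hψ
  set G : E n → ℂ := fun ξ => (((1 + (2 * Real.pi * ‖ξ‖) ^ 2) ^ (-(α / 2)) : ℝ) : ℂ) with hG
  have hGt : G.HasTemperateGrowth := temperate_bessel (n := n) (-(α / 2))
  set V : 𝓢(E n, ℂ) := 𝓕 (SchwartzMap.smulLeftCLM ℂ G (𝓕⁻ (dil x t ht ψ))) with hV
  have hUV : besselPot α f (dil x t ht ψ) = f V := by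
    unfold besselPot
    rw [TemperedDistribution.fourierMultiplierCLM_apply_apply]
  have hVdec : V = (∑ k ∈ Finset.range K, (((t * 2 ^ k) ^ α : ℝ) : ℂ) •
      dil x (t * 2 ^ k) (hs k) (κA (t * 2 ^ k))) +
        dil x (t * 2 ^ K) (hs K) (κB (1 / (t * 2 ^ K))) := by
    have hinj : ∀ v w : 𝓢(E n, ℂ), (∀ ξ, 𝓕⁻ v ξ = 𝓕⁻ w ξ) → v = w := by
      intro v w hvw
      have h1 : (𝓕⁻ v : 𝓢(E n, ℂ)) = 𝓕⁻ w := by
        ext ξ
        exact hvw ξ
      have h2 := congrArg (fun v : 𝓢(E n, ℂ) => 𝓕 v) h1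
      simpa only [FourierTransform.fourier_fourierInv_eq] using h2
    apply hinj
    intro ξ
    have h1 : 𝓕⁻ V ξ = G ξ * (Complex.exp (2 * Real.pi * ⟪x, ξ⟫ * Complex.I) *
        ((beta (t * ‖ξ‖) : ℝ) : ℂ)) := by
      rw [hV, FourierTransform.fourierInv_fourier_eq, SchwartzMap.smulLeftCLM_apply_apply hGt,
        smul_eq_mul, fourierInv_dil, hψ, FourierTransform.fourierInv_fourier_eq, bmp_apply,
        norm_smul, Real.norm_of_nonneg ht.le]
    have h2 : 𝓕⁻ ((∑ k ∈ Finset.range K, (((t * 2 ^ k) ^ α : ℝ) : ℂ) •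
        dil x (t * 2 ^ k) (hs k) (κA (t * 2 ^ k))) +
        dil x (t * 2 ^ K) (hs K) (κB (1 / (t * 2 ^ K)))) ξ =
        (∑ k ∈ Finset.range K, (((t * 2 ^ k) ^ α : ℝ) : ℂ) *
          (Complex.exp (2 * Real.pi * ⟪x, ξ⟫ * Complex.I) *
            symA α (t * 2 ^ k) ((t * 2 ^ k) • ξ))) +
        Complex.exp (2 * Real.pi * ⟪x, ξ⟫ * Complex.I) *
          symB α (1 / (t * 2 ^ K)) ((t * 2 ^ K) • ξ) := by
      have h3 : 𝓕⁻ ((∑ k ∈ Finset.range K, (((t * 2 ^ k) ^ α : ℝ) : ℂ) •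
        dil x (t * 2 ^ k) (hs k) (κA (t * 2 ^ k))) +
        dil x (t * 2 ^ K) (hs K) (κB (1 / (t * 2 ^ K)))) =
        (∑ k ∈ Finset.range K, (((t * 2 ^ k) ^ α : ℝ) : ℂ) •
          𝓕⁻ (dil x (t * 2 ^ k) (hs k) (κA (t * 2 ^ k)))) +
        𝓕⁻ (dil x (t * 2 ^ K) (hs K) (κB (1 / (t * 2 ^ K)))) := by
        simp
      rw [h3, add_apply, sum_apply]
      congr 1
      · refine Finset.sum_congr rfl fun k _ => ?_
        rw [smul_apply, smul_eq_mul, fourierInv_dil_radial (κA (t * 2 ^ k)) (symA α (t * 2 ^ k))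
          (fun ζ => hA _ ζ) (symA_neg α _)]
      · rw [fourierInv_dil_radial (κB (1 / (t * 2 ^ K))) (symB α (1 / (t * 2 ^ K)))
          (fun ζ => hB _ ζ) (symB_neg α _)]
    rw [h1, h2]
    have hpiece : ∀ k : ℕ, (((t * 2 ^ k) ^ α : ℝ) : ℂ) *
          (Complex.exp (2 * Real.pi * ⟪x, ξ⟫ * Complex.I) *
            symA α (t * 2 ^ k) ((t * 2 ^ k) • ξ)) =
        G ξ * Complex.exp (2 * Real.pi * ⟪x, ξ⟫ * Complex.I) *
          (((beta (t * 2 ^ k * ‖ξ‖) : ℝ) : ℂ) - ((beta (t * 2 ^ (k + 1) * ‖ξ‖) : ℝ) : ℂ)) := by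
      intro k
      have hsk := hs k
      set s := t * 2 ^ k with hsdef
      have h4 := symbol_scale (-α) s hsk ξ
      rw [neg_div] at h4
      unfold symA
      rw [h4, norm_smul, Real.norm_of_nonneg hsk.le]
      have h5 : ((s ^ α : ℝ) : ℂ) * ((s ^ (-α) : ℝ) : ℂ) = 1 := by
        rw [← Complex.ofReal_mul, ← Real.rpow_add hsk, add_neg_cancel, Real.rpow_zero,
          Complex.ofReal_one]
      have h6 : t * 2 ^ (k + 1) * ‖ξ‖ = 2 * (s * ‖ξ‖) := by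
        rw [hsdef, pow_succ]
        ring
      rw [h6, hG]
      simp only
      rw [Complex.ofReal_mul, Complex.ofReal_sub]
      calc _ = (((s ^ α : ℝ) : ℂ) * ((s ^ (-α) : ℝ) : ℂ)) *
            ((((1 + (2 * Real.pi * ‖ξ‖) ^ 2) ^ (-(α / 2)) : ℝ) : ℂ) *
              Complex.exp (2 * Real.pi * ⟪x, ξ⟫ * Complex.I) *
              (((beta (s * ‖ξ‖) : ℝ) : ℂ) - ((beta (2 * (s * ‖ξ‖)) : ℝ) : ℂ))) := by ring
        _ = _ := by rw [h5, one_mul]
    simp only [hpiece]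
    rw [← Finset.mul_sum]
    have htel : ∑ k ∈ Finset.range K, (((beta (t * 2 ^ k * ‖ξ‖) : ℝ) : ℂ) -
        ((beta (t * 2 ^ (k + 1) * ‖ξ‖) : ℝ) : ℂ)) =
        ((beta (t * 2 ^ 0 * ‖ξ‖) : ℝ) : ℂ) - ((beta (t * 2 ^ K * ‖ξ‖) : ℝ) : ℂ) :=
      Finset.sum_range_sub' (fun k => ((beta (t * 2 ^ k * ‖ξ‖) : ℝ) : ℂ)) K
    rw [htel, pow_zero, mul_one]
    have hlast : symB α (1 / (t * 2 ^ K)) ((t * 2 ^ K) • ξ) =
        G ξ * ((beta (t * 2 ^ K * ‖ξ‖) : ℝ) : ℂ) := by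
      unfold symB
      have hsK := hs K
      rw [norm_smul, Real.norm_of_nonneg hsK.le]
      have h7 : 1 / (t * 2 ^ K) * (t * 2 ^ K * ‖ξ‖) = ‖ξ‖ := by
        field_simp
      rw [h7]
    rw [hlast]
    ring
  have hhalf : ENNReal.ofReal (1 / 2) ≤ ‖f V‖ₑ := by
    rw [← hUV, ← ofReal_norm]
    exact ENNReal.ofReal_le_ofReal (hlim t ht htt0)
  set h : ℕ → ℝ≥0∞ := fun k => ENNReal.ofReal ((t * 2 ^ k) ^ α) *
          ⨅ y ∈ Metric.ball x (t * 2 ^ k), grandMaxLoc N f y with hh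
  have hsum : ‖f V‖ₑ ≤ ENNReal.ofReal C * ∑ k ∈ Finset.range (K + 1), h k := by
    rw [hVdec, map_add, map_sum, Finset.sum_range_succ, mul_add]
    refine (enorm_add_le _ _).trans (add_le_add ?_ ?_)
    · refine (enorm_sum_le _ _).trans ?_
      rw [Finset.mul_sum]
      refine Finset.sum_le_sum fun k hk => ?_
      have hkK : k ≤ K := (Finset.mem_range.1 hk).le
      rw [map_smul, enorm_smul]
      have h1 := enorm_dil_le hCA (hadA (t * 2 ^ k) ⟨(hs k).le, hs1 k hkK⟩) x (hs k) (hs1 k hkK) f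
      have h2 : ‖(((t * 2 ^ k) ^ α : ℝ) : ℂ)‖ₑ = ENNReal.ofReal ((t * 2 ^ k) ^ α) := by
        rw [← ofReal_norm, Complex.norm_real, Real.norm_of_nonneg (by positivity)]
      rw [h2]
      calc _ ≤ ENNReal.ofReal ((t * 2 ^ k) ^ α) * (ENNReal.ofReal (CA * 2 ^ N) *
            ⨅ y ∈ Metric.ball x (t * 2 ^ k), grandMaxLoc N f y) := mul_le_mul_right h1 _
        _ = ENNReal.ofReal (CA * 2 ^ N) * h k := by rw [hh]; ring
        _ ≤ _ := by
            gcongr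
            rw [hC]
            have : 0 ≤ CB * 2 ^ N * 2 ^ α := by positivity
            linarith
    · have hb : 1 / (t * 2 ^ K) ∈ Set.Icc (1 : ℝ) 2 := by
        constructor
        · rw [le_div_iff₀ (hs K)]
          linarith
        · rw [div_le_iff₀ (hs K)]
          rw [pow_succ] at hK2'
          linarith
      have h1 := enorm_dil_le hCB (hadB _ hb) x (hs K) hK1' f
      refine h1.trans ?_
      have h3 : (1 : ℝ) ≤ 2 ^ α * (t * 2 ^ K) ^ α := by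
        rw [← Real.mul_rpow (by norm_num) (hs K).le]
        apply Real.one_le_rpow _ hα.le
        rw [pow_succ] at hK2'
        linarith
      calc ENNReal.ofReal (CB * 2 ^ N) * ⨅ y ∈ Metric.ball x (t * 2 ^ K), grandMaxLoc N f y
          ≤ ENNReal.ofReal (CB * 2 ^ N * (2 ^ α * (t * 2 ^ K) ^ α)) *
            ⨅ y ∈ Metric.ball x (t * 2 ^ K), grandMaxLoc N f y :=
            mul_le_mul_left (ENNReal.ofReal_le_ofReal
              (le_mul_of_one_le_right (by positivity) h3)) _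
        _ = ENNReal.ofReal (CB * 2 ^ N * 2 ^ α) * h K := by
            rw [hh]
            simp only
            rw [← mul_assoc, ← mul_assoc, ← ENNReal.ofReal_mul (by positivity)]
        _ ≤ _ := by
            gcongr
            rw [hC]
            have : 0 ≤ CA * 2 ^ N := by positivity
            linarith
  calc (1 : ℝ≥0∞) = 2 * ENNReal.ofReal (1 / 2) := by
        rw [← ENNReal.ofReal_ofNat, ← ENNReal.ofReal_mul (by norm_num)]
        norm_num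
    _ ≤ 2 * (ENNReal.ofReal C * ∑ k ∈ Finset.range (K + 1), h k) := by
        gcongr
        exact hhalf.trans hsum
    _ = _ := by
        rw [← mul_assoc, ← ENNReal.ofReal_ofNat, ← ENNReal.ofReal_mul (by norm_num)]
        rfl

end Pool.Agent.TH969.BC
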