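import Pool.Agent.TH969.BC.LocalLimit

open MeasureTheory SchwartzMap
open scoped ENNReal NNReal FourierTransform SchwartzMap RealInnerProductSpace

namespace Pool.Agent.TH969.BC

open Pool.Agent.Helper656.Cap

variable {n : ℕ}

theorem adapted_of_family (N : ℕ) (g : ℝ → 𝓢(E n, ℂ)) (S : Set ℝ)
    (hg : ∀ k l : ℕ, ∃ C : ℝ, 0 ≤ C ∧ ∀ a ∈ S, SchwartzMap.seminorm ℝ k l (g a) ≤ C) :
    ∃ C : ℝ, 0 < C ∧ ∀ a ∈ S, AdaptedC N 0 1 C (g a) := by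
  choose D hD0 hD using hg
  refine ⟨1 + ∑ k ∈ Finset.range (N + 1), ∑ l ∈ Finset.range (N + 1), D k l, by
    have : 0 ≤ ∑ k ∈ Finset.range (N + 1), ∑ l ∈ Finset.range (N + 1), D k l :=
      Finset.sum_nonneg fun k _ => Finset.sum_nonneg fun l _ => hD0 k l
    linarith, fun a ha => ?_⟩
  intro k hk l hl y
  rw [div_one, sub_zero, one_pow, one_mul]
  calc ‖y‖ ^ k * ‖iteratedFDeriv ℝ l (g a) y‖ ≤ SchwartzMap.seminorm ℝ k l (g a) :=
        le_seminorm ℝ k l (g a) y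
    _ ≤ D k l := hD k l a ha
    _ ≤ ∑ l ∈ Finset.range (N + 1), D k l :=
      Finset.single_le_sum (f := fun l => D k l)
        (fun l _ => hD0 k l) (Finset.mem_range.2 (by omega))
    _ ≤ ∑ k ∈ Finset.range (N + 1), ∑ l ∈ Finset.range (N + 1), D k l :=
      Finset.single_le_sum
        (f := fun k => ∑ l ∈ Finset.range (N + 1), D k l)
        (fun k _ => Finset.sum_nonneg fun l _ => hD0 k l) (Finset.mem_range.2 (by omega))
    _ ≤ _ := by linarith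

theorem le_grandMaxLoc {N : ℕ} {f : 𝓢'(E n, ℂ)} {x : E n} {t : ℝ} (ht : 0 < t) (ht1 : t ≤ 1)
    {ψ : 𝓢(E n, ℂ)} (hψ : Adapted N x t ψ) : ‖f ψ‖ₑ ≤ grandMaxLoc N f x := by
  unfold grandMaxLoc
  exact le_iSup_of_le t (le_iSup_of_le ⟨ht, ht1⟩ (le_iSup_of_le ψ (le_iSup_of_le hψ le_rfl)))

theorem grandMaxLoc_le (N : ℕ) (f : 𝓢'(E n, ℂ)) (x : E n) :
    grandMaxLoc N f x ≤ grandMax N f x := by
  unfold grandMaxLoc
  refine iSup_le fun t => iSup_le fun ht => iSup_le fun ψ => iSup_le fun hψ => ?_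
  exact le_grandMax ht.1 hψ

theorem enorm_le_loc {N : ℕ} {x : E n} {t C : ℝ} {ψ : 𝓢(E n, ℂ)}
    (hψ : AdaptedC N x t C ψ) (ht : 0 < t) (ht1 : t ≤ 1) (hC : 0 < C) (f : 𝓢'(E n, ℂ)) :
    ‖f ψ‖ₑ ≤ ENNReal.ofReal C * grandMaxLoc N f x := by
  have h1 : Adapted N x t (((C⁻¹ : ℝ) : ℂ) • ψ) := by
    have := hψ.smul ((C⁻¹ : ℝ) : ℂ)
    rwa [Complex.norm_real, Real.norm_of_nonneg (inv_nonneg.2 hC.le), inv_mul_cancel₀ hC.ne'] at this
  have h2 := le_grandMaxLoc (f := f) ht ht1 h1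
  rw [map_smul, enorm_smul] at h2
  have h3 : ‖((C⁻¹ : ℝ) : ℂ)‖ₑ = ENNReal.ofReal C⁻¹ := by
    rw [← ofReal_norm, Complex.norm_real, Real.norm_of_nonneg (inv_nonneg.2 hC.le)]
  rw [h3] at h2
  calc ‖f ψ‖ₑ = ENNReal.ofReal C * (ENNReal.ofReal C⁻¹ * ‖f ψ‖ₑ) := by
        rw [← mul_assoc, ← ENNReal.ofReal_mul hC.le, mul_inv_cancel₀ hC.ne', ENNReal.ofReal_one,
          one_mul]
    _ ≤ _ := by gcongr

theorem isOpen_lt_grandMaxLoc (N : ℕ) (h : 𝓢'(E n, ℂ)) (c : ℝ≥0∞) :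
    IsOpen {x | c < grandMaxLoc N h x} := by
  rw [isOpen_iff_mem_nhds]
  intro x hx
  simp only [Set.mem_ofPred_eq, grandMaxLoc, lt_iSup_iff] at hx
  obtain ⟨t, ⟨ht, ht1⟩, ψ, hψ, hlt⟩ := hx
  have h1 : Filter.Tendsto (fun x' : E n => ENNReal.ofReal ((1 + ‖x - x'‖ / t) ^ N) * c)
      (nhds x) (nhds (ENNReal.ofReal ((1 + ‖x - x‖ / t) ^ N) * c)) := by
    apply ENNReal.Tendsto.mul_const
    · apply ENNReal.tendsto_ofReal
      have : Continuous fun x' : E n => (1 + ‖x - x'‖ / t) ^ N := by fun_prop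
      exact this.tendsto x
    · left
      simp
  have h2 : ∀ᶠ x' in nhds x, ENNReal.ofReal ((1 + ‖x - x'‖ / t) ^ N) * c < ‖h ψ‖ₑ := by
    apply h1.eventually_lt_const
    simpa using hlt
  filter_upwards [h2] with x' hx'
  have h3 := enorm_le_loc (hψ.adaptedC.shift ht x') ht ht1 (by positivity) h
  rw [one_mul] at h3
  have h4 := hx'.trans_le h3
  by_contra hcon
  simp only [not_lt] at hcon
  exact absurd h4 (not_lt.2 (by gcongr))

theorem measurable_grandMaxLoc (N : ℕ) (h : 𝓢'(E n, ℂ)) : Measurable (grandMaxLoc N h) :=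
  measurable_of_Ioi fun c => (isOpen_lt_grandMaxLoc N h c).measurableSet

/-- a dilate of a bounded family paired with a distribution -/
theorem enorm_dil_le {N : ℕ} {C : ℝ} (hC : 0 < C) {κ : 𝓢(E n, ℂ)} (hκ : AdaptedC N 0 1 C κ)
    (x : E n) {s : ℝ} (hs : 0 < s) (hs1 : s ≤ 1) (f : 𝓢'(E n, ℂ)) :
    ‖f (dil x s hs κ)‖ₑ ≤ ENNReal.ofReal (C * 2 ^ N) *
      ⨅ y ∈ Metric.ball x s, grandMaxLoc N f y := by
  rw [ENNReal.mul_iInf_of_ne (by simpa using by positivity) (by simp)]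
  refine le_iInf fun y => ?_
  rw [ENNReal.mul_iInf_of_ne (by simpa using by positivity) (by simp)]
  refine le_iInf fun hy => ?_
  rw [Metric.mem_ball, dist_eq_norm, norm_sub_rev] at hy
  have h1 := (hκ.dil x hs).shift hs y
  have h2 : AdaptedC N y s (C * 2 ^ N) (dil x s hs κ) := by
    refine h1.mono ?_
    gcongr
    have : ‖x - y‖ / s ≤ 1 := by
      rw [div_le_one hs]
      exact hy.le
    linarith
  exact enorm_le_loc h2 hs hs1 (by positivity) f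

theorem fourierInv_dil_radial (κ : 𝓢(E n, ℂ)) (Φ : E n → ℂ) (hκ : ∀ ζ, 𝓕 κ ζ = Φ ζ)
    (hΦ : ∀ ζ, Φ (-ζ) = Φ ζ) (x : E n) {s : ℝ} (hs : 0 < s) (ξ : E n) :
    𝓕⁻ (dil x s hs κ) ξ = Complex.exp (2 * Real.pi * ⟪x, ξ⟫ * Complex.I) * Φ (s • ξ) := by
  rw [fourierInv_dil, fourierInv_neg, hκ, hΦ]

end Pool.Agent.TH969.BC
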