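import Pool.Agent.TH969.BC.Defs

/-!
The Bessel potential of a tempered distribution as a Fourier multiplier operator.
-/

open MeasureTheory SchwartzMap
open scoped ENNReal NNReal FourierTransform SchwartzMap RealInnerProductSpace

namespace Pool.Agent.TH969.BC

open Pool.Agent.Helper656.Cap

variable {n : ℕ}

theorem temperate_bessel (γ : ℝ) :
    (fun ξ : E n => (((1 + (2 * Real.pi * ‖ξ‖) ^ 2) ^ γ : ℝ) : ℂ)).HasTemperateGrowth := by
  have h1 : (fun ξ : E n => (1 + ‖(2 * Real.pi) • ξ‖ ^ 2) ^ γ).HasTemperateGrowth :=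
    (Function.hasTemperateGrowth_one_add_norm_sq_rpow (H := E n) γ).comp
      (((2 * Real.pi) • ContinuousLinearMap.id ℝ (E n)).hasTemperateGrowth)
  have h2 : (fun ξ : E n => (1 + ‖(2 * Real.pi) • ξ‖ ^ 2) ^ γ) =
      fun ξ : E n => (1 + (2 * Real.pi * ‖ξ‖) ^ 2) ^ γ := by
    ext ξ
    rw [norm_smul, Real.norm_of_nonneg (by have := Real.pi_pos; positivity)]
  rw [h2] at h1
  exact Function.HasTemperateGrowth.comp Function.Complex.hasTemperateGrowth_ofReal h1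

/-- The Bessel potential `G_α * f` of a tempered distribution: the Fourier multiplier
`(1 + 4π²|ξ|²)^{-α/2}`, which is the Fourier transform of the Bessel kernel `G_α`. -/
noncomputable def besselPot (α : ℝ) (f : 𝓢'(E n, ℂ)) : 𝓢'(E n, ℂ) :=
  TemperedDistribution.fourierMultiplierCLM ℂ
    (fun ξ : E n => (((1 + (2 * Real.pi * ‖ξ‖) ^ 2) ^ (-(α / 2)) : ℝ) : ℂ)) f

theorem fourier_apply_neg (f : 𝓢(E n, ℂ)) (ξ : E n) : 𝓕 f ξ = 𝓕⁻ f (-ξ) := by
  rw [fourierInv_coe, fourier_coe, Real.fourierInv_eq_fourier_neg, neg_neg]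

theorem isBesselConv_mul (α : ℝ) (ψ : 𝓢(E n, ℂ)) : IsBesselConv α ψ
    (𝓕 (SchwartzMap.smulLeftCLM ℂ (fun ξ : E n =>
      (((1 + (2 * Real.pi * ‖ξ‖) ^ 2) ^ (-(α / 2)) : ℝ) : ℂ)) (𝓕⁻ ψ))) := by
  intro ξ
  rw [fourier_apply_neg, FourierTransform.fourierInv_fourier_eq,
    SchwartzMap.smulLeftCLM_apply_apply (temperate_bessel (n := n) (-(α / 2))), smul_eq_mul,
    norm_neg, fourier_apply_neg ψ]

theorem isBesselConv_unique {α : ℝ} {ψ V W : 𝓢(E n, ℂ)} (hV : IsBesselConv α ψ V)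
    (hW : IsBesselConv α ψ W) : V = W := by
  have h1 : (𝓕 V : 𝓢(E n, ℂ)) = 𝓕 W := by
    ext ξ
    rw [hV ξ, hW ξ]
  have h2 := congrArg (fun v : 𝓢(E n, ℂ) => 𝓕⁻ v) h1
  simpa only [FourierTransform.fourierInv_fourier_eq] using h2

theorem besselPot_apply {α : ℝ} {ψ V : 𝓢(E n, ℂ)} (hV : IsBesselConv α ψ V) (f : 𝓢'(E n, ℂ)) :
    besselPot α f ψ = f V := by
  unfold besselPot
  rw [TemperedDistribution.fourierMultiplierCLM_apply_apply,
    isBesselConv_unique hV (isBesselConv_mul α ψ)]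

theorem isSmoothPotential_iff (α : ℝ) (f : 𝓢'(E n, ℂ)) (u : E n → ℝ) :
    IsSmoothPotential α f u ↔ ContDiff ℝ (⊤ : ℕ∞) u ∧
      ∀ ψ : 𝓢(E n, ℂ), HasCompactSupport ψ → besselPot α f ψ = ∫ x, ((u x : ℝ) : ℂ) * ψ x := by
  constructor
  · rintro ⟨h1, h2⟩
    refine ⟨h1, fun ψ hψ => ?_⟩
    rw [besselPot_apply (isBesselConv_mul α ψ) f]
    exact h2 ψ _ hψ (isBesselConv_mul α ψ)
  · rintro ⟨h1, h2⟩
    refine ⟨h1, fun ψ V hψ hV => ?_⟩
    rw [← besselPot_apply hV f]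
    exact h2 ψ hψ

end Pool.Agent.TH969.BC
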