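import Pool.Agent.TH969.BC.Approx
import Pool.Agent.TH969.BC.Potential

open MeasureTheory SchwartzMap
open scoped ENNReal NNReal FourierTransform SchwartzMap RealInnerProductSpace

namespace Pool.Agent.TH969.BC

open Pool.Agent.Helper656.Cap

variable {n : ℕ}

/-- the symbol `(s² + 4π²|ζ|²)^γ g(ζ)`, `g` vanishing near the origin, is jointly smooth -/
theorem contDiff_symbol (γ : ℝ) (g : E n → ℂ) (hg : ContDiff ℝ (⊤ : ℕ∞) g) (δ : ℝ) (hδ : 0 < δ)
    (h0 : ∀ ξ, ‖ξ‖ ≤ δ → g ξ = 0) :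
    ContDiff ℝ (⊤ : ℕ∞) (fun z : ℝ × E n =>
      (((z.1 ^ 2 + (2 * Real.pi * ‖z.2‖) ^ 2) ^ γ : ℝ) : ℂ) * g z.2) := by
  rw [contDiff_iff_contDiffAt]
  rintro ⟨s, ξ⟩
  rcases eq_or_ne ξ 0 with rfl | hξ
  · have : (fun z : ℝ × E n => (((z.1 ^ 2 + (2 * Real.pi * ‖z.2‖) ^ 2) ^ γ : ℝ) : ℂ) * g z.2)
        =ᶠ[nhds (s, 0)] fun _ => 0 := by
      have h1 : ∀ᶠ z : ℝ × E n in nhds (s, 0), z.2 ∈ Metric.ball (0 : E n) δ :=
        (continuous_snd.tendsto (s, (0 : E n))).eventually (Metric.ball_mem_nhds (0 : E n) hδ)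
      filter_upwards [h1] with z hz
      rw [Metric.mem_ball, dist_zero_right] at hz
      rw [h0 z.2 hz.le, mul_zero]
    exact contDiffAt_const.congr_of_eventuallyEq this
  · apply ContDiffAt.mul
    · apply Complex.ofRealCLM.contDiff.contDiffAt.comp
      have h1 : ContDiffAt ℝ (⊤ : ℕ∞) (fun z : ℝ × E n => z.1 ^ 2 + (2 * Real.pi * ‖z.2‖) ^ 2)
          (s, ξ) := by
        have h2 : (fun z : ℝ × E n => z.1 ^ 2 + (2 * Real.pi * ‖z.2‖) ^ 2) =
            fun z : ℝ × E n => z.1 ^ 2 + (2 * Real.pi) ^ 2 * ‖z.2‖ ^ 2 := by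
          ext z; ring
        rw [h2]
        exact ((contDiff_fst.pow 2).add (contDiff_const.mul (contDiff_snd.norm_sq ℝ))).contDiffAt
      refine h1.rpow_const_of_ne ?_
      have h3 : 0 < ‖ξ‖ := norm_pos_iff.2 hξ
      have h4 := Real.pi_pos
      positivity
    · exact hg.contDiffAt.comp (s, ξ) contDiffAt_snd

/-- finite combinations of dilates of a family -/
noncomputable def combF (T : Finset (ℕ × Cube n)) (a : ℕ × Cube n → ℝ) (f : ℝ → 𝓢(E n, ℂ)) :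
    𝓢(E n, ℂ) :=
  ∑ i ∈ T, ((a i : ℝ) : ℂ) • dil (Cube.center i.2) (Cube.side i.2) (side_pos i.2)
    (f (Cube.side i.2))

theorem combF_apply (T : Finset (ℕ × Cube n)) (a : ℕ × Cube n → ℝ) (f : ℝ → 𝓢(E n, ℂ)) (y : E n) :
    combF T a f y = ∑ i ∈ T, ((a i : ℝ) : ℂ) *
      dil (Cube.center i.2) (Cube.side i.2) (side_pos i.2) (f (Cube.side i.2)) y := by
  simp [combF]

theorem fourier_combF (T : Finset (ℕ × Cube n)) (a : ℕ × Cube n → ℝ) (f : ℝ → 𝓢(E n, ℂ))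
    (ξ : E n) :
    𝓕 (combF T a f) ξ = ∑ i ∈ T, ((a i : ℝ) : ℂ) *
      (Complex.exp (-(2 * Real.pi * ⟪Cube.center i.2, ξ⟫ * Complex.I)) *
        𝓕 (f (Cube.side i.2)) (Cube.side i.2 • ξ)) := by
  have h1 : 𝓕 (combF T a f) = ∑ i ∈ T, ((a i : ℝ) : ℂ) •
      𝓕 (dil (Cube.center i.2) (Cube.side i.2) (side_pos i.2) (f (Cube.side i.2))) := by
    simp [combF]
  rw [h1, sum_apply]
  refine Finset.sum_congr rfl fun i _ => ?_
  rw [smul_apply, fourier_dil, smul_eq_mul]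

theorem besselPot_toDist (α : ℝ) (h u : 𝓢(E n, ℂ))
    (hu : ∀ ξ, 𝓕 u ξ = (((1 + (2 * Real.pi * ‖ξ‖) ^ 2) ^ (-(α / 2)) : ℝ) : ℂ) * 𝓕 h ξ) :
    besselPot α (toDist h) = toDist u := by
  have h1 := TemperedDistribution.fourierMultiplierCLM_toTemperedDistributionCLM_eq
    (temperate_bessel (n := n) (-(α / 2))) h
  have h2 : SchwartzMap.fourierMultiplierCLM ℂ
      (fun ξ : E n => (((1 + (2 * Real.pi * ‖ξ‖) ^ 2) ^ (-(α / 2)) : ℝ) : ℂ)) h = u := by
    rw [SchwartzMap.fourierMultiplierCLM_apply]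
    have h3 : SchwartzMap.smulLeftCLM ℂ
        (fun ξ : E n => (((1 + (2 * Real.pi * ‖ξ‖) ^ 2) ^ (-(α / 2)) : ℝ) : ℂ)) (𝓕 h) = 𝓕 u := by
      ext ξ
      rw [SchwartzMap.smulLeftCLM_apply_apply (temperate_bessel (n := n) (-(α / 2))), hu,
        smul_eq_mul]
    rw [h3, FourierTransform.fourierInv_fourier_eq]
  rw [h2] at h1
  exact h1

theorem symbol_scale (γ s : ℝ) (hs : 0 < s) (ξ : E n) :
    (s ^ 2 + (2 * Real.pi * ‖s • ξ‖) ^ 2) ^ (γ / 2) =
      s ^ γ * (1 + (2 * Real.pi * ‖ξ‖) ^ 2) ^ (γ / 2) := by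
  have h1 : s ^ 2 + (2 * Real.pi * ‖s • ξ‖) ^ 2 = s ^ 2 * (1 + (2 * Real.pi * ‖ξ‖) ^ 2) := by
    rw [norm_smul, Real.norm_of_nonneg hs.le]
    ring
  rw [h1, Real.mul_rpow (by positivity) (by positivity), ← Real.rpow_natCast s 2,
    ← Real.rpow_mul hs.le]
  congr 2
  push_cast
  ring

theorem besselCap_eq_zero (hn : 1 ≤ n) (α p : ℝ) (hα : 0 < α) (hp : 0 < p) (hp1 : p ≤ 1)
    (hαp : α * p < n) : ∃ N₀ : ℕ, ∀ N ≥ N₀, ∀ K : Set (E n), IsCompact K →
      hausdorffContent (n - α * p) K = 0 → besselCap N α p K = 0 := by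
  have hαp0 : 0 < α * p := mul_pos hα hp
  obtain ⟨w, R, δ, hδ, hR0, hw0, hwR, hwim, happ⟩ := exists_approx (n := n) hn (n - α * p) p
    (by linarith) (by linarith) hp hp1
  obtain ⟨L, hL⟩ := exists_nat_gt ((n : ℝ) / p)
  have hLp : (n : ℝ) < L * p := by rwa [div_lt_iff₀ hp] at hL
  have hwc : HasCompactSupport (𝓕 w : 𝓢(E n, ℂ)) := by
    refine HasCompactSupport.intro (isCompact_closedBall (0 : E n) R) fun ζ hζ => ?_
    rw [Metric.mem_closedBall, dist_zero_right, not_le] at hζ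
    exact hwR ζ hζ.le
  obtain ⟨f₂, hf₂⟩ := exists_mult (𝓕 w) hwc δ hδ hw0 (-(2 * L : ℕ))
  obtain ⟨η, hη, hηb⟩ := phys_family (n := n) (fun z : ℝ × E n =>
      (((z.1 ^ 2 + (2 * Real.pi * ‖z.2‖) ^ 2) ^ (α / 2) : ℝ) : ℂ) * 𝓕 w z.2)
    (contDiff_symbol (n := n) (α / 2) (fun ξ => (𝓕 w : 𝓢(E n, ℂ)) ξ)
      ((𝓕 w : 𝓢(E n, ℂ)).smooth ⊤) δ hδ hw0) R
    (fun a ζ h => by simp only; rw [hwR ζ h, mul_zero]) 0 1
  obtain ⟨f, hf, hfb⟩ := phys_family (n := n) (fun z : ℝ × E n =>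
      (((z.1 ^ 2 + (2 * Real.pi * ‖z.2‖) ^ 2) ^ (α / 2) : ℝ) : ℂ) * 𝓕 f₂ z.2)
    (contDiff_symbol (n := n) (α / 2) (fun ξ => (𝓕 f₂ : 𝓢(E n, ℂ)) ξ)
      ((𝓕 f₂ : 𝓢(E n, ℂ)).smooth ⊤) δ hδ
      (fun ξ h => by rw [hf₂, hw0 ξ h, mul_zero])) R
    (fun a ζ h => by simp only; rw [hf₂, hwR ζ h, mul_zero, mul_zero]) 0 1
  obtain ⟨B0, hB0, hB0'⟩ := hηb 0 0
  obtain ⟨B1, hB1, hB1'⟩ := hηb L 0
  obtain ⟨D0, hD0, hD0'⟩ := hfb 0 0
  obtain ⟨D1, hD1, hD1'⟩ := hfb (L + n + 1) 0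
  obtain ⟨M₁, hM₁, hM₁'⟩ := integral_decay_le (n := n) L (max D0 D1)
  obtain ⟨C, hC, hpair⟩ := pairing_bound_unif (n := n) (L + n + 1 + 2 * L) L L (by omega)
    (by omega) (by omega) (2 ^ L * (B0 + B1) + 1) M₁ (by positivity) hM₁
  refine ⟨L + n + 1 + 2 * L, fun N hN K hK hK0 => ?_⟩
  obtain ⟨C', hC'⟩ := hardy_block_fam (n := n) N L α p hp hp1 hLp C hC
  have hrel : ∀ s : ℝ, ∀ ξ, 𝓕 (η s) ξ = ((‖ξ‖ ^ (2 * L) : ℝ) : ℂ) * 𝓕 (f s) ξ := by
    intro s ξ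
    rw [hη, hf]
    simp only
    rw [hf₂]
    rcases eq_or_ne ξ 0 with rfl | hξ
    · rw [hw0 0 (by simpa using hδ.le)]
      simp
    · have h1 : ((‖ξ‖ ^ (2 * L) : ℝ) : ℂ) * ((‖ξ‖ ^ (-((2 * L : ℕ) : ℝ)) : ℝ) : ℂ) = 1 := by
        rw [← Complex.ofReal_mul, ← Real.rpow_natCast ‖ξ‖ (2 * L),
          ← Real.rpow_add (norm_pos_iff.2 hξ), add_neg_cancel, Real.rpow_zero, Complex.ofReal_one]
      calc _ = (((s ^ 2 + (2 * Real.pi * ‖ξ‖) ^ 2) ^ (α / 2) : ℝ) : ℂ) * 𝓕 w ξ *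
            (((‖ξ‖ ^ (2 * L) : ℝ) : ℂ) * ((‖ξ‖ ^ (-((2 * L : ℕ) : ℝ)) : ℝ) : ℂ)) := by
            rw [h1, mul_one]
        _ = _ := by ring
  have hηp : ∀ s ∈ Set.Icc (0 : ℝ) 1, ∀ (x : E n) (t : ℝ), 0 < t → ∀ ψ : 𝓢(E n, ℂ),
      Adapted N x t ψ → ‖∫ y, η s y * ψ y‖ ≤ C / (1 + ‖x‖) ^ L := by
    intro s hs x t ht ψ hψ
    refine hpair (η s) (f s) (hrel s) (fun y => ?_) ?_ x t ht ψ
      (hψ.adaptedC.order_mono hN)
    · have h1 := decay_of_seminorm (η s) L y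
      have h2 := hB0' s hs
      have h3 := hB1' s hs
      calc _ ≤ 2 ^ L * (SchwartzMap.seminorm ℝ 0 0 (η s) + SchwartzMap.seminorm ℝ L 0 (η s)) := h1
        _ ≤ 2 ^ L * (B0 + B1) := by gcongr
        _ ≤ _ := by linarith
    · exact hM₁' (f s) ((hD0' s hs).trans (le_max_left _ _)) ((hD1' s hs).trans (le_max_right _ _))
  refine le_antisymm (ENNReal.le_of_forall_pos_le_add fun ε hε _ => ?_) zero_le'
  rw [zero_add]
  obtain ⟨T, lam, hlam, hside, hge, hsum⟩ := happ K hK hK0 (ε / (C' + 1)) (by positivity)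
  set hS : 𝓢(E n, ℂ) := combF T (fun i => lam i * Cube.side i.2 ^ ((n : ℝ) - α)) η with hhS
  set uS : 𝓢(E n, ℂ) := comb T (fun i => lam i * Cube.side i.2 ^ n) w with huS
  have huval : ∀ y, uS y = ((∑ i ∈ T, lam i *
      (w ((Cube.side i.2)⁻¹ • (y - Cube.center i.2))).re : ℝ) : ℂ) := by
    intro y
    rw [huS, comb_apply]
    push_cast
    refine Finset.sum_congr rfl fun i _ => ?_
    rw [dil_apply]
    have h1 : ((Cube.side i.2 : ℝ) : ℂ) ≠ 0 := by exact_mod_cast (side_pos i.2).ne'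
    have h2 : ((Cube.side i.2 : ℝ) : ℂ) ^ n * (((Cube.side i.2)⁻¹ : ℝ) : ℂ) ^ n = 1 := by
      rw [← mul_pow, Complex.ofReal_inv, mul_inv_cancel₀ h1, one_pow]
    have h3 : w ((Cube.side i.2)⁻¹ • (y - Cube.center i.2)) =
        (((w ((Cube.side i.2)⁻¹ • (y - Cube.center i.2))).re : ℝ) : ℂ) := by
      apply Complex.ext
      · simp
      · simp [hwim]
    rw [h3]
    calc _ = ((lam i : ℝ) : ℂ) * (((Cube.side i.2 : ℝ) : ℂ) ^ n *
          (((Cube.side i.2)⁻¹ : ℝ) : ℂ) ^ n) *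
          (((w ((Cube.side i.2)⁻¹ • (y - Cube.center i.2))).re : ℝ) : ℂ) := by
          push_cast
          ring
      _ = _ := by rw [h2, mul_one]; simp
  have hpot : IsSmoothPotential α (toDist hS) (fun y => (uS y).re) := by
    rw [isSmoothPotential_iff]
    refine ⟨Complex.reCLM.contDiff.comp uS.smooth', fun ψ _ => ?_⟩
    rw [besselPot_toDist α hS uS, toDist_apply]
    · refine integral_congr_ae (Filter.Eventually.of_forall fun y => ?_)
      simp only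
      rw [huval y, Complex.ofReal_re, mul_comm]
    · intro ξ
      rw [hhS, huS, fourier_combF, fourier_comb, Finset.mul_sum]
      refine Finset.sum_congr rfl fun i _ => ?_
      have hs := side_pos i.2
      rw [hη]
      simp only
      rw [symbol_scale α (Cube.side i.2) hs ξ, Real.rpow_sub hs, Real.rpow_natCast]
      have h1 : ((Cube.side i.2 ^ α : ℝ) : ℂ) ≠ 0 := by
        exact_mod_cast (Real.rpow_pos_of_pos hs α).ne'
      have h2 : (((1 + (2 * Real.pi * ‖ξ‖) ^ 2) ^ (-(α / 2)) : ℝ) : ℂ) *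
          (((1 + (2 * Real.pi * ‖ξ‖) ^ 2) ^ (α / 2) : ℝ) : ℂ) = 1 := by
        rw [← Complex.ofReal_mul, ← Real.rpow_add (by positivity), neg_add_cancel,
          Real.rpow_zero, Complex.ofReal_one]
      push_cast at h1 ⊢
      calc _ = (lam i : ℂ) * (Cube.side i.2 : ℂ) ^ n *
            (Complex.exp (-(2 * Real.pi * ⟪Cube.center i.2, ξ⟫ * Complex.I)) *
              𝓕 w (Cube.side i.2 • ξ)) * 1 := by ring
        _ = _ := by
            rw [← h2]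
            field_simp
  have hge1 : ∀ x ∈ K, 1 ≤ (fun y => (uS y).re) x := by
    intro x hx
    simp only
    rw [huval x, Complex.ofReal_re]
    exact hge x hx
  have hnorm := hC' (ℕ × Cube n) T (fun i => Cube.center i.2) (fun i => Cube.side i.2)
    (fun i => side_pos i.2) lam (fun i => η (Cube.side i.2)) hlam
    (fun i hi => hηp _ ⟨(side_pos i.2).le, hside i hi⟩) (toDist hS) (by
      intro ψ
      rw [toDist_apply, hhS]
      simp only [combF_apply]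
      simp only [Finset.mul_sum]
      rw [integral_finsetSum]
      · refine Finset.sum_congr rfl fun i _ => ?_
        rw [← integral_const_mul]
        refine integral_congr_ae (Filter.Eventually.of_forall fun y => ?_)
        simp only
        ring
      · intro i _
        have h1 : Integrable (fun y => (((lam i * Cube.side i.2 ^ ((n : ℝ) - α) : ℝ)) : ℂ) *
            (ψ y * dil (Cube.center i.2) (Cube.side i.2) (side_pos i.2)
              (η (Cube.side i.2)) y)) := by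
          refine Integrable.const_mul ?_ _
          exact (SchwartzMap.pairing (ContinuousLinearMap.mul ℂ ℂ) ψ
            (dil (Cube.center i.2) (Cube.side i.2) (side_pos i.2)
              (η (Cube.side i.2)))).integrable
        refine h1.congr (Filter.Eventually.of_forall fun y => ?_)
        simp only
        ring)
  calc besselCap N α p K ≤ hardyPow N p (toDist hS) :=
        iInf_le_of_le (toDist hS) (iInf_le_of_le (fun y => (uS y).re) (iInf_le _ ⟨hpot, hge1⟩))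
    _ ≤ C' * ENNReal.ofReal (∑ i ∈ T, lam i ^ p * Cube.side i.2 ^ ((n : ℝ) - α * p)) := hnorm
    _ ≤ C' * ENNReal.ofReal (ε / (C' + 1)) := by
        gcongr
    _ = ENNReal.ofReal (C' * (ε / (C' + 1))) := by
        rw [ENNReal.ofReal_mul (NNReal.coe_nonneg C'), ENNReal.ofReal_coe_nnreal]
    _ ≤ ENNReal.ofReal ε := by
        apply ENNReal.ofReal_le_ofReal
        rw [mul_div_assoc', div_le_iff₀ (by positivity)]
        nlinarith [NNReal.coe_nonneg C', NNReal.coe_nonneg ε]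
    _ = ε := ENNReal.ofReal_coe_nnreal

end Pool.Agent.TH969.BC
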