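import Pool.Agent.TH969.BC.PairU

open MeasureTheory SchwartzMap
open scoped ENNReal NNReal FourierTransform SchwartzMap RealInnerProductSpace

namespace Pool.Agent.TH969.BC

open Pool.Agent.Helper656.Cap

variable {n : ℕ}

/-- the building block of Helper656, with the properties of its Fourier transform -/
theorem exists_block_freq (hn : 1 ≤ n) (L : ℕ) :
    ∃ (A M₀ : ℝ), 0 ≤ A ∧ 1 ≤ M₀ ∧ ∀ M : ℝ, M₀ ≤ M →
      ∃ (w : 𝓢(E n, ℂ)) (ω : E n → ℝ), (∀ y, w y = ((ω y : ℝ) : ℂ)) ∧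
        (∀ y, ‖y‖ ≤ Real.sqrt n → 1 ≤ ω y) ∧
        (∀ y, -(A / M ^ n / (1 + ‖y‖ / M) ^ L) ≤ ω y) ∧
        HasCompactSupport (𝓕 w : 𝓢(E n, ℂ)) ∧ (∀ ξ, ‖ξ‖ ≤ M⁻¹ → 𝓕 w ξ = 0) := by
  have hnR : (0 : ℝ) < Real.sqrt n := Real.sqrt_pos.2 (by exact_mod_cast hn)
  obtain ⟨G, γ, hG, hγ0, hγ2, hGc⟩ := exists_G (n := n) (Real.sqrt n) hnR
  obtain ⟨A, hA0, hA⟩ := conv_bound G (𝓕 (bmp : 𝓢(E n, ℂ))) L
  refine ⟨A, max 1 A, hA0, le_max_left _ _, ?_⟩
  intro M hM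
  have hM1 : 1 ≤ M := (le_max_left _ _).trans hM
  have hMA : A ≤ M := (le_max_right _ _).trans hM
  have hM0 : 0 < M := by linarith
  set χ : 𝓢(E n, ℂ) := dil 0 M hM0 (𝓕 (bmp : 𝓢(E n, ℂ))) with hχ
  set κ : 𝓢(E n, ℂ) := SchwartzMap.convolution (ContinuousLinearMap.mul ℂ ℂ) G χ with hκ
  have hκb : ∀ y, ‖κ y‖ ≤ A / M ^ n / (1 + ‖y‖ / M) ^ L := hA M hM0 hM1
  have hκr : ∀ y, κ y = (((κ y).re : ℝ) : ℂ) := by
    intro y
    have h1 : κ y = ∫ z, (((γ z * (((M⁻¹) ^ n) * F0 (M⁻¹ • (y - z)))) : ℝ) : ℂ) := by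
      rw [hκ, SchwartzMap.convolution_apply]
      unfold MeasureTheory.convolution
      refine integral_congr_ae (Filter.Eventually.of_forall fun z => ?_)
      simp only [ContinuousLinearMap.mul_apply', hG, hχ, dil_apply, F0_eq, sub_zero]
      push_cast
      ring
    rw [h1, integral_complex_ofReal, Complex.ofReal_re]
  have hw : ∀ y, (G - κ) y = ((γ y - (κ y).re : ℝ) : ℂ) := by
    intro y
    have : (G - κ) y = G y - κ y := rfl
    rw [this, hG, hκr y]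
    push_cast
    simp
  have hre : ∀ y, |(κ y).re| ≤ A / M ^ n / (1 + ‖y‖ / M) ^ L := fun y =>
    (Complex.abs_re_le_norm _).trans (hκb y)
  have hFw : ∀ ξ, 𝓕 (G - κ) ξ = (1 - ((beta ‖M • ξ‖ : ℝ) : ℂ)) * 𝓕 G ξ := by
    intro ξ
    have h1 : 𝓕 (G - κ) = 𝓕 G - 𝓕 κ := by
      rw [sub_eq_add_neg, FourierTransform.fourier_add, ← neg_one_smul ℂ κ,
        FourierTransform.fourier_smul, neg_one_smul, sub_eq_add_neg]
    rw [h1]
    have h2 : (𝓕 G - 𝓕 κ) ξ = 𝓕 G ξ - 𝓕 κ ξ := rfl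
    rw [h2, hκ, SchwartzMap.fourier_convolution, SchwartzMap.pairing_apply_apply, hχ,
      fourier_dil, fourier_fourier, bmp_neg, bmp_apply]
    simp
    ring
  have hFc : HasCompactSupport (𝓕 (G - κ) : 𝓢(E n, ℂ)) := by
    have : ((𝓕 (G - κ) : 𝓢(E n, ℂ)) : E n → ℂ) =
        fun ξ => (1 - ((beta ‖M • ξ‖ : ℝ) : ℂ)) * 𝓕 G ξ := funext hFw
    rw [this]
    exact hGc.mul_left
  have hF0 : ∀ ξ, ‖ξ‖ ≤ M⁻¹ → 𝓕 (G - κ) ξ = 0 := by
    intro ξ hξ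
    rw [hFw, beta_eq_one]
    · simp
    · rw [abs_of_nonneg (norm_nonneg _), norm_smul, Real.norm_of_nonneg hM0.le]
      calc M * ‖ξ‖ ≤ M * M⁻¹ := by gcongr
        _ = 1 := mul_inv_cancel₀ hM0.ne'
  refine ⟨G - κ, fun y => γ y - (κ y).re, hw, ?_, ?_, hFc, hF0⟩
  · intro y hy
    have h1 := hγ2 y hy
    have h2 := (abs_le.1 (hre y)).2
    have h3 : A / M ^ n / (1 + ‖y‖ / M) ^ L ≤ 1 := by
      apply div_le_one_of_le₀
      · calc A / M ^ n ≤ 1 := by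
              apply div_le_one_of_le₀
              · calc A ≤ M := hMA
                  _ = M ^ 1 := (pow_one M).symm
                  _ ≤ M ^ n := pow_le_pow_right₀ hM1 hn
              · positivity
          _ ≤ _ := one_le_pow₀ (by
              have : 0 ≤ ‖y‖ / M := by positivity
              linarith)
      · positivity
    linarith
  · intro y
    have h1 := hγ0 y
    have h2 := (abs_le.1 (hre y)).2
    linarith

/-- version of `hardy_block` of Helper656 for families -/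
theorem hardy_block_fam (N L : ℕ) (α p : ℝ) (hp : 0 < p) (hp1 : p ≤ 1) (hL : (n : ℝ) < L * p)
    (C : ℝ) (hC : 0 < C) :
    ∃ C' : ℝ≥0, ∀ (ι : Type) (s : Finset ι) (c : ι → E n) (ℓ : ι → ℝ) (hℓ : ∀ i, 0 < ℓ i)
      (lam : ι → ℝ) (η : ι → 𝓢(E n, ℂ)), (∀ i ∈ s, 0 ≤ lam i) →
      (∀ i ∈ s, ∀ (x : E n) (t : ℝ), 0 < t → ∀ ψ : 𝓢(E n, ℂ), Adapted N x t ψ →
        ‖∫ y, η i y * ψ y‖ ≤ C / (1 + ‖x‖) ^ L) → ∀ h : 𝓢'(E n, ℂ),
      (∀ ψ : 𝓢(E n, ℂ), h ψ = ∑ i ∈ s, (((lam i) * (ℓ i) ^ ((n : ℝ) - α) : ℝ) : ℂ) *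
        ∫ y, ψ y * dil (c i) (ℓ i) (hℓ i) (η i) y) →
      hardyPow N p h ≤ C' * ENNReal.ofReal (∑ i ∈ s, lam i ^ p * ℓ i ^ ((n : ℝ) - α * p)) := by
  set J : ℝ≥0∞ := ∫⁻ z : E n, ENNReal.ofReal ((1 + ‖z‖) ^ (-((L : ℝ) * p))) with hJ
  have hJfin : J < ⊤ := finite_integral_one_add_norm (by rw [finrank_euclideanSpace_fin]; exact hL)
  have hCJ : ENNReal.ofReal (C ^ p) * J ≠ ⊤ := ENNReal.mul_ne_top ENNReal.ofReal_ne_top hJfin.ne
  refine ⟨(ENNReal.ofReal (C ^ p) * J).toNNReal, ?_⟩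
  intro ι s c ℓ hℓ lam η hlam hη h hh
  rw [ENNReal.coe_toNNReal hCJ]
  -- pointwise bound
  set a : ι → E n → ℝ := fun i x =>
    (lam i * ℓ i ^ ((n : ℝ) - α) * (ℓ i ^ n)⁻¹ * C) * ((1 + ‖(ℓ i)⁻¹ • (x - c i)‖) ^ L)⁻¹ with ha
  have ha0 : ∀ i ∈ s, ∀ x, 0 ≤ a i x := by
    intro i hi x
    have h1 := hlam i hi
    have h2 := hℓ i
    simp only [ha]
    positivity
  have hpt : ∀ x, grandMax N h x ≤ ∑ i ∈ s, ENNReal.ofReal (a i x) := by
    intro x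
    unfold grandMax
    refine iSup_le fun t => iSup_le fun ht => iSup_le fun ψ => iSup_le fun hψ => ?_
    rw [← ENNReal.ofReal_sum_of_nonneg (fun i hi => ha0 i hi x), ← ofReal_norm]
    apply ENNReal.ofReal_le_ofReal
    rw [hh ψ]
    refine (norm_sum_le _ _).trans (Finset.sum_le_sum fun i hi => ?_)
    have hl := hℓ i
    have hlam' := hlam i hi
    have e1 : ∫ y, ψ y * dil (c i) (ℓ i) (hℓ i) (η i) y =
        (((ℓ i ^ n)⁻¹ : ℝ) : ℂ) * ∫ z, η i z * pull (c i) (ℓ i) (hℓ i) ψ z := by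
      rw [integral_mul_dil, ← integral_const_mul]
      refine integral_congr_ae (Filter.Eventually.of_forall fun z => ?_)
      simp only [pull_apply]
      have : ((ℓ i ^ n : ℝ) : ℂ) ≠ 0 := by
        rw [Complex.ofReal_ne_zero]; positivity
      rw [Complex.ofReal_inv]
      field_simp
    have hpull : Adapted N ((ℓ i)⁻¹ • (x - c i)) (t / ℓ i) (pull (c i) (ℓ i) (hℓ i) ψ) :=
      hψ.adaptedC.pull (c i) (hℓ i)
    have h2 := hη i hi _ _ (by positivity) _ hpull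
    rw [norm_mul, e1, norm_mul, Complex.norm_real, Complex.norm_real, Real.norm_of_nonneg (by positivity),
      Real.norm_of_nonneg (by positivity)]
    simp only [ha]
    calc lam i * ℓ i ^ ((n : ℝ) - α) * ((ℓ i ^ n)⁻¹ * ‖∫ z, η i z * pull (c i) (ℓ i) (hℓ i) ψ z‖)
        ≤ lam i * ℓ i ^ ((n : ℝ) - α) * ((ℓ i ^ n)⁻¹ * (C / (1 + ‖(ℓ i)⁻¹ • (x - c i)‖) ^ L)) := by
          gcongr
      _ = _ := by rw [div_eq_mul_inv]; ring
  have hpow : ∀ i ∈ s, ∀ x, ENNReal.ofReal (a i x) ^ p =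
      ENNReal.ofReal ((lam i * ℓ i ^ ((n : ℝ) - α) * (ℓ i ^ n)⁻¹ * C) ^ p) *
        ENNReal.ofReal ((1 + ‖(ℓ i)⁻¹ • (x - c i)‖) ^ (-((L : ℝ) * p))) := by
    intro i hi x
    have hl := hℓ i
    have hlam' := hlam i hi
    rw [ENNReal.ofReal_rpow_of_nonneg (ha0 i hi x) hp.le, ← ENNReal.ofReal_mul (by positivity)]
    congr 1
    simp only [ha]
    rw [Real.mul_rpow (by positivity) (by positivity)]
    congr 1
    rw [Real.inv_rpow (by positivity), Real.rpow_neg (by positivity), ← Real.rpow_natCast,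
      ← Real.rpow_mul (by positivity)]
  unfold hardyPow
  calc ∫⁻ x, grandMax N h x ^ p ≤ ∫⁻ x, ∑ i ∈ s, ENNReal.ofReal (a i x) ^ p := by
        apply lintegral_mono
        intro x
        exact (ENNReal.rpow_le_rpow (hpt x) hp.le).trans (rpow_sum_le_sum_rpow' s _ hp hp1)
    _ = ∫⁻ x, ∑ i ∈ s, (ENNReal.ofReal ((lam i * ℓ i ^ ((n : ℝ) - α) * (ℓ i ^ n)⁻¹ * C) ^ p) *
        ENNReal.ofReal ((1 + ‖(ℓ i)⁻¹ • (x - c i)‖) ^ (-((L : ℝ) * p)))) := by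
        congr 1
        ext x
        exact Finset.sum_congr rfl fun i hi => hpow i hi x
    _ = ∑ i ∈ s, ∫⁻ x, (ENNReal.ofReal ((lam i * ℓ i ^ ((n : ℝ) - α) * (ℓ i ^ n)⁻¹ * C) ^ p) *
        ENNReal.ofReal ((1 + ‖(ℓ i)⁻¹ • (x - c i)‖) ^ (-((L : ℝ) * p)))) := by
        apply lintegral_finsetSum'
        intro i _
        apply Measurable.aemeasurable
        fun_prop
    _ = ∑ i ∈ s, ENNReal.ofReal (C ^ p) * J *
          ENNReal.ofReal (lam i ^ p * ℓ i ^ ((n : ℝ) - α * p)) := by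
        refine Finset.sum_congr rfl fun i hi => ?_
        have hl := hℓ i
        have hlam' := hlam i hi
        rw [lintegral_const_mul' _ _ ENNReal.ofReal_ne_top,
          lintegral_scale (c i) (hℓ i) (fun z => ENNReal.ofReal ((1 + ‖z‖) ^ (-((L : ℝ) * p)))), ← hJ,
          ← mul_assoc, ← ENNReal.ofReal_mul (by positivity)]
        have e : (lam i * ℓ i ^ ((n : ℝ) - α) * (ℓ i ^ n)⁻¹ * C) ^ p * ℓ i ^ n =
            C ^ p * (lam i ^ p * ℓ i ^ ((n : ℝ) - α * p)) := by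
          rw [Real.mul_rpow (by positivity) (by positivity), Real.mul_rpow (by positivity) (by positivity),
            Real.mul_rpow (by positivity) (by positivity), Real.inv_rpow (by positivity),
            ← Real.rpow_natCast, ← Real.rpow_mul hl.le, ← Real.rpow_mul hl.le, ← Real.rpow_neg hl.le]
          have e2 : ℓ i ^ ((n : ℝ) - α * p) =
              ℓ i ^ (((n : ℝ) - α) * p) * ℓ i ^ (-((n : ℝ) * p)) * ℓ i ^ (n : ℝ) := by
            rw [← Real.rpow_add hl, ← Real.rpow_add hl]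
            congr 1; ring
          rw [e2]; ring
        rw [e, ENNReal.ofReal_mul (by positivity)]
        ring
    _ = _ := by
        rw [← Finset.mul_sum, ENNReal.ofReal_sum_of_nonneg]
        intro i hi
        have hl := hℓ i
        have hlam' := hlam i hi
        positivity


theorem decay_of_seminorm (f : 𝓢(E n, ℂ)) (m : ℕ) (y : E n) : (1 + ‖y‖) ^ m * ‖f y‖ ≤
    2 ^ m * (SchwartzMap.seminorm ℝ 0 0 f + SchwartzMap.seminorm ℝ m 0 f) := by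
  have h0 : ‖f y‖ ≤ SchwartzMap.seminorm ℝ 0 0 f := by
    have := le_seminorm ℝ 0 0 f y
    rwa [norm_iteratedFDeriv_zero, pow_zero, one_mul] at this
  have h1 : ‖y‖ ^ m * ‖f y‖ ≤ SchwartzMap.seminorm ℝ m 0 f := by
    have := le_seminorm ℝ m 0 f y
    rwa [norm_iteratedFDeriv_zero] at this
  calc (1 + ‖y‖) ^ m * ‖f y‖ ≤ 2 ^ m * (1 + ‖y‖ ^ m) * ‖f y‖ := by
        gcongr
        exact one_add_pow_le _ (norm_nonneg y) m
    _ = 2 ^ m * (‖f y‖ + ‖y‖ ^ m * ‖f y‖) := by ring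
    _ ≤ _ := by gcongr

theorem integrable_weight : Integrable (fun z : E n => (1 + ‖z‖) ^ (-((n : ℝ) + 1))) := by
  apply integrable_one_add_norm
  rw [finrank_euclideanSpace_fin]
  linarith

theorem integral_decay_le (L : ℕ) (A : ℝ) : ∃ M : ℝ, 0 ≤ M ∧ ∀ f : 𝓢(E n, ℂ),
    SchwartzMap.seminorm ℝ 0 0 f ≤ A → SchwartzMap.seminorm ℝ (L + n + 1) 0 f ≤ A →
      (∫ y, (‖y‖ ^ 0 * ‖f y‖ + ‖y‖ ^ L * ‖f y‖)) ≤ M := by
  rcases lt_or_ge A 0 with hA | hA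
  · refine ⟨0, le_rfl, fun f hf _ => ?_⟩
    exact absurd (hf.trans_lt hA) (not_lt.2 (apply_nonneg _ _))
  refine ⟨2 * (2 ^ (L + n + 1) * (A + A)) * ∫ z : E n, (1 + ‖z‖) ^ (-((n : ℝ) + 1)),
    mul_nonneg (by positivity) (integral_nonneg fun z => by positivity), fun f h0 h1 => ?_⟩
  rw [← integral_const_mul]
  refine integral_mono_of_nonneg (Filter.Eventually.of_forall fun y => by positivity)
    (integrable_weight.const_mul _) (Filter.Eventually.of_forall fun y => ?_)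
  simp only
  have h2 := decay_of_seminorm f (L + n + 1) y
  have h3 : (1 + ‖y‖) ^ (L + n + 1) * ‖f y‖ ≤ 2 ^ (L + n + 1) * (A + A) := h2.trans (by gcongr)
  have hy : (1 : ℝ) ≤ 1 + ‖y‖ := by linarith [norm_nonneg y]
  have h4 : ‖y‖ ^ 0 * ‖f y‖ + ‖y‖ ^ L * ‖f y‖ ≤ 2 * ((1 + ‖y‖) ^ L * ‖f y‖) := by
    have h5 : ‖y‖ ^ 0 ≤ (1 + ‖y‖) ^ L := by rw [pow_zero]; exact one_le_pow₀ hy
    have h6 : ‖y‖ ^ L ≤ (1 + ‖y‖) ^ L := by gcongr; linarith
    nlinarith [norm_nonneg (f y)]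
  have hrp : (1 + ‖y‖) ^ (-((n : ℝ) + 1)) = ((1 + ‖y‖) ^ (n + 1))⁻¹ := by
    rw [Real.rpow_neg (by positivity), ← Real.rpow_natCast]
    push_cast
    rfl
  rw [hrp]
  refine h4.trans ?_
  rw [← div_eq_mul_inv, le_div_iff₀ (by positivity)]
  calc 2 * ((1 + ‖y‖) ^ L * ‖f y‖) * (1 + ‖y‖) ^ (n + 1) =
        2 * ((1 + ‖y‖) ^ (L + n + 1) * ‖f y‖) := by ring
    _ ≤ _ := by gcongr

end Pool.Agent.TH969.BC
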