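import Pool.Agent.Helper656.CapDefs

/-!
Definitions for MP_9b3711_an: Besov capacities and capacities of Bessel potentials of Hardy
spaces, `0 < p < 1`.  Everything lives on `E n = ℝⁿ` (`EuclideanSpace ℝ (Fin n)`); `𝓢(E n, ℂ)` and
`𝓢'(E n, ℂ)` are the Schwartz functions and the tempered distributions, and the Fourier transform
is `𝓕 f (ξ) = ∫ f(x) exp(-2πi⟨x, ξ⟩) dx`.

From `Pool.Agent.Helper656.CapDefs` we use the grand maximal function `grandMax N f` of order `N`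
of a tempered distribution `f` and `hardyPow N p f = ∫ (grandMax N f)^p`, the `p`-th power of the
quasi-norm of `f` in the real Hardy space `H^p(ℝⁿ)` (for `N` large enough all these quasi-norms are
equivalent).
-/

open MeasureTheory SchwartzMap
open scoped ENNReal NNReal FourierTransform SchwartzMap

namespace Pool.Agent.TH969.BC

open Pool.Agent.Helper656.Cap

variable {n : ℕ}

/-- `φ` generates a smooth dyadic resolution of unity on the frequency side: `φ = 1` on the unit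
ball and `φ = 0` outside the ball of radius `2`. -/
structure IsGenerator (φ : 𝓢(E n, ℂ)) : Prop where
  one : ∀ ξ, ‖ξ‖ ≤ 1 → φ ξ = 1
  zero : ∀ ξ, 2 ≤ ‖ξ‖ → φ ξ = 0

/-- The dyadic resolution of unity `φ₀ = φ` and `φ_j(ξ) = φ(2^{-j} ξ) - φ(2^{-j+1} ξ)` for
`j ≥ 1`. -/
noncomputable def dyad (φ : 𝓢(E n, ℂ)) : ℕ → E n → ℂ
  | 0, ξ => φ ξ
  | j + 1, ξ => φ (((2 : ℝ)⁻¹ ^ (j + 1)) • ξ) - φ (((2 : ℝ)⁻¹ ^ j) • ξ)

/-- The Littlewood-Paley block `Δ_j u`, the inverse Fourier transform of `φ_j · 𝓕 u`. -/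
noncomputable def lpBlock (φ u : 𝓢(E n, ℂ)) (j : ℕ) : E n → ℂ :=
  𝓕⁻ (fun ξ => dyad φ j ξ * 𝓕 u ξ)

/-- `|u|_{α,p,p}^p = ∑_j 2^{jαp} ‖Δ_j u‖_p^p`, the `p`-th power of the quasi-norm of the Besov space
`Λ^{p,p}_α = B^α_{p,p}(ℝⁿ)`. -/
noncomputable def besovPow (φ : 𝓢(E n, ℂ)) (α p : ℝ) (u : 𝓢(E n, ℂ)) : ℝ≥0∞ :=
  ∑' j : ℕ, ENNReal.ofReal ((2 : ℝ) ^ (j * (α * p))) * ∫⁻ x, ‖lpBlock φ u j x‖ₑ ^ p

/-- The Besov capacity `A_{α,p,p}(K)` computed with the class `D` of smooth functions: the infimum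
of `|u|_{α,p,p}^p` over the real functions `u` in `D` with `u ≥ 1` on `K`. -/
noncomputable def besovCapOn (D : Set 𝓢(E n, ℂ)) (φ : 𝓢(E n, ℂ)) (α p : ℝ) (K : Set (E n)) :
    ℝ≥0∞ :=
  ⨅ (u : 𝓢(E n, ℂ)) (_ : u ∈ D ∧ (∀ x, (u x).im = 0) ∧ ∀ x ∈ K, 1 ≤ (u x).re), besovPow φ α p u

/-- The Besov capacity computed with all real Schwartz functions. -/
noncomputable def besovCap (φ : 𝓢(E n, ℂ)) (α p : ℝ) (K : Set (E n)) : ℝ≥0∞ :=
  ⨅ (u : 𝓢(E n, ℂ)) (_ : (∀ x, (u x).im = 0) ∧ ∀ x ∈ K, 1 ≤ (u x).re), besovPow φ α p u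

/-- `V = G_α * ψ` for Schwartz functions `ψ`, `V`, where `G_α` is the Bessel kernel: the function
whose Fourier transform is `(1 + 4π²|ξ|²)^{-α/2}`. -/
def IsBesselConv (α : ℝ) (ψ V : 𝓢(E n, ℂ)) : Prop :=
  ∀ ξ, 𝓕 V ξ = (((1 + (2 * Real.pi * ‖ξ‖) ^ 2) ^ (-(α / 2)) : ℝ) : ℂ) * 𝓕 ψ ξ

/-- The distribution `G_α * f` is the real smooth function `u`, that is
`⟨f, G_α * ψ⟩ = ∫ u ψ` for all test functions `ψ`. -/
def IsSmoothPotential (α : ℝ) (f : 𝓢'(E n, ℂ)) (u : E n → ℝ) : Prop :=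
  ContDiff ℝ (⊤ : ℕ∞) u ∧
    ∀ ψ V : 𝓢(E n, ℂ), HasCompactSupport ψ → IsBesselConv α ψ V →
      f V = ∫ x, ((u x : ℝ) : ℂ) * ψ x

/-- The capacity `B_{α,p}(K)` of the space `{G_α * f : f ∈ H^p}`: the infimum of `‖f‖_{H^p}^p` over
all tempered distributions `f` such that `u = G_α * f` is a smooth function with `u ≥ 1` on `K`. -/
noncomputable def besselCap (N : ℕ) (α p : ℝ) (K : Set (E n)) : ℝ≥0∞ :=
  ⨅ (f : 𝓢'(E n, ℂ)) (u : E n → ℝ) (_ : IsSmoothPotential α f u ∧ ∀ x ∈ K, 1 ≤ u x),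
    hardyPow N p f

/-- The local grand maximal function of order `N`: only scales `t ≤ 1` are used. -/
noncomputable def grandMaxLoc (N : ℕ) (f : 𝓢'(E n, ℂ)) (x : E n) : ℝ≥0∞ :=
  ⨆ (t : ℝ) (_ : 0 < t ∧ t ≤ 1) (ψ : 𝓢(E n, ℂ)) (_ : Adapted N x t ψ), ‖f ψ‖ₑ

/-- The `p`-th power of the quasi-norm of `f` in the local Hardy space `h^p(ℝⁿ)` of Goldberg. -/
noncomputable def hardyPowLoc (N : ℕ) (p : ℝ) (f : 𝓢'(E n, ℂ)) : ℝ≥0∞ :=
  ∫⁻ x, grandMaxLoc N f x ^ p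

/-- The capacity of the space `{G_α * f : f ∈ h^p}` of Bessel potentials of the local Hardy space,
that is of the Lizorkin-Triebel space `F^α_{p,2}(ℝⁿ)`. -/
noncomputable def besselCapLoc (N : ℕ) (α p : ℝ) (K : Set (E n)) : ℝ≥0∞ :=
  ⨅ (f : 𝓢'(E n, ℂ)) (u : E n → ℝ) (_ : IsSmoothPotential α f u ∧ ∀ x ∈ K, 1 ≤ u x),
    hardyPowLoc N p f

end Pool.Agent.TH969.BC
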