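import Pool.Agent.Helper656.CapUpper

/-! Bounded families of Schwartz functions given by compactly supported Fourier transforms which
depend smoothly on a parameter. -/

open MeasureTheory SchwartzMap
open scoped ENNReal NNReal FourierTransform SchwartzMap RealInnerProductSpace ContDiff

namespace Pool.Agent.TH969.BC

open Pool.Agent.Helper656.Cap

variable {n : ℕ}

theorem freq_family (Φ : ℝ × E n → ℂ) (hΦ : ContDiff ℝ ∞ Φ) (R : ℝ)
    (hR : ∀ a ζ, R ≤ ‖ζ‖ → Φ (a, ζ) = 0) (a₀ a₁ : ℝ) :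
    ∃ G : ℝ → 𝓢(E n, ℂ), (∀ a ζ, G a ζ = Φ (a, ζ)) ∧ ∀ k l : ℕ, ∃ C : ℝ, 0 ≤ C ∧
      ∀ a ∈ Set.Icc a₀ a₁, SchwartzMap.seminorm ℝ k l (G a) ≤ C := by
  have hsm : ∀ a, ContDiff ℝ ∞ (fun ζ : E n => Φ (a, ζ)) := fun a =>
    hΦ.comp (contDiff_const.prodMk contDiff_id)
  have hcs : ∀ a, HasCompactSupport (fun ζ : E n => Φ (a, ζ)) := fun a => by
    refine HasCompactSupport.intro (isCompact_closedBall (0 : E n) R) fun ζ hζ => ?_
    rw [Metric.mem_closedBall, dist_zero_right, not_le] at hζ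
    exact hR a ζ hζ.le
  refine ⟨fun a => (hcs a).toSchwartzMap (hsm a), fun a ζ => rfl, fun k l => ?_⟩
  have hc : Continuous fun z : ℝ × E n => ‖z.2‖ ^ k * ‖iteratedFDeriv ℝ l Φ z‖ := by
    have h1 : Continuous (iteratedFDeriv ℝ l Φ) :=
      hΦ.continuous_iteratedFDeriv (by exact_mod_cast le_top)
    fun_prop
  obtain ⟨C, hC⟩ := (isCompact_Icc.prod (isCompact_closedBall (0 : E n) R)).bddAbove_image
    (hc.continuousOn (s := Set.Icc a₀ a₁ ×ˢ Metric.closedBall (0 : E n) R))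
  refine ⟨max C 0, le_max_right _ _, fun a ha => ?_⟩
  refine SchwartzMap.seminorm_le_bound ℝ k l _ (le_max_right _ _) fun ζ => ?_
  have hfun : (((hcs a).toSchwartzMap (hsm a) : 𝓢(E n, ℂ)) : E n → ℂ) =
      fun ζ : E n => Φ (a, ζ) := rfl
  rw [hfun]
  by_cases hζ : ζ ∈ Metric.closedBall (0 : E n) R
  · have h1 : (fun ζ : E n => Φ (a, ζ)) =
        (fun z : ℝ × E n => Φ ((a, 0) + z)) ∘ (ContinuousLinearMap.inr ℝ ℝ (E n)) := by
      ext ζ
      simp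
    have h0 : ContDiff ℝ ∞ (fun z : ℝ × E n => Φ ((a, 0) + z)) :=
      hΦ.comp (contDiff_const.add contDiff_id)
    have h2 : ‖iteratedFDeriv ℝ l (fun ζ : E n => Φ (a, ζ)) ζ‖ ≤ ‖iteratedFDeriv ℝ l Φ (a, ζ)‖ := by
      rw [h1, ContinuousLinearMap.iteratedFDeriv_comp_right _ h0 ζ (by exact_mod_cast le_top),
        iteratedFDeriv_comp_add_left]
      refine (ContinuousMultilinearMap.norm_compContinuousLinearMap_le _ _).trans ?_
      have h3 : ‖ContinuousLinearMap.inr ℝ ℝ (E n)‖ ≤ 1 := ContinuousLinearMap.norm_inr_le_one _ _ _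
      have h4 : ∏ _i : Fin l, ‖ContinuousLinearMap.inr ℝ ℝ (E n)‖ ≤ 1 := by
        rw [Finset.prod_const]
        exact pow_le_one₀ (norm_nonneg _) h3
      have h5 : ((a, (0 : E n)) + (ContinuousLinearMap.inr ℝ ℝ (E n)) ζ) = (a, ζ) := by simp
      rw [h5]
      exact mul_le_of_le_one_right (norm_nonneg _) h4
    have h6 := hC (Set.mem_image_of_mem _ (Set.mk_mem_prod ha hζ))
    simp only at h6
    refine le_trans ?_ (h6.trans (le_max_left _ _))
    gcongr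
  · have h1 : ζ ∉ tsupport (fun ζ : E n => Φ (a, ζ)) := by
      intro h
      apply hζ
      refine closure_minimal ?_ Metric.isClosed_closedBall h
      intro z hz
      rw [Metric.mem_closedBall, dist_zero_right]
      by_contra hcon
      exact hz (hR a z (not_le.1 hcon).le)
    have h2 : iteratedFDeriv ℝ l (fun ζ : E n => Φ (a, ζ)) ζ = 0 :=
      image_eq_zero_of_notMem_tsupport fun h => h1 (tsupport_iteratedFDeriv_subset l h)
    rw [h2, norm_zero, mul_zero]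
    exact le_max_right _ _

theorem fourierInv_bound (k l : ℕ) : ∃ (s : Finset (ℕ × ℕ)) (C : ℝ), 0 ≤ C ∧
    ∀ f : 𝓢(E n, ℂ), SchwartzMap.seminorm ℝ k l (𝓕⁻ f) ≤
      C * ∑ i ∈ s, SchwartzMap.seminorm ℝ i.1 i.2 f := by
  have hq : Continuous ((SchwartzMap.seminorm ℝ k l : Seminorm ℝ 𝓢(E n, ℂ)).comp
      ((FourierTransform.fourierInvCLM ℝ 𝓢(E n, ℂ)).toLinearMap)) := by
    have h1 : Continuous (SchwartzMap.seminorm ℝ k l : Seminorm ℝ 𝓢(E n, ℂ)) :=
      (schwartz_withSeminorms ℝ (E n) ℂ).continuous_seminorm (k, l)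
    exact h1.comp (FourierTransform.fourierInvCLM ℝ 𝓢(E n, ℂ)).continuous
  obtain ⟨s, C, hC, h⟩ := Seminorm.bound_of_continuous (schwartz_withSeminorms ℝ (E n) ℂ) _ hq
  refine ⟨s, C, C.2, fun f => ?_⟩
  have h1 := h f
  refine le_trans h1 ?_
  have h2 : s.sup (schwartzSeminormFamily ℝ (E n) ℂ) ≤
      ∑ i ∈ s, schwartzSeminormFamily ℝ (E n) ℂ i := Seminorm.finset_sup_le_sum _ _
  have h3 := h2 f
  rw [_root_.smul_apply]
  have h4 : (∑ i ∈ s, schwartzSeminormFamily ℝ (E n) ℂ i) f =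
      ∑ i ∈ s, SchwartzMap.seminorm ℝ i.1 i.2 f := by
    rw [_root_.sum_apply]
    rfl
  rw [h4] at h3
  exact mul_le_mul_of_nonneg_left h3 C.2

/-- a family with smooth dependence of the (compactly supported) Fourier transforms is bounded -/
theorem phys_family (Φ : ℝ × E n → ℂ) (hΦ : ContDiff ℝ ∞ Φ) (R : ℝ)
    (hR : ∀ a ζ, R ≤ ‖ζ‖ → Φ (a, ζ) = 0) (a₀ a₁ : ℝ) :
    ∃ g : ℝ → 𝓢(E n, ℂ), (∀ a ζ, 𝓕 (g a) ζ = Φ (a, ζ)) ∧ ∀ k l : ℕ, ∃ C : ℝ, 0 ≤ C ∧
      ∀ a ∈ Set.Icc a₀ a₁, SchwartzMap.seminorm ℝ k l (g a) ≤ C := by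
  obtain ⟨G, hG, hb⟩ := freq_family Φ hΦ R hR a₀ a₁
  refine ⟨fun a => 𝓕⁻ (G a), fun a ζ => ?_, fun k l => ?_⟩
  · rw [FourierTransform.fourier_fourierInv_eq, hG]
  · obtain ⟨s, C, hC, h⟩ := fourierInv_bound (n := n) k l
    choose D hD0 hD using hb
    refine ⟨C * ∑ i ∈ s, D i.1 i.2, by
      refine mul_nonneg hC (Finset.sum_nonneg fun i _ => hD0 _ _), fun a ha => ?_⟩
    refine (h (G a)).trans ?_
    gcongr with i hi
    exact hD i.1 i.2 a ha

end Pool.Agent.TH969.BC
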