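import Pool.Agent.Helper656.CapDefs
import Mathlib.MeasureTheory.Measure.Hausdorff

open MeasureTheory Metric
open scoped ENNReal NNReal

namespace Pool.Agent.TH969.BC

open Pool.Agent.Helper656.Cap

variable {n : ℕ}

/-- a set has vanishing Hausdorff content iff it has vanishing Hausdorff measure -/
theorem content_eq_zero_iff (d : ℝ) (hd : 0 < d) (K : Set (E n)) :
    hausdorffContent d K = 0 ↔ μH[d] K = 0 := by
  constructor
  · intro h
    rw [Measure.hausdorffMeasure_apply]
    refine le_antisymm (iSup_le fun r => iSup_le fun hr => ?_) zero_le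
    refine ENNReal.le_of_forall_pos_le_add fun ε hε _ => ?_
    rw [zero_add]
    set ρ : ℝ≥0∞ := min r 1 / 2 with hρ
    have hρ0 : 0 < ρ := by
      refine ENNReal.div_pos ?_ (by simp)
      exact (lt_min hr one_pos).ne'
    have hρ1 : ρ ≠ ⊤ := by
      refine ENNReal.div_ne_top ?_ (by simp)
      exact ne_top_of_le_ne_top ENNReal.one_ne_top (min_le_right _ _)
    have h2d : (2 : ℝ≥0∞) ^ d ≠ 0 := by simp [hd]
    have h2t : (2 : ℝ≥0∞) ^ d ≠ ⊤ := ENNReal.rpow_ne_top_of_nonneg hd.le (by simp)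
    have hη : hausdorffContent d K < min ((ε : ℝ≥0∞) / 2 ^ d) (ρ ^ d) := by
      rw [h]
      refine lt_min ?_ (ENNReal.rpow_pos hρ0 hρ1)
      exact ENNReal.div_pos (by simpa using hε.ne') h2t
    unfold hausdorffContent at hη
    rw [iInf_lt_iff] at hη
    obtain ⟨c, hη⟩ := hη
    rw [iInf_lt_iff] at hη
    obtain ⟨s, hη⟩ := hη
    rw [iInf_lt_iff] at hη
    obtain ⟨hcov, hη⟩ := hη
    have hsmall : ∀ i, (s i : ℝ≥0∞) < ρ := by
      intro i
      have h1 : (s i : ℝ≥0∞) ^ d < ρ ^ d :=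
        (ENNReal.le_tsum i).trans_lt (hη.trans_le (min_le_right _ _))
      exact (ENNReal.rpow_lt_rpow_iff hd).1 h1
    have hdiam : ∀ i, ediam (ball (c i) (s i)) ≤ 2 * s i := by
      intro i
      have h1 := Metric.ediam_eball_le (x := c i) (r := (s i : ℝ≥0∞))
      rwa [eball_coe] at h1
    refine iInf_le_of_le (fun i => ball (c i) (s i)) (iInf_le_of_le hcov
      (iInf_le_of_le (fun i => ?_) ?_))
    · refine (hdiam i).trans ?_
      calc 2 * (s i : ℝ≥0∞) ≤ 2 * ρ := by gcongr; exact (hsmall i).le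
        _ = min r 1 := by
            rw [hρ]
            exact ENNReal.mul_div_cancel (by simp) (by simp)
        _ ≤ r := min_le_left _ _
    · calc ∑' i, ⨆ _ : (ball (c i) (s i : ℝ)).Nonempty, ediam (ball (c i) (s i : ℝ)) ^ d
          ≤ ∑' i, 2 ^ d * (s i : ℝ≥0∞) ^ d := by
            refine ENNReal.tsum_le_tsum fun i => iSup_le fun _ => ?_
            rw [← ENNReal.mul_rpow_of_nonneg _ _ hd.le]
            gcongr
            exact hdiam i
        _ = 2 ^ d * ∑' i, (s i : ℝ≥0∞) ^ d := ENNReal.tsum_mul_left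
        _ ≤ 2 ^ d * (ε / 2 ^ d) := by
            gcongr
            exact (hη.trans_le (min_le_left _ _)).le
        _ = ε := ENNReal.mul_div_cancel h2d h2t
  · intro h
    refine le_antisymm (ENNReal.le_of_forall_pos_le_add fun ε hε _ => ?_) zero_le
    rw [zero_add]
    have h2d : (2 : ℝ≥0∞) ^ d ≠ 0 := by simp [hd]
    have h2t : (2 : ℝ≥0∞) ^ d ≠ ⊤ := ENNReal.rpow_ne_top_of_nonneg hd.le (by simp)
    set η : ℝ≥0∞ := ε / 2 ^ d / 2 with hη
    have hη0 : η ≠ 0 := by
      refine (ENNReal.div_pos (ENNReal.div_pos (by simpa using hε.ne') h2t).ne' (by simp)).ne'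
    obtain ⟨δ, hδ0, hδ⟩ := ENNReal.exists_pos_sum_of_countable hη0 ℕ
    rw [Measure.hausdorffMeasure_apply] at h
    have h1 : (⨅ (t : ℕ → Set (E n)) (_ : K ⊆ ⋃ n, t n) (_ : ∀ n, ediam (t n) ≤ 1),
        ∑' n, ⨆ _ : (t n).Nonempty, ediam (t n) ^ d) < η := by
      refine lt_of_le_of_lt ?_ (pos_iff_ne_zero.2 hη0)
      rw [← h]
      exact le_iSup₂ (f := fun (r : ℝ≥0∞) (_ : 0 < r) =>
        ⨅ (t : ℕ → Set (E n)) (_ : K ⊆ ⋃ n, t n) (_ : ∀ n, ediam (t n) ≤ r),
          ∑' n, ⨆ _ : (t n).Nonempty, ediam (t n) ^ d) (1 : ℝ≥0∞) one_pos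
    rw [iInf_lt_iff] at h1
    obtain ⟨t, h1⟩ := h1
    rw [iInf_lt_iff] at h1
    obtain ⟨hcov, h1⟩ := h1
    rw [iInf_lt_iff] at h1
    obtain ⟨hd1, h1⟩ := h1
    classical
    set c : ℕ → E n := fun i => if h : (t i).Nonempty then h.choose else 0 with hc
    set s : ℕ → ℝ≥0 := fun i => (ediam (t i)).toNNReal + (δ i) ^ (1 / d) with hs
    have hfin : ∀ i, ediam (t i) ≠ ⊤ := fun i => ne_top_of_le_ne_top ENNReal.one_ne_top (hd1 i)
    have hcov' : K ⊆ ⋃ i, ball (c i) (s i : ℝ) := by
      intro x hx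
      obtain ⟨i, hi⟩ := Set.mem_iUnion.1 (hcov hx)
      refine Set.mem_iUnion.2 ⟨i, ?_⟩
      have hne : (t i).Nonempty := ⟨x, hi⟩
      have hci : c i ∈ t i := by
        simp only [hc]
        rw [dif_pos hne]
        exact hne.choose_spec
      have h2 : edist x (c i) ≤ ediam (t i) := edist_le_ediam_of_mem hi hci
      rw [← eball_coe, mem_eball]
      refine lt_of_le_of_lt h2 ?_
      simp only [hs]
      rw [ENNReal.coe_add, ENNReal.coe_toNNReal (hfin i)]
      refine ENNReal.lt_add_right (hfin i) ?_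
      have : 0 < (δ i) ^ (1 / d) := NNReal.rpow_pos (hδ0 i)
      exact_mod_cast this.ne'
    unfold hausdorffContent
    refine iInf_le_of_le c (iInf_le_of_le s (iInf_le_of_le hcov' ?_))
    calc ∑' i, (s i : ℝ≥0∞) ^ d ≤
        ∑' i, 2 ^ d * ((⨆ _ : (t i).Nonempty, ediam (t i) ^ d) + δ i) := by
          refine ENNReal.tsum_le_tsum fun i => ?_
          have h3 : ediam (t i) ^ d ≤ ⨆ _ : (t i).Nonempty, ediam (t i) ^ d := by
            rcases (t i).eq_empty_or_nonempty with he | hne
            · rw [he]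
              simp [hd]
            · exact le_iSup (f := fun _ : (t i).Nonempty => ediam (t i) ^ d) hne
          have h4 : (((δ i) ^ (1 / d) : ℝ≥0) : ℝ≥0∞) ^ d = δ i := by
            rw [← ENNReal.coe_rpow_of_nonneg _ hd.le, ← NNReal.rpow_mul]
            congr 1
            rw [one_div, inv_mul_cancel₀ hd.ne', NNReal.rpow_one]
          simp only [hs]
          rw [ENNReal.coe_add, ENNReal.coe_toNNReal (hfin i)]
          set A := ediam (t i)
          set B : ℝ≥0∞ := (((δ i) ^ (1 / d) : ℝ≥0) : ℝ≥0∞)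
          calc (A + B) ^ d ≤ (2 * max A B) ^ d := by
                gcongr
                rw [two_mul]
                exact add_le_add (le_max_left _ _) (le_max_right _ _)
            _ = 2 ^ d * max A B ^ d := ENNReal.mul_rpow_of_nonneg _ _ hd.le
            _ ≤ 2 ^ d * (A ^ d + B ^ d) := by
                gcongr
                rcases le_total A B with h | h
                · rw [max_eq_right h]; exact le_add_self
                · rw [max_eq_left h]; exact le_self_add
            _ ≤ _ := by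
                rw [h4]
                gcongr
      _ = 2 ^ d * ((∑' i, ⨆ _ : (t i).Nonempty, ediam (t i) ^ d) + ∑' i, (δ i : ℝ≥0∞)) := by
          rw [ENNReal.tsum_mul_left, ENNReal.tsum_add]
      _ ≤ 2 ^ d * (η + η) := by
          gcongr
      _ = ε := by
          rw [hη, ENNReal.add_halves]
          exact ENNReal.mul_div_cancel h2d h2t

end Pool.Agent.TH969.BC
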