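import Pool.Agent.TH969.BC.Assemble
import Pool.Agent.TH969.BC.HausNull
import Pool.Agent.TH969.BC.BesselUpper

/-!
Assembly for MP_9b3711_an: the null sets of the Besov capacities and of the Bessel capacities of
the Hardy spaces are the same.
-/

open MeasureTheory SchwartzMap
open scoped ENNReal NNReal FourierTransform SchwartzMap

namespace Pool.Agent.TH969.BC

open Pool.Agent.Helper656.Cap

variable {n : ℕ}

theorem besovCap_le_besovCapOn (D : Set 𝓢(E n, ℂ)) (φ : 𝓢(E n, ℂ)) (α p : ℝ) (K : Set (E n)) :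
    besovCap φ α p K ≤ besovCapOn D φ α p K := by
  unfold besovCap besovCapOn
  exact le_iInf fun u => le_iInf fun hu => iInf_le_of_le u (iInf_le_of_le hu.2 le_rfl)

theorem besselCapLoc_le (N : ℕ) (α p : ℝ) (hp : 0 < p) (K : Set (E n)) :
    besselCapLoc N α p K ≤ besselCap N α p K := by
  unfold besselCap besselCapLoc
  refine le_iInf fun f => le_iInf fun u => le_iInf fun hu =>
    iInf_le_of_le f (iInf_le_of_le u (iInf_le_of_le hu ?_))
  unfold hardyPowLoc hardyPow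
  exact lintegral_mono fun x => ENNReal.rpow_le_rpow (grandMaxLoc_le N f x) hp.le

theorem one_le_enorm_of_re {z : ℂ} (h : 1 ≤ z.re) : 1 ≤ ‖z‖ₑ := by
  have h1 : (1 : ℝ) ≤ ‖z‖ := h.trans ((le_abs_self _).trans (Complex.abs_re_le_norm z))
  rw [← ofReal_norm_eq_enorm, ENNReal.one_le_ofReal]
  exact h1

theorem eq_zero_of_forall_pos {a : ℝ≥0∞} {C : ℝ≥0} {b : ℝ≥0∞} (h : a ≤ C * b) (hb : b = 0) :
    a = 0 := by
  rw [hb, mul_zero] at h
  exact le_antisymm h zero_le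

/-- Lower bound for the Besov capacity. -/
theorem content_le_besovCap (hn : 1 ≤ n) (α p : ℝ) (hp : 0 < p) (hp1 : p ≤ 1)
    (hαp : α * p < n) (φ : 𝓢(E n, ℂ)) (hφ : IsGenerator φ) :
    ∃ C : ℝ≥0, ∀ K : Set (E n), hausdorffContent (n - α * p) K ≤ C * besovCap φ α p K := by
  obtain ⟨C, hC⟩ := content_le_besovPow hn α p hp hp1 hαp φ hφ
  refine ⟨C + 1, fun K => ?_⟩
  unfold besovCap
  have hC0 : ((C + 1 : ℝ≥0) : ℝ≥0∞) ≠ 0 := by
    rw [ENNReal.coe_ne_zero]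
    positivity
  rw [ENNReal.mul_iInf_of_ne hC0 ENNReal.coe_ne_top]
  refine le_iInf fun u => ?_
  rw [ENNReal.mul_iInf_of_ne hC0 ENNReal.coe_ne_top]
  refine le_iInf fun hu => ?_
  refine (hC u K fun x hx => one_le_enorm_of_re (hu.2 x hx)).trans ?_
  gcongr
  exact le_self_add

theorem one_le_besovCap (α p : ℝ) (hp : 0 < p) (hp1 : p ≤ 1)
    (hαp : (n : ℝ) ≤ α * p) (φ : 𝓢(E n, ℂ)) (hφ : IsGenerator φ) :
    ∃ C : ℝ≥0, ∀ K : Set (E n), K.Nonempty → 1 ≤ C * besovCap φ α p K := by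
  obtain ⟨C, hC⟩ := one_le_besovPow α p hp hp1 hαp φ hφ
  refine ⟨C + 1, fun K hK => ?_⟩
  obtain ⟨x, hx⟩ := hK
  unfold besovCap
  have hC0 : ((C + 1 : ℝ≥0) : ℝ≥0∞) ≠ 0 := by
    rw [ENNReal.coe_ne_zero]
    positivity
  rw [ENNReal.mul_iInf_of_ne hC0 ENNReal.coe_ne_top]
  refine le_iInf fun u => ?_
  rw [ENNReal.mul_iInf_of_ne hC0 ENNReal.coe_ne_top]
  refine le_iInf fun hu => ?_
  refine (hC u x (one_le_enorm_of_re (hu.2 x hx))).trans ?_
  gcongr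
  exact le_self_add

/-- Lower bound for the local Bessel capacity. -/
theorem content_le_besselCapLoc (hn : 1 ≤ n) (α p : ℝ) (hα : 0 < α) (hp : 0 < p) (hp1 : p ≤ 1)
    (hαp : α * p < n) (N : ℕ) :
    ∃ C : ℝ≥0, ∀ K : Set (E n), hausdorffContent (n - α * p) K ≤ C * besselCapLoc N α p K := by
  obtain ⟨C, hC⟩ := content_le_hardyPowLoc hn α p hα hp hp1 hαp N
  refine ⟨C + 1, fun K => ?_⟩
  unfold besselCapLoc
  have hC0 : ((C + 1 : ℝ≥0) : ℝ≥0∞) ≠ 0 := by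
    rw [ENNReal.coe_ne_zero]
    positivity
  rw [ENNReal.mul_iInf_of_ne hC0 ENNReal.coe_ne_top]
  refine le_iInf fun f => ?_
  rw [ENNReal.mul_iInf_of_ne hC0 ENNReal.coe_ne_top]
  refine le_iInf fun u => ?_
  rw [ENNReal.mul_iInf_of_ne hC0 ENNReal.coe_ne_top]
  refine le_iInf fun hu => ?_
  refine (hC f u K hu.1 hu.2).trans ?_
  gcongr
  exact le_self_add

theorem one_le_besselCapLoc (hn : 1 ≤ n) (α p : ℝ) (hα : 0 < α) (hp : 0 < p) (hp1 : p ≤ 1)
    (hαp : (n : ℝ) ≤ α * p) (N : ℕ) :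
    ∃ C : ℝ≥0, ∀ K : Set (E n), K.Nonempty → 1 ≤ C * besselCapLoc N α p K := by
  obtain ⟨C, hC⟩ := one_le_hardyPowLoc hn α p hα hp hp1 hαp N
  refine ⟨C + 1, fun K hK => ?_⟩
  obtain ⟨x, hx⟩ := hK
  unfold besselCapLoc
  have hC0 : ((C + 1 : ℝ≥0) : ℝ≥0∞) ≠ 0 := by
    rw [ENNReal.coe_ne_zero]
    positivity
  rw [ENNReal.mul_iInf_of_ne hC0 ENNReal.coe_ne_top]
  refine le_iInf fun f => ?_
  rw [ENNReal.mul_iInf_of_ne hC0 ENNReal.coe_ne_top]
  refine le_iInf fun u => ?_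
  rw [ENNReal.mul_iInf_of_ne hC0 ENNReal.coe_ne_top]
  refine le_iInf fun hu => ?_
  refine (hC f u x hu.1 (hu.2 x hx)).trans ?_
  gcongr
  exact le_self_add

/-- The empty set has zero Besov capacity. -/
theorem besovCapOn_empty (D : Set 𝓢(E n, ℂ)) (hD : ∀ u : 𝓢(E n, ℂ), HasCompactSupport u → u ∈ D)
    (φ : 𝓢(E n, ℂ)) (α p : ℝ) (hp : 0 < p) : besovCapOn D φ α p ∅ = 0 := by
  refine le_antisymm ?_ zero_le
  unfold besovCapOn
  refine iInf_le_of_le 0 (iInf_le_of_le ⟨hD 0 ?_, fun x => ?_, fun x hx => ?_⟩ ?_)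
  · have : ((0 : 𝓢(E n, ℂ)) : E n → ℂ) = 0 := by
      ext x
      simp
    rw [this]
    exact HasCompactSupport.zero
  · simp
  · exact absurd hx (Set.notMem_empty x)
  · unfold besovPow
    have hz : ∀ (j : ℕ) (x : E n), lpBlock φ 0 j x = 0 := by
      intro j x
      unfold lpBlock
      have h1 : (fun ξ : E n => dyad φ j ξ * 𝓕 (0 : 𝓢(E n, ℂ)) ξ) = fun _ => (0 : ℂ) := by
        funext ξ
        have h2 : (𝓕 (0 : 𝓢(E n, ℂ)) : 𝓢(E n, ℂ)) = 0 :=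
          map_zero (FourierTransform.fourierCLM ℂ 𝓢(E n, ℂ))
        have h3 : (𝓕 (((0 : 𝓢(E n, ℂ)) : E n → ℂ)) : E n → ℂ) ξ = (𝓕 (0 : 𝓢(E n, ℂ)) : 𝓢(E n, ℂ)) ξ := by
          rw [SchwartzMap.fourier_coe]
        simp [h2]
      rw [h1, Real.fourierInv_eq]
      simp
    simp only [hz, enorm_zero, ENNReal.zero_rpow_of_pos hp, lintegral_zero, mul_zero, tsum_zero,
      le_refl]

theorem besselCap_empty (N : ℕ) (α p : ℝ) (hp : 0 < p) : besselCap (n := n) N α p ∅ = 0 := by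
  refine le_antisymm ?_ zero_le
  unfold besselCap
  refine iInf_le_of_le 0 (iInf_le_of_le (fun _ => 0) (iInf_le_of_le ⟨⟨contDiff_const, ?_⟩, ?_⟩ ?_))
  · intro ψ V _ _
    simp
  · intro x hx
    exact absurd hx (Set.notMem_empty x)
  · unfold hardyPow
    have h0 : ∀ x : E n, grandMax N (0 : 𝓢'(E n, ℂ)) x = 0 := by
      intro x
      unfold grandMax
      simp
    simp only [h0, ENNReal.zero_rpow_of_pos hp, lintegral_zero, le_refl]

/-- Null sets of the Besov capacity, `αp < n`. -/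
theorem besovCapOn_eq_zero_iff (hn : 1 ≤ n) (α p : ℝ) (hα : 0 < α) (hp : 0 < p) (hp1 : p ≤ 1)
    (hαp : α * p < n) (φ : 𝓢(E n, ℂ)) (hφ : IsGenerator φ) (D : Set 𝓢(E n, ℂ))
    (hD : ∀ u : 𝓢(E n, ℂ), HasCompactSupport u → u ∈ D) (K : Set (E n)) (hK : IsCompact K) :
    besovCapOn D φ α p K = 0 ↔ μH[n - α * p] K = 0 := by
  rw [← content_eq_zero_iff _ (by linarith)]
  constructor
  · intro h
    obtain ⟨C, hC⟩ := content_le_besovCap hn α p hp hp1 hαp φ hφ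
    exact eq_zero_of_forall_pos (hC K)
      (le_antisymm ((besovCap_le_besovCapOn D φ α p K).trans h.le) zero_le)
  · intro h
    exact besovCapOn_eq_zero D hD φ hφ α p hp hp1 K hK
      (besovCap_eq_zero hn α p hα hp hp1 hαp φ hφ K hK h)

theorem besovCapOn_eq_zero_iff' (α p : ℝ) (hp : 0 < p) (hp1 : p ≤ 1)
    (hαp : (n : ℝ) ≤ α * p) (φ : 𝓢(E n, ℂ)) (hφ : IsGenerator φ) (D : Set 𝓢(E n, ℂ))
    (hD : ∀ u : 𝓢(E n, ℂ), HasCompactSupport u → u ∈ D) (K : Set (E n)) :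
    besovCapOn D φ α p K = 0 ↔ K = ∅ := by
  constructor
  · intro h
    obtain ⟨C, hC⟩ := one_le_besovCap α p hp hp1 hαp φ hφ
    by_contra hne
    have h1 := hC K (Set.nonempty_iff_ne_empty.2 hne)
    have h2 := eq_zero_of_forall_pos h1
      (le_antisymm ((besovCap_le_besovCapOn D φ α p K).trans h.le) zero_le)
    exact one_ne_zero h2
  · rintro rfl
    exact besovCapOn_empty D hD φ α p hp

/-- Null sets of the Bessel capacities, `αp < n`. -/
theorem besselCap_null (hn : 1 ≤ n) (α p : ℝ) (hα : 0 < α) (hp : 0 < p) (hp1 : p ≤ 1)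
    (hαp : α * p < n) : ∃ N₀ : ℕ, ∀ N ≥ N₀, ∀ K : Set (E n), IsCompact K →
      (besselCap N α p K = 0 ↔ μH[n - α * p] K = 0) ∧
      (besselCapLoc N α p K = 0 ↔ μH[n - α * p] K = 0) := by
  obtain ⟨N₀, hN₀⟩ := besselCap_eq_zero hn α p hα hp hp1 hαp
  refine ⟨N₀, fun N hN K hK => ?_⟩
  rw [← content_eq_zero_iff _ (by linarith)]
  obtain ⟨C, hC⟩ := content_le_besselCapLoc hn α p hα hp hp1 hαp N
  have h1 : besselCapLoc N α p K = 0 → hausdorffContent (n - α * p) K = 0 := fun h =>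
    eq_zero_of_forall_pos (hC K) h
  have h2 : besselCap N α p K = 0 → besselCapLoc N α p K = 0 := fun h =>
    le_antisymm ((besselCapLoc_le N α p hp K).trans h.le) zero_le
  have h3 := hN₀ N hN K hK
  exact ⟨⟨fun h => h1 (h2 h), h3⟩, ⟨h1, fun h => h2 (h3 h)⟩⟩

theorem besselCap_null' (hn : 1 ≤ n) (α p : ℝ) (hα : 0 < α) (hp : 0 < p) (hp1 : p ≤ 1)
    (hαp : (n : ℝ) ≤ α * p) (N : ℕ) (K : Set (E n)) :
      (besselCap N α p K = 0 ↔ K = ∅) ∧ (besselCapLoc N α p K = 0 ↔ K = ∅) := by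
  obtain ⟨C, hC⟩ := one_le_besselCapLoc hn α p hα hp hp1 hαp N
  have h1 : besselCapLoc N α p K = 0 → K = ∅ := fun h => by
    by_contra hne
    exact one_ne_zero (eq_zero_of_forall_pos (hC K (Set.nonempty_iff_ne_empty.2 hne)) h)
  have h2 : besselCap N α p K = 0 → besselCapLoc N α p K = 0 := fun h =>
    le_antisymm ((besselCapLoc_le N α p hp K).trans h.le) zero_le
  have h3 : K = ∅ → besselCap N α p K = 0 := by
    rintro rfl
    exact besselCap_empty N α p hp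
  exact ⟨⟨fun h => h1 (h2 h), h3⟩, ⟨h1, fun h => h2 (h3 h)⟩⟩

end Pool.Agent.TH969.BC
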