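import Pool.Agent.TH969.BC.Family

open MeasureTheory SchwartzMap
open scoped ENNReal NNReal FourierTransform SchwartzMap RealInnerProductSpace ContDiff

namespace Pool.Agent.TH969.BC

open Pool.Agent.Helper656.Cap

variable {n : ℕ}

/-- uniform version of `pairing_small` of Helper656 -/
theorem pairing_small_unif (N L : ℕ) (hN : L + n + 1 ≤ N) (C1 : ℝ) (hC1 : 0 < C1) :
    ∃ C : ℝ, 0 < C ∧ ∀ f : 𝓢(E n, ℂ), (∀ y, (1 + ‖y‖) ^ L * ‖f y‖ ≤ C1) →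
      ∀ (x : E n) (t : ℝ), 0 < t → t ≤ 1 → ∀ ψ : 𝓢(E n, ℂ), Adapted N x t ψ →
      ‖∫ y, f y * ψ y‖ ≤ C / (1 + ‖x‖) ^ L := by
  have hint : Integrable (fun z : E n => (1 + ‖z‖) ^ (-((n : ℝ) + 1))) := by
    apply integrable_one_add_norm
    rw [finrank_euclideanSpace_fin]
    linarith
  set I : ℝ := ∫ z : E n, (1 + ‖z‖) ^ (-((n : ℝ) + 1)) with hI
  have hI0 : 0 ≤ I := integral_nonneg fun z => by positivity
  refine ⟨C1 * 2 ^ (L + n + 2) * I + 1, by positivity, ?_⟩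
  intro f hf x t ht ht1 ψ hψ
  have key : ∀ y, ‖f y * ψ y‖ ≤ (C1 * 2 ^ (L + n + 2) / (1 + ‖x‖) ^ L) *
      ((t ^ n)⁻¹ * (1 + ‖t⁻¹ • (y - x)‖) ^ (-((n : ℝ) + 1))) := by
    intro y
    have hs : ‖t⁻¹ • (y - x)‖ = ‖y - x‖ / t := by
      rw [norm_smul, norm_inv, Real.norm_of_nonneg ht.le, inv_mul_eq_div]
    rw [hs]
    set s := ‖y - x‖ / t with hsdef
    have hs0 : 0 ≤ s := by positivity
    set A := t ^ n * ‖ψ y‖ with hA
    have hA0 : 0 ≤ A := by positivity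
    have hk : ∀ k ≤ N, s ^ k * A ≤ 1 := by
      intro k hk
      have := hψ k hk 0 (Nat.zero_le _) y
      rwa [norm_iteratedFDeriv_zero, add_zero] at this
    have hA1 : A ≤ 1 := by simpa using hk 0 (Nat.zero_le _)
    have hAm : s ^ (L + n + 1) * A ≤ 1 := hk _ hN
    have hm : (1 + s) ^ (L + n + 1) * A ≤ 2 ^ (L + n + 2) := by
      have h1 : (1 + s) ^ (L + n + 1) ≤ 2 ^ (L + n + 1) * (1 + s ^ (L + n + 1)) := by
        rcases le_total s 1 with h | h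
        · calc (1 + s) ^ (L + n + 1) ≤ 2 ^ (L + n + 1) := by
                apply pow_le_pow_left₀ (by positivity); linarith
            _ ≤ _ := by
                have : 0 ≤ s ^ (L + n + 1) := by positivity
                have h2 : (0 : ℝ) < 2 ^ (L + n + 1) := by positivity
                nlinarith
        · calc (1 + s) ^ (L + n + 1) ≤ (2 * s) ^ (L + n + 1) := by
                apply pow_le_pow_left₀ (by positivity); linarith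
            _ = 2 ^ (L + n + 1) * s ^ (L + n + 1) := mul_pow _ _ _
            _ ≤ _ := by gcongr; linarith
      calc (1 + s) ^ (L + n + 1) * A ≤ 2 ^ (L + n + 1) * (1 + s ^ (L + n + 1)) * A := by gcongr
        _ = 2 ^ (L + n + 1) * (A + s ^ (L + n + 1) * A) := by ring
        _ ≤ 2 ^ (L + n + 1) * (1 + 1) := by gcongr
        _ = 2 ^ (L + n + 2) := by ring
    have hP : (1 + ‖x‖) ^ L ≤ (1 + ‖y‖) ^ L * (1 + s) ^ L := by
      rw [← mul_pow]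
      apply pow_le_pow_left₀ (by positivity)
      have h1 : ‖x‖ ≤ ‖y‖ + ‖y - x‖ := by
        calc ‖x‖ = ‖y - (y - x)‖ := by congr 1; abel
          _ ≤ _ := norm_sub_le _ _
      have h2 : ‖y - x‖ ≤ s := by
        rw [hsdef, le_div_iff₀ ht]
        nlinarith [norm_nonneg (y - x)]
      nlinarith [norm_nonneg y, norm_nonneg (y - x)]
    have hrp : (1 + s) ^ (-((n : ℝ) + 1)) = ((1 + s) ^ (n + 1))⁻¹ := by
      rw [Real.rpow_neg (by positivity), ← Real.rpow_natCast]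
      push_cast
      rfl
    rw [hrp, norm_mul]
    have htn : 0 < t ^ n := by positivity
    have hψA : ‖ψ y‖ = (t ^ n)⁻¹ * A := by
      rw [hA, ← mul_assoc, inv_mul_cancel₀ htn.ne', one_mul]
    have hx0 : 0 < (1 + ‖x‖) ^ L := by positivity
    have hs1 : 0 < (1 + s) ^ (n + 1) := by positivity
    rw [hψA]
    have hmain : ‖f y‖ * A * (1 + ‖x‖) ^ L * (1 + s) ^ (n + 1) ≤ C1 * 2 ^ (L + n + 2) := by
      calc ‖f y‖ * A * (1 + ‖x‖) ^ L * (1 + s) ^ (n + 1)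
          ≤ ‖f y‖ * A * ((1 + ‖y‖) ^ L * (1 + s) ^ L) * (1 + s) ^ (n + 1) := by gcongr
        _ = ((1 + ‖y‖) ^ L * ‖f y‖) * ((1 + s) ^ (L + n + 1) * A) := by ring
        _ ≤ C1 * 2 ^ (L + n + 2) := by
            apply mul_le_mul (hf y) hm (by positivity) hC1.le
    calc ‖f y‖ * ((t ^ n)⁻¹ * A) = (t ^ n)⁻¹ * ((‖f y‖ * A * (1 + ‖x‖) ^ L * (1 + s) ^ (n + 1)) /
          ((1 + ‖x‖) ^ L * (1 + s) ^ (n + 1))) := by
            field_simp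
      _ ≤ (t ^ n)⁻¹ * ((C1 * 2 ^ (L + n + 2)) / ((1 + ‖x‖) ^ L * (1 + s) ^ (n + 1))) := by
            gcongr
      _ = _ := by field_simp
  have hint2 : Integrable (fun y : E n => (1 + ‖t⁻¹ • (y - x)‖) ^ (-((n : ℝ) + 1))) := by
    have h1 := hint.comp_smul (inv_pos.2 ht).ne'
    exact h1.comp_sub_right x
  have hval : ∫ y : E n, (1 + ‖t⁻¹ • (y - x)‖) ^ (-((n : ℝ) + 1)) = t ^ n * I := by
    rw [integral_sub_right_eq_self (fun y : E n => (1 + ‖t⁻¹ • y‖) ^ (-((n : ℝ) + 1))) x]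
    rw [Measure.integral_comp_inv_smul_of_nonneg (volume : Measure (E n))
      (fun z : E n => (1 + ‖z‖) ^ (-((n : ℝ) + 1))) ht.le]
    rw [finrank_euclideanSpace_fin, smul_eq_mul]
  calc ‖∫ y, f y * ψ y‖ ≤ ∫ y, (C1 * 2 ^ (L + n + 2) / (1 + ‖x‖) ^ L) *
      ((t ^ n)⁻¹ * (1 + ‖t⁻¹ • (y - x)‖) ^ (-((n : ℝ) + 1))) := by
        apply norm_integral_le_of_norm_le
        · exact (hint2.const_mul _).const_mul _
        · exact Filter.Eventually.of_forall key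
    _ = (C1 * 2 ^ (L + n + 2) / (1 + ‖x‖) ^ L) * I := by
        rw [integral_const_mul, integral_const_mul, hval, ← mul_assoc (t ^ n)⁻¹,
          inv_mul_cancel₀ (by positivity), one_mul]
    _ ≤ _ := by
        rw [div_mul_eq_mul_div]
        gcongr
        linarith

/-- uniform version of `pairing_large` of Helper656 -/
theorem pairing_large_unif (N L J : ℕ) (hN : 2 * J ≤ N) (hLN : L ≤ N) (hL : L ≤ n + 2 * J)
    (M₁ : ℝ) (hM₁ : 0 ≤ M₁) :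
    ∃ C : ℝ, 0 < C ∧ ∀ f : 𝓢(E n, ℂ), (∫ y, (‖y‖ ^ 0 * ‖f y‖ + ‖y‖ ^ L * ‖f y‖)) ≤ M₁ →
      ∀ (x : E n) (t : ℝ), 1 ≤ t → ∀ ψ : 𝓢(E n, ℂ), Adapted N x t ψ →
      ‖∫ ξ, ((‖ξ‖ ^ (2 * J) : ℝ) : ℂ) * 𝓕 f ξ * 𝓕⁻ ψ ξ‖ ≤ C / (1 + ‖x‖) ^ L := by
  set c : ℝ := (-(2 * Real.pi) ^ 2) ^ J with hc
  have hc0 : c ≠ 0 := by
    rw [hc]
    apply pow_ne_zero
    have := Real.pi_pos
    rw [neg_ne_zero]
    positivity
  set B : ℝ := n ^ J * (2 ^ L * 2 * 2 ^ L) with hB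
  have hB0 : 0 ≤ B := by positivity
  refine ⟨|c⁻¹| * (B * M₁) + 1, by positivity, ?_⟩
  intro f hfM x t ht ψ hψ
  set M : ℝ := ∫ y, (‖y‖ ^ 0 * ‖f y‖ + ‖y‖ ^ L * ‖f y‖) with hM
  have hint : Integrable (fun y => ‖y‖ ^ 0 * ‖f y‖ + ‖y‖ ^ L * ‖f y‖) :=
    (f.integrable_pow_mul volume 0).add (f.integrable_pow_mul volume L)
  have hM0 : 0 ≤ M := integral_nonneg fun y => by positivity
  have hX : 0 < (1 + ‖x‖) ^ L := by positivity
  have h1 : ∫ ξ, ((‖ξ‖ ^ (2 * J) : ℝ) : ℂ) * 𝓕 f ξ * 𝓕⁻ ψ ξ =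
      ((c⁻¹ : ℝ) : ℂ) * ∫ y, f y * lapIt J ψ y := by
    have h2 := SchwartzMap.integral_fourier_mul_eq f (𝓕⁻ (lapIt J ψ))
    rw [FourierTransform.fourier_fourierInv_eq] at h2
    rw [← h2, ← integral_const_mul]
    refine integral_congr_ae (Filter.Eventually.of_forall fun ξ => ?_)
    simp only
    rw [fourierInv_lapIt, ← hc]
    push_cast
    have : (c : ℂ) ≠ 0 := by exact_mod_cast hc0
    field_simp
  rw [h1, norm_mul, Complex.norm_real, Real.norm_eq_abs]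
  have h3 : ‖∫ y, f y * lapIt J ψ y‖ ≤ B * M / (1 + ‖x‖) ^ L := by
    have h4 : ∀ y, ‖f y * lapIt J ψ y‖ ≤
        B / (1 + ‖x‖) ^ L * (‖y‖ ^ 0 * ‖f y‖ + ‖y‖ ^ L * ‖f y‖) := by
      intro y
      have h5 := adapted_deriv_bound hN hLN hL ht hψ y
      have h6 := norm_lapIt_le J ψ y
      have h7 : ‖iteratedFDeriv ℝ (2 * J) ψ y‖ ≤
          2 ^ L * 2 * (2 ^ L * (1 + ‖y‖ ^ L)) / (1 + ‖x‖) ^ L := by
        rw [le_div_iff₀ hX, mul_comm]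
        refine h5.trans ?_
        gcongr
        exact one_add_pow_le _ (norm_nonneg y) L
      rw [norm_mul]
      calc ‖f y‖ * ‖lapIt J ψ y‖ ≤ ‖f y‖ * (n ^ J *
            (2 ^ L * 2 * (2 ^ L * (1 + ‖y‖ ^ L)) / (1 + ‖x‖) ^ L)) := by
            gcongr
            exact h6.trans (by gcongr)
        _ = _ := by rw [hB]; ring
    calc ‖∫ y, f y * lapIt J ψ y‖ ≤
        ∫ y, B / (1 + ‖x‖) ^ L * (‖y‖ ^ 0 * ‖f y‖ + ‖y‖ ^ L * ‖f y‖) :=
          norm_integral_le_of_norm_le (hint.const_mul _) (Filter.Eventually.of_forall h4)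
      _ = _ := by rw [integral_const_mul, ← hM]; ring
  calc |c⁻¹| * ‖∫ y, f y * lapIt J ψ y‖ ≤ |c⁻¹| * (B * M / (1 + ‖x‖) ^ L) := by gcongr
    _ = |c⁻¹| * (B * M) / (1 + ‖x‖) ^ L := by ring
    _ ≤ (|c⁻¹| * (B * M₁) + 1) / (1 + ‖x‖) ^ L := by
        have h9 : |c⁻¹| * (B * M) ≤ |c⁻¹| * (B * M₁) := by gcongr
        gcongr; linarith

/-- uniform version of `pairing_bound` of Helper656 -/
theorem pairing_bound_unif (N L J : ℕ) (h1 : L + n + 1 ≤ N) (h2 : 2 * J ≤ N) (h3 : L ≤ n + 2 * J)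
    (C1 M₁ : ℝ) (hC1 : 0 < C1) (hM₁ : 0 ≤ M₁) :
    ∃ C : ℝ, 0 < C ∧ ∀ η f : 𝓢(E n, ℂ), (∀ ξ, 𝓕 η ξ = ((‖ξ‖ ^ (2 * J) : ℝ) : ℂ) * 𝓕 f ξ) →
      (∀ y, (1 + ‖y‖) ^ L * ‖η y‖ ≤ C1) → (∫ y, (‖y‖ ^ 0 * ‖f y‖ + ‖y‖ ^ L * ‖f y‖)) ≤ M₁ →
      ∀ (x : E n) (t : ℝ), 0 < t → ∀ ψ : 𝓢(E n, ℂ), Adapted N x t ψ →
      ‖∫ y, η y * ψ y‖ ≤ C / (1 + ‖x‖) ^ L := by
  obtain ⟨A1, hA1, H1⟩ := pairing_small_unif (n := n) N L h1 C1 hC1
  obtain ⟨A2, hA2, H2⟩ := pairing_large_unif (n := n) N L J h2 (by omega) h3 M₁ hM₁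
  refine ⟨max A1 A2, lt_max_of_lt_left hA1, fun η f hf hη hfM x t ht ψ hψ => ?_⟩
  rcases le_total t 1 with h | h
  · refine (H1 η hη x t ht h ψ hψ).trans ?_
    gcongr
    exact le_max_left _ _
  · have e : ∫ y, η y * ψ y = ∫ ξ, ((‖ξ‖ ^ (2 * J) : ℝ) : ℂ) * 𝓕 f ξ * 𝓕⁻ ψ ξ := by
      have := SchwartzMap.integral_fourier_mul_eq η (𝓕⁻ ψ)
      rw [FourierTransform.fourier_fourierInv_eq] at this
      rw [← this]
      refine integral_congr_ae (Filter.Eventually.of_forall fun ξ => ?_)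
      simp only
      rw [hf]
    rw [e]
    refine (H2 f hfM x t h ψ hψ).trans ?_
    gcongr
    exact le_max_right _ _

end Pool.Agent.TH969.BC
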