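import Pool.Agent.TH969.BC.BesovUpper

open MeasureTheory SchwartzMap
open scoped ENNReal NNReal FourierTransform SchwartzMap RealInnerProductSpace

namespace Pool.Agent.TH969.BC

open Pool.Agent.Helper656.Cap

variable {n : ℕ}

/-- reproducing formula for band limited functions -/
theorem conv_eq_of_fourier (g Ψ : 𝓢(E n, ℂ)) (h : ∀ ξ, 𝓕 g ξ * 𝓕 Ψ ξ = 𝓕 g ξ) (y : E n) :
    g y = ∫ z, g z * Ψ (y - z) := by
  have h1 : SchwartzMap.convolution (ContinuousLinearMap.mul ℂ ℂ) g Ψ = g := by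
    have h2 : 𝓕 (SchwartzMap.convolution (ContinuousLinearMap.mul ℂ ℂ) g Ψ) = 𝓕 g := by
      ext ξ
      rw [SchwartzMap.fourier_convolution, SchwartzMap.pairing_apply_apply]
      exact h ξ
    have h3 := congrArg (fun v : 𝓢(E n, ℂ) => 𝓕⁻ v) h2
    simpa only [FourierTransform.fourierInv_fourier_eq] using h3
  have h4 := congrArg (fun v : 𝓢(E n, ℂ) => v y) h1
  simp only at h4
  rw [← h4, SchwartzMap.convolution_apply]
  rfl

/-- Plancherel-Polya-Peetre inequality: a submean value property of band limited functions -/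
theorem peetre (p : ℝ) (hp : 0 < p) (hp1 : p ≤ 1) (m : ℝ) (hm : 0 < m) (Ψ : 𝓢(E n, ℂ))
    (hΨ : ∀ ξ, ‖ξ‖ ≤ 2 → 𝓕 Ψ ξ = 1) :
    ∃ C : ℝ, 0 < C ∧ ∀ (s : ℝ), 0 < s → ∀ g : 𝓢(E n, ℂ), (∀ ξ, 2 / s ≤ ‖ξ‖ → 𝓕 g ξ = 0) →
      ∀ x, ENNReal.ofReal (‖g x‖ ^ p) ≤ ENNReal.ofReal C * ∫⁻ z,
        ENNReal.ofReal (‖g z‖ ^ p * (s⁻¹ ^ n * (1 + ‖x - z‖ / s) ^ (-m))) := by
  set a : ℝ := m / p with ha
  have ha0 : 0 < a := by positivity
  have hap : a * p = m := by rw [ha]; field_simp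
  obtain ⟨Q, hQ⟩ := exists_nat_gt a
  obtain ⟨C, hC0, hC⟩ : ∃ C : ℝ, 0 < C ∧ ∀ y, (1 + ‖y‖) ^ Q * ‖Ψ y‖ ≤ C :=
    ⟨2 ^ Q * (SchwartzMap.seminorm ℝ 0 0 Ψ + SchwartzMap.seminorm ℝ Q 0 Ψ) + 1, by positivity,
      fun y => (decay_of_seminorm Ψ Q y).trans (by linarith)⟩
  refine ⟨C, hC0, fun s hs g hg x => ?_⟩
  set I : ℝ≥0∞ := ∫⁻ z, ENNReal.ofReal (‖g z‖ ^ p * (s⁻¹ ^ n * (1 + ‖x - z‖ / s) ^ (-m))) with hI
  rcases eq_or_ne I ⊤ with hItop | hItop
  · rw [hItop, ENNReal.mul_top (by simpa using hC0)]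
    exact le_top
  -- the maximal function
  obtain ⟨B, hB⟩ : ∃ B : ℝ, ∀ y, ‖g y‖ ≤ B :=
    ⟨SchwartzMap.seminorm ℝ 0 0 g, fun y => SchwartzMap.norm_le_seminorm ℝ g y⟩
  have hbase : ∀ y : E n, (1 : ℝ) ≤ 1 + ‖x - y‖ / s := fun y => by
    have : 0 ≤ ‖x - y‖ / s := by positivity
    linarith
  have hbdd : BddAbove (Set.range fun y => ‖g y‖ * (1 + ‖x - y‖ / s) ^ (-a)) := by
    refine ⟨B, ?_⟩
    rintro _ ⟨y, rfl⟩
    simp only
    have h1 : (1 + ‖x - y‖ / s) ^ (-a) ≤ 1 :=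
      Real.rpow_le_one_of_one_le_of_nonpos (hbase y) (by linarith)
    calc _ ≤ ‖g y‖ * 1 := by gcongr
      _ ≤ B := by rw [mul_one]; exact hB y
  set M : ℝ := ⨆ y, ‖g y‖ * (1 + ‖x - y‖ / s) ^ (-a) with hM
  have hMy : ∀ y, ‖g y‖ * (1 + ‖x - y‖ / s) ^ (-a) ≤ M := fun y => le_ciSup hbdd y
  have hgx : ‖g x‖ ≤ M := by
    have := hMy x
    simpa using this
  have hM0 : 0 ≤ M := (norm_nonneg _).trans hgx
  have hgM : ∀ y, ‖g y‖ ≤ M * (1 + ‖x - y‖ / s) ^ a := by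
    intro y
    have h1 := hMy y
    have h2 : 0 < (1 + ‖x - y‖ / s) ^ a := by have := hbase y; positivity
    rw [Real.rpow_neg (by linarith [hbase y]), ← div_eq_mul_inv, div_le_iff₀ h2] at h1
    exact h1
  have hrep : ∀ ξ, 𝓕 g ξ * 𝓕 (dil 0 s hs Ψ) ξ = 𝓕 g ξ := by
    intro ξ
    rcases le_or_gt (2 / s) ‖ξ‖ with h | h
    · rw [hg ξ h, zero_mul]
    · rw [fourier_dil, inner_zero_left, hΨ]
      · simp
      · rw [norm_smul, Real.norm_of_nonneg hs.le]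
        rw [lt_div_iff₀ hs] at h
        linarith
  have hpt : ∀ y z : E n, ‖g z‖ * ‖dil 0 s hs Ψ (y - z)‖ ≤
      (M ^ (1 - p) * C * (1 + ‖x - y‖ / s) ^ a) *
        (‖g z‖ ^ p * (s⁻¹ ^ n * (1 + ‖x - z‖ / s) ^ (-m))) := by
    intro y z
    have hb1 := hbase y
    have hb2 := hbase z
    set X := 1 + ‖x - y‖ / s with hX
    set Z := 1 + ‖x - z‖ / s with hZ
    set Y := 1 + ‖y - z‖ / s with hY
    have hY1 : 1 ≤ Y := by
      have : 0 ≤ ‖y - z‖ / s := by positivity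
      linarith
    have hZXY : Z ≤ X * Y := by
      have h1 : ‖x - z‖ ≤ ‖x - y‖ + ‖y - z‖ := norm_sub_le_norm_sub_add_norm_sub _ _ _
      have h2 : ‖x - z‖ / s ≤ ‖x - y‖ / s + ‖y - z‖ / s := by
        rw [← add_div]; gcongr
      have h3 : 0 ≤ ‖x - y‖ / s := by positivity
      have h4 : 0 ≤ ‖y - z‖ / s := by positivity
      rw [hX, hY, hZ]
      nlinarith
    have hPsi : ‖dil 0 s hs Ψ (y - z)‖ ≤ s⁻¹ ^ n * (C * Y ^ (-a)) := by
      rw [dil_apply, norm_mul, Complex.norm_real, Real.norm_of_nonneg (by positivity), sub_zero]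
      gcongr
      have h1 := hC (s⁻¹ • (y - z))
      have h2 : ‖s⁻¹ • (y - z)‖ = ‖y - z‖ / s := by
        rw [norm_smul, Real.norm_of_nonneg (by positivity), inv_mul_eq_div]
      rw [h2, ← hY] at h1
      have h3 : ‖Ψ (s⁻¹ • (y - z))‖ ≤ C * (Y ^ Q)⁻¹ := by
        rw [← div_eq_mul_inv, le_div_iff₀ (by positivity), mul_comm]
        exact h1
      refine h3.trans ?_
      gcongr
      rw [← Real.rpow_natCast, ← Real.rpow_neg (by positivity)]
      exact Real.rpow_le_rpow_of_exponent_le hY1 (by linarith)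
    have hsplit : ‖g z‖ ≤ ‖g z‖ ^ p * (M ^ (1 - p) * Z ^ (a * (1 - p))) := by
      have h1 : ‖g z‖ = ‖g z‖ ^ p * ‖g z‖ ^ (1 - p) := by
        rcases eq_or_lt_of_le (norm_nonneg (g z)) with h | h
        · rw [← h, Real.zero_rpow hp.ne', zero_mul]
        · rw [← Real.rpow_add h]
          simp
      have h2 : ‖g z‖ ^ (1 - p) ≤ (M * Z ^ a) ^ (1 - p) :=
        Real.rpow_le_rpow (norm_nonneg _) (hgM z) (by linarith)
      rw [Real.mul_rpow hM0 (by positivity), ← Real.rpow_mul (by positivity)] at h2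
      calc ‖g z‖ = ‖g z‖ ^ p * ‖g z‖ ^ (1 - p) := h1
        _ ≤ _ := by gcongr
    have hZa : Z ^ (a * (1 - p)) ≤ X ^ a * Y ^ a * Z ^ (-m) := by
      have h1 : Z ^ (a * (1 - p)) = Z ^ a * Z ^ (-m) := by
        rw [← Real.rpow_add (by positivity)]
        congr 1
        rw [← hap]
        ring
      rw [h1]
      gcongr
      rw [← Real.mul_rpow (by positivity) (by positivity)]
      exact Real.rpow_le_rpow (by positivity) hZXY ha0.le
    have hYY : Y ^ a * Y ^ (-a) = 1 := by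
      rw [← Real.rpow_add (by positivity), add_neg_cancel, Real.rpow_zero]
    have hMp : 0 ≤ M ^ (1 - p) := Real.rpow_nonneg hM0 _
    calc ‖g z‖ * ‖dil 0 s hs Ψ (y - z)‖
        ≤ (‖g z‖ ^ p * (M ^ (1 - p) * Z ^ (a * (1 - p)))) * (s⁻¹ ^ n * (C * Y ^ (-a))) := by
          gcongr
      _ ≤ (‖g z‖ ^ p * (M ^ (1 - p) * (X ^ a * Y ^ a * Z ^ (-m)))) *
            (s⁻¹ ^ n * (C * Y ^ (-a))) := by
          gcongr
      _ = (M ^ (1 - p) * C * X ^ a) * (‖g z‖ ^ p * (s⁻¹ ^ n * Z ^ (-m))) *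
            (Y ^ a * Y ^ (-a)) := by ring
      _ = _ := by rw [hYY, mul_one]
  have hMI : M ≤ M ^ (1 - p) * C * I.toReal := by
    have : Nonempty (E n) := ⟨0⟩
    refine ciSup_le fun y => ?_
    have hb1 := hbase y
    have h1 : ‖g y‖ₑ ≤ ENNReal.ofReal (M ^ (1 - p) * C * (1 + ‖x - y‖ / s) ^ a) * I := by
      rw [conv_eq_of_fourier g (dil 0 s hs Ψ) hrep y]
      calc ‖∫ z, g z * dil 0 s hs Ψ (y - z)‖ₑ ≤ ∫⁻ z, ‖g z * dil 0 s hs Ψ (y - z)‖ₑ :=
            enorm_integral_le_lintegral_enorm _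
        _ ≤ ∫⁻ z, ENNReal.ofReal (M ^ (1 - p) * C * (1 + ‖x - y‖ / s) ^ a) *
            ENNReal.ofReal (‖g z‖ ^ p * (s⁻¹ ^ n * (1 + ‖x - z‖ / s) ^ (-m))) := by
            refine lintegral_mono fun z => ?_
            rw [← ofReal_norm, norm_mul, ← ENNReal.ofReal_mul (by positivity)]
            exact ENNReal.ofReal_le_ofReal (hpt y z)
        _ = _ := by rw [lintegral_const_mul' _ _ ENNReal.ofReal_ne_top]
    have h2 : ‖g y‖ ≤ (M ^ (1 - p) * C * (1 + ‖x - y‖ / s) ^ a) * I.toReal := by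
      have h3 := ENNReal.toReal_mono (ENNReal.mul_ne_top ENNReal.ofReal_ne_top hItop) h1
      rw [ENNReal.toReal_mul, ENNReal.toReal_ofReal (by positivity), toReal_enorm] at h3
      exact h3
    rw [Real.rpow_neg (by positivity), ← div_eq_mul_inv, div_le_iff₀ (by positivity)]
    calc ‖g y‖ ≤ _ := h2
      _ = _ := by ring
  have hfinal : ‖g x‖ ^ p ≤ C * I.toReal := by
    rcases eq_or_lt_of_le hM0 with h | h
    · have h1 : ‖g x‖ = 0 := le_antisymm (by rw [h]; exact hgx) (norm_nonneg _)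
      rw [h1, Real.zero_rpow hp.ne']
      have : 0 ≤ I.toReal := ENNReal.toReal_nonneg
      positivity
    · have h1 : M = M ^ (1 - p) * M ^ p := by
        rw [← Real.rpow_add h]
        simp
      have h2 : M ^ p ≤ C * I.toReal := by
        have h3 : 0 < M ^ (1 - p) := Real.rpow_pos_of_pos h _
        have h4 : M ^ (1 - p) * M ^ p ≤ M ^ (1 - p) * (C * I.toReal) := by
          rw [← h1, ← mul_assoc]
          exact hMI
        exact le_of_mul_le_mul_left h4 h3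
      exact (Real.rpow_le_rpow (norm_nonneg _) hgx hp.le).trans h2
  calc ENNReal.ofReal (‖g x‖ ^ p) ≤ ENNReal.ofReal (C * I.toReal) :=
        ENNReal.ofReal_le_ofReal hfinal
    _ = ENNReal.ofReal C * I := by
        rw [ENNReal.ofReal_mul hC0.le, ENNReal.ofReal_toReal hItop]

end Pool.Agent.TH969.BC
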